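import Pool.Agent.Lib.S3.Fat.Sizes
import Pool.Agent.Lib.S3.NearCount

/-!
# Near: near tight count and the size of `N` at all vertices, in the chart, on `Om m n`

`near_law`: the event that a chart point with at least `n` vanishing rows has `k` rows with slack
in `(0, s]`.
-/

set_option autoImplicit false

open MeasureTheory ProbabilityTheory Set
open scoped ENNReal NNReal

namespace Pool.Agent.Lib.S3.PL

open Pool.Agent.Lib.SHirsch (noise Gr nrm)

variable {m n : ℕ}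

/-- Some point `y ≠ 0` of the cone with at least `n` vanishing rows has `k` random rows with slack
in `(0, η |y|]`. -/
def NearBad (m n k : ℕ) (η : ℝ) : Set (Om m n) :=
  {ω | ∃ y : Fin (n + 1) → ℝ, y ≠ 0 ∧ (∀ r, 0 ≤ rho ω r ⬝ᵥ y) ∧
    (∃ T : Finset (Row m), n ≤ T.card ∧ ∀ r ∈ T, rho ω r ⬝ᵥ y = 0) ∧
    ∃ D : Finset (Fin m), D.card = k ∧ ∀ i ∈ D, 0 < rho ω (some i) ⬝ᵥ y ∧
      rho ω (some i) ⬝ᵥ y ≤ η * nrm y}

theorem nearBad_law (hmn : n ≤ m) (Abar : Fin m → Fin n → ℝ) (bbar : Fin m → ℝ)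
    {σ : ℝ} (hσ : 0 < σ) (hA : ∑ i, ∑ j, Abar i j ^ 2 ≤ 1) (hb : ∑ i, bbar i ^ 2 ≤ 1)
    (cc : Co m n → ℝ) (vv : Co m n → ℝ≥0) (k : ℕ) {η : ℝ} (hη : 0 ≤ η) :
    law Abar bbar σ cc vv (NearBad m n k η) ≤
      2 * ((MM m n σ : ℕ) : ℝ≥0∞) ^ (n + k) *
        ENNReal.ofReal (15 * (MM m n σ : ℝ) ^ 2 * η) ^ k *
        law Abar bbar σ cc vv (feaO : Set (Om m n)) := by
  have h := near_count hmn Abar bbar hσ hA hb k hη
  rw [law_feaO]
  refine le_trans ?_ h
  refine le_trans (measure_mono ?_) (law_le_noise Abar bbar σ cc vv _)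
  rintro ω ⟨y, hy0, hy, ⟨T, hT, hTy⟩, D, hDk, hD⟩
  simp only [Set.mem_preimage, Set.mem_ofPred_eq]
  have e2 : (fun i => bbar i + (toNoise Abar bbar ω).2 i) = bm ω := add_toNoise_snd Abar bbar ω
  have e1 : (fun i j => Abar i j + (toNoise Abar bbar ω).1 i j) = Am ω :=
    add_toNoise_fst Abar bbar ω
  rw [e1, e2]
  refine ⟨y, hy0, ?_, ⟨T, hT, ?_⟩, D, hDk, ?_⟩
  · intro r
    have := hy r
    rw [rho_dot] at this
    linarith
  · intro r hr
    have := hTy r hr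
    rw [rho_dot] at this
    linarith
  · intro i hi
    have := hD i hi
    rw [rho_dot] at this
    constructor <;> linarith

theorem nrm_nonneg {d : ℕ} (v : Fin d → ℝ) : 0 ≤ nrm v := Real.sqrt_nonneg _

theorem abs_dot_le_nrm {d : ℕ} (v w : Fin d → ℝ) : |v ⬝ᵥ w| ≤ nrm v * nrm w := by
  have hn : ∀ u : Fin d → ℝ, nrm u ^ 2 = u ⬝ᵥ u := fun u => by
    unfold nrm
    apply Real.sq_sqrt
    simp only [dotProduct]
    exact Finset.sum_nonneg fun j _ => mul_self_nonneg _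
  have h : (v ⬝ᵥ w) ^ 2 ≤ (v ⬝ᵥ v) * (w ⬝ᵥ w) := by
    have := Finset.sum_mul_sq_le_sq_mul_sq Finset.univ v w
    simpa [dotProduct, pow_two] using this
  rw [← hn, ← hn, ← mul_pow] at h
  exact abs_le_of_sq_le_sq h (mul_nonneg (nrm_nonneg v) (nrm_nonneg w))

theorem nrm_le_of_abs_le {d : ℕ} (v : Fin d → ℝ) {B : ℝ} (hB : 0 ≤ B) (h : ∀ j, |v j| ≤ B) :
    nrm v ≤ d * B := by
  unfold nrm
  rw [Real.sqrt_le_left (by positivity)]
  have h1 : v ⬝ᵥ v ≤ ∑ _j : Fin d, B * B := by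
    simp only [dotProduct]
    refine Finset.sum_le_sum fun j _ => ?_
    rw [← abs_mul_abs_self]
    exact mul_le_mul (h j) (h j) (abs_nonneg _) hB
  refine h1.trans ?_
  rw [Finset.sum_const, Finset.card_univ, Fintype.card_fin, nsmul_eq_mul]
  rcases Nat.eq_zero_or_pos d with hd | hd
  · subst hd
    simp
  · have : (1 : ℝ) ≤ d := by exact_mod_cast hd
    have h2 : 0 ≤ B * B := mul_nonneg hB hB
    nlinarith

/-- The rows in the box. -/
theorem abs_rho_le {Abar : Fin m → Fin n → ℝ} {bbar : Fin m → ℝ} {cc : Co m n → ℝ} {ω : Om m n}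
    {B : ℝ} (hB : 1 ≤ B) (hA : ∑ i, ∑ j, Abar i j ^ 2 ≤ 1) (hb : ∑ i, bbar i ^ 2 ≤ 1)
    (h : ∀ r j, |ω (.row r j) - ctr Abar bbar cc (.row r j)| ≤ B) (r : Row m)
    (j : Fin (n + 1)) : |rho ω r j| ≤ B + 1 := by
  cases r with
  | none =>
    change |(Pi.single 0 1 : Fin (n + 1) → ℝ) j| ≤ B + 1
    rw [Pi.single_apply]
    split_ifs
    · rw [abs_one]
      linarith
    · rw [abs_zero]
      linarith
  | some r =>
    change |ω (.row r j)| ≤ B + 1
    have hc : |ctr Abar bbar cc (.row r j)| ≤ 1 := by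
      change |(Fin.cons (bbar r) (fun j => -Abar r j) : Fin (n + 1) → ℝ) j| ≤ 1
      refine Fin.cases ?_ (fun j => ?_) j
      · rw [Fin.cons_zero]
        have h1 : bbar r ^ 2 ≤ 1 :=
          (Finset.single_le_sum (f := fun i => bbar i ^ 2) (fun i _ => sq_nonneg _)
            (Finset.mem_univ r)).trans hb
        rw [abs_le_one_iff_mul_self_le_one]
        nlinarith
      · rw [Fin.cons_succ, abs_neg]
        have h2 : Abar r j ^ 2 ≤ 1 := by
          refine le_trans ?_ hA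
          refine le_trans ?_ (Finset.single_le_sum (f := fun i => ∑ j, Abar i j ^ 2)
            (fun i _ => Finset.sum_nonneg fun j _ => sq_nonneg _) (Finset.mem_univ r))
          exact Finset.single_le_sum (f := fun j => Abar r j ^ 2) (fun i _ => sq_nonneg _)
            (Finset.mem_univ j)
        rw [abs_le_one_iff_mul_self_le_one]
        nlinarith
    have h3 := abs_sub_abs_le_abs_sub (ω (.row r j)) (ctr Abar bbar cc (.row r j))
    have h4 := h r j
    linarith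

/-- The chart functional in the box. -/
theorem abs_Nf_le {ω : Om m n} {B : ℝ} (hρ : ∀ r j, |rho ω r j| ≤ B)
    (hη : ∀ r, |ω (.eta r)| ≤ 2) (j : Fin (n + 1)) : |Nf ω j| ≤ 2 * (m + 1) * B := by
  unfold Nf
  rw [Finset.sum_apply]
  refine (Finset.abs_sum_le_sum_abs _ _).trans ?_
  have h1 : ∀ r ∈ (Finset.univ : Finset (Row m)), |(ω (.eta r) • rho ω r) j| ≤ 2 * B := by
    intro r _
    rw [Pi.smul_apply, smul_eq_mul, abs_mul]
    exact mul_le_mul (hη r) (hρ r j) (abs_nonneg _) (by norm_num)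
  refine (Finset.sum_le_card_nsmul _ _ _ h1).trans ?_
  rw [nsmul_eq_mul, Finset.card_univ, Fintype.card_option, Fintype.card_fin]
  push_cast
  apply le_of_eq
  ring

/-- The near tight count in chart slacks. -/
theorem near_of_not_bad {ω : Om m n} {B s : ℝ} (hB : 0 ≤ B) (hs : 0 ≤ s) {k : ℕ}
    (hρ : ∀ r j, |rho ω r j| ≤ B) (hη : ∀ r, |ω (.eta r)| ≤ 2)
    (hbad : ω ∉ NearBad m n k (s * ((n + 1) * (2 * (m + 1) * B))))
    {u : Fin (n + 1) → ℝ} (hN : Nf ω ⬝ᵥ u = 1) (hu : ∀ r, 0 ≤ rho ω r ⬝ᵥ u)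
    (T : Finset (Row m)) (hT : n ≤ T.card) (hTu : ∀ r ∈ T, rho ω r ⬝ᵥ u = 0)
    (D : Finset (Fin m)) (hD : ∀ i ∈ D, 0 < rho ω (some i) ⬝ᵥ u ∧ rho ω (some i) ⬝ᵥ u ≤ s) :
    D.card < k := by
  by_contra hcon
  rw [not_lt] at hcon
  obtain ⟨D', hD', hD'k⟩ := Finset.exists_subset_card_eq hcon
  apply hbad
  refine ⟨u, ?_, hu, ⟨T, hT, hTu⟩, D', hD'k, fun i hi => ⟨(hD i (hD' hi)).1, ?_⟩⟩
  · rintro rfl
    rw [dotProduct_zero] at hN
    exact zero_ne_one hN
  · refine (hD i (hD' hi)).2.trans ?_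
    have h1 : nrm (Nf ω) ≤ (n + 1) * (2 * (m + 1) * B) := by
      have := nrm_le_of_abs_le (Nf ω) (by positivity) (abs_Nf_le hρ hη)
      push_cast at this
      exact this
    have h2 : 1 ≤ nrm (Nf ω) * nrm u := by
      have := abs_dot_le_nrm (Nf ω) u
      rwa [hN, abs_one] at this
    have h3 : nrm (Nf ω) * nrm u ≤ ((n + 1) * (2 * (m + 1) * B)) * nrm u :=
      mul_le_mul_of_nonneg_right h1 (nrm_nonneg u)
    calc s = s * 1 := (mul_one s).symm
      _ ≤ s * (((n + 1) * (2 * (m + 1) * B)) * nrm u) :=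
          mul_le_mul_of_nonneg_left (h2.trans h3) hs
      _ = s * ((n + 1) * (2 * (m + 1) * B)) * nrm u := by ring

end Pool.Agent.Lib.S3.PL
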