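import Pool.Agent.Lib.S3.Fat.Prob
import Pool.Agent.Lib.S3.Fat.Near
import Pool.Agent.Lib.S3.PL.Hub

/-!
# Fat / Bad: the bad event of the fat case

`FatBad`: the union of the five bad events (sizes, near tight rows, determinants, hub, pairs `Ep`);
`fat_prob`: `MM ^ (log₂ n + 5) * law (FatBad) ≤ law feaO`; `good_of_notMem`: what holds outside.
-/

set_option autoImplicit false

open MeasureTheory ProbabilityTheory
open scoped ENNReal NNReal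

namespace Pool.Agent.Lib.S3.PL

variable {m n : ℕ}

/-- The near tight threshold of `NearBad`, for the slack threshold `MM ^ (-a)` in the chart. -/
noncomputable def etaA (m n : ℕ) (σ : ℝ) (a : ℕ) : ℝ :=
  ((MM m n σ : ℝ) ^ a)⁻¹ * ((n + 1) * (2 * (m + 1) * ((MM m n σ : ℝ) ^ 3 + 1)))

/-- The bad event of the fat case; `Ep` is the bad event of the pairs. -/
def FatBad (Abar : Fin m → Fin n → ℝ) (bbar : Fin m → ℝ) (σ Th : ℝ) (k₂ a k₁ t : ℕ)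
    (Ep : Set (Om m n)) : Fin 5 → Set (Om m n) :=
  ![{ω | ∃ c, Rb1 m n σ c ≤ |ω c - ctr Abar bbar (cc1 m n) c|},
    NearBad m n k₂ (etaA m n σ a),
    DetBad ((1 / (MM m n σ : ℝ)) ^ (9 * n + 8)),
    EvHub Th ((MM m n σ : ℝ) ^ t)⁻¹ k₁ ∩ feaO,
    Ep]

/-- **The probability of the bad event of the fat case.** -/
theorem fat_prob (hn : 8 ≤ n) (hmn : n + 1 ≤ m) (Abar : Fin m → Fin n → ℝ) (bbar : Fin m → ℝ)
    {σ : ℝ} (hσ : 0 < σ) (hσ1 : σ ≤ 1) (hA : ∑ i, ∑ j, Abar i j ^ 2 ≤ 1)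
    (hb : ∑ i, bbar i ^ 2 ≤ 1) (Th : ℝ) (k₂ a k₁ t : ℕ)
    (ha : 3 * n + 1 + 10 * k₂ ≤ a * k₂) (ht : 2 * n + 5 * k₁ ≤ t * k₁) (Ep : Set (Om m n))
    (hEp : law1 Abar bbar σ Ep ≤ ENNReal.ofReal ((1 / (MM m n σ : ℝ)) ^ (2 * n)) *
      law1 Abar bbar σ (feaO : Set (Om m n))) :
    ((MM m n σ : ℕ) : ℝ≥0∞) ^ (Nat.log 2 n + 5) *
        law1 Abar bbar σ (⋃ i, FatBad Abar bbar σ Th k₂ a k₁ t Ep i) ≤
      law1 Abar bbar σ (feaO : Set (Om m n)) := by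
  have hM : 8 ≤ MM m n σ := by unfold MM; omega
  have hnM : n ≤ MM m n σ := by unfold MM; omega
  have hmM : m ≤ MM m n σ := by unfold MM; omega
  have hnM1 : n + 1 ≤ MM m n σ := by unfold MM; omega
  have hmM1 : m + 1 ≤ MM m n σ := by unfold MM; omega
  refine bad_union _ _ hM hn _ ?_
  intro i
  fin_cases i
  · refine (sizes_law (by omega) (by omega) Abar bbar hσ hσ1 hb).trans ?_
    exact mul_le_mul_left (ENNReal.ofReal_le_ofReal (exp_le_pow hM hnM)) _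
  · have h1 : 0 ≤ etaA m n σ a := by unfold etaA; positivity
    refine (nearBad_law (by omega) Abar bbar hσ hA hb (cc1 m n) (vv1 m n σ) k₂ h1).trans ?_
    exact mul_le_mul_left (near_pow hM hmM1 hnM1 ha) _
  · have h1 := det_law (by omega) hmn Abar bbar hσ hA hb (cc1 m n) (vv1 m n σ) (2 * n)
    have h2 : 5 * n + 2 * (2 * n) + 8 = 9 * n + 8 := by ring
    rw [h2] at h1
    exact h1
  · have h1 : vv1 m n σ = fun _ => ((MM m n σ : ℕ) : ℝ≥0)⁻¹ ^ 6 := rfl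
    have h2 : ((MM m n σ : ℕ) : ℝ≥0)⁻¹ ^ 6 ≠ 0 := by
      have : ((MM m n σ : ℕ) : ℝ≥0) ≠ 0 := by
        have : MM m n σ ≠ 0 := by omega
        exact_mod_cast this
      exact pow_ne_zero _ (inv_ne_zero this)
    refine (law_hub Abar bbar σ (cc1 m n) (vv1 m n σ) Th ((MM m n σ : ℝ) ^ t)⁻¹ (by positivity) k₁
      (((MM m n σ : ℕ) : ℝ≥0)⁻¹ ^ 6) h2 (fun _ => rfl)).trans ?_
    exact mul_le_mul_left (hub_pow hM hmM ht) _
  · exact hEp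

/-- The facts outside the bad event of the fat case, at a feasible `ω`. -/
theorem good_of_notMem {Abar : Fin m → Fin n → ℝ} {bbar : Fin m → ℝ} {σ Th : ℝ} {k₂ a k₁ t : ℕ}
    {Ep : Set (Om m n)} {ω : Om m n} (h : ω ∉ ⋃ i, FatBad Abar bbar σ Th k₂ a k₁ t Ep i)
    (hf : ω ∈ (feaO : Set (Om m n))) :
    (∀ c, |ω c - ctr Abar bbar (cc1 m n) c| < Rb1 m n σ c) ∧
    ω ∉ NearBad m n k₂ (etaA m n σ a) ∧
    ω ∉ (DetBad ((1 / (MM m n σ : ℝ)) ^ (9 * n + 8)) : Set (Om m n)) ∧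
    ω ∉ (EvHub Th ((MM m n σ : ℝ) ^ t)⁻¹ k₁ : Set (Om m n)) ∧
    ω ∉ Ep := by
  have h' : ∀ i, ω ∉ FatBad Abar bbar σ Th k₂ a k₁ t Ep i := fun i hi =>
    h (Set.mem_iUnion.2 ⟨i, hi⟩)
  refine ⟨fun c => ?_, h' 1, h' 2, fun h3 => h' 3 ⟨h3, hf⟩, h' 4⟩
  by_contra hcon
  exact h' 0 ⟨c, not_lt.1 hcon⟩

end Pool.Agent.Lib.S3.PL
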