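import Pool.Agent.Lib.S3.PL.FatPoint
import Pool.Agent.Lib.S3.Geo.ChartN

/-!
# The deep point of the chart (smoothed Hirsch, MP_4a5c02_co)

`deep_point`: if the rows of `ω` are not thin with margin `MM ^ (-30)` and the coordinates of `ω` are
in the box (rows at most `MM ^ 4`, chart coins in `[1/2, 2]`), then the chart contains a point at
which all rows, including the facet at infinity, have slack at least `MM ^ (-43)`.
-/

set_option autoImplicit false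

open MeasureTheory Matrix

namespace Pool.Agent.Lib.S3.PL

open Pool.Agent.Lib.SHirsch.Thin
open Pool.Agent.Lib.SHirsch (Gr)

variable {m n : ℕ}

/-- The chart functional in the form of `Geo.ChartN`. -/
private theorem Nf_eq_chN (ω : Om m n) : Nf ω = Geo.chN (Am ω) (bm ω) (fun o => ω (.eta o)) := by
  unfold Nf Geo.chN
  rw [← Finset.sum_neg_distrib]
  refine Finset.sum_congr rfl fun r _ => ?_
  rw [rho_eq_neg_Gr, smul_neg]

/-- The deep point. -/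
theorem deep_point {ω : Om m n} {σ : ℝ} (hn : 1 ≤ n) (hm : 1 ≤ m) (hσ : 0 < σ)
    (hrow : ∀ r j, |ω (.row r j)| ≤ (MM m n σ : ℝ) ^ 4)
    (heta : ∀ r, 1 / 2 ≤ ω (.eta r) ∧ ω (.eta r) ≤ 2)
    (h : ¬ ThinOn ((((MM m n σ : ℕ) : ℝ) ^ 30)⁻¹) Finset.univ (rw' (Am ω) (bm ω))) :
    ∃ X : Fin (n + 1) → ℝ,
      X ∈ Geo.Chart (Am ω) (bm ω) (Geo.chN (Am ω) (bm ω) (fun o => ω (.eta o))) ∧
      Nf ω ⬝ᵥ X = 1 ∧
      (∀ r : Row m, ((MM m n σ : ℝ) ^ 43)⁻¹ ≤ rho ω r ⬝ᵥ X) ∧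
      ∀ o : Option (Fin m), ((MM m n σ : ℝ) ^ 43)⁻¹ ≤ -(Gr (Am ω) (bm ω) o ⬝ᵥ X) := by
  set M : ℝ := (MM m n σ : ℝ) with hM
  have hM5 : (5 : ℝ) ≤ M := by
    rw [hM]
    have : 5 ≤ MM m n σ := by
      have h0 : 0 < ⌈1 / σ⌉₊ := Nat.ceil_pos.2 (by positivity)
      unfold MM
      omega
    exact_mod_cast this
  have hM0 : 0 < M := by linarith
  have hmM : (m : ℝ) ≤ M := by
    rw [hM]
    have : m ≤ MM m n σ := by unfold MM; omega
    exact_mod_cast this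
  have hnM : ((n : ℝ) + 1) ≤ M := by
    rw [hM]
    have : n + 1 ≤ MM m n σ := by unfold MM; omega
    exact_mod_cast this
  obtain ⟨X, hX1, hX2⟩ := fat_point (ρ := (M ^ 30)⁻¹) (W := M ^ 4) (by positivity)
    (inv_le_one_of_one_le₀ (one_le_pow₀ (by linarith))) (by positivity) hrow heta h
  have hlow : (M ^ 43)⁻¹ ≤ (M ^ 30)⁻¹ / (8 * (M ^ 4 + 1) * (m * (n + 1) * M ^ 4 + 1)) := by
    have h1 : M ^ 4 + 1 ≤ 2 * M ^ 4 := by
      have : 1 ≤ M ^ 4 := one_le_pow₀ (by linarith)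
      linarith
    have h2 : (m : ℝ) * (n + 1) * M ^ 4 + 1 ≤ 2 * M ^ 6 := by
      have h3 : (m : ℝ) * (n + 1) * M ^ 4 ≤ M * M * M ^ 4 := by gcongr
      have h4 : 1 ≤ M ^ 6 := one_le_pow₀ (by linarith)
      nlinarith
    have h5 : 8 * (M ^ 4 + 1) * (m * (n + 1) * M ^ 4 + 1) ≤ M ^ 13 := by
      calc 8 * (M ^ 4 + 1) * (m * (n + 1) * M ^ 4 + 1) ≤ 8 * (2 * M ^ 4) * (2 * M ^ 6) := by
            gcongr
        _ = 32 * M ^ 10 := by ring
        _ ≤ M ^ 3 * M ^ 10 := by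
            have : (32 : ℝ) ≤ M ^ 3 := by
              have := pow_le_pow_left₀ (by norm_num : (0 : ℝ) ≤ 5) hM5 3
              norm_num at this
              linarith
            gcongr
        _ = M ^ 13 := by ring
    rw [le_div_iff₀ (by positivity)]
    calc (M ^ 43)⁻¹ * (8 * (M ^ 4 + 1) * (m * (n + 1) * M ^ 4 + 1)) ≤ (M ^ 43)⁻¹ * M ^ 13 := by
          gcongr
      _ = (M ^ 30)⁻¹ := by field_simp
  have hrho : ∀ r : Row m, (M ^ 43)⁻¹ ≤ rho ω r ⬝ᵥ X := fun r => hlow.trans (hX2 r)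
  have hgr : ∀ o : Option (Fin m), (M ^ 43)⁻¹ ≤ -(Gr (Am ω) (bm ω) o ⬝ᵥ X) := fun o => by
    rw [← rho_dot]
    exact hrho o
  refine ⟨X, ⟨?_, ?_⟩, hX1, hrho, hgr⟩
  · intro i hi
    rw [Finset.mem_singleton] at hi
    subst hi
    change Geo.chN (Am ω) (bm ω) (fun o => ω (.eta o)) ⬝ᵥ X = 1
    rw [← Nf_eq_chN]
    exact hX1
  · intro i hi
    match i with
    | none => simp [Geo.chS] at hi
    | some o =>
      change Gr (Am ω) (bm ω) o ⬝ᵥ X ≤ 0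
      have h1 := hgr o
      have h2 : 0 < (M ^ 43)⁻¹ := by positivity
      linarith

end Pool.Agent.Lib.S3.PL
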