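import Pool.Agent.Lib.S3.PL.Law
import Pool.Agent.Lib.S3.DetGood

/-!
# Fat / Det: the determinant `det (N, ρ_I)` at the vertices, on `Om m n`

`det_law`: relative to feasibility, `|det (N, ρ_e)| > w₀ M^-(5n+2h+8)` at every vertex of the
polyhedron (a point `y` of the cone with `y 0 > 0` and `n` tight rows `e`) up to `M^-h`, whenever
all coins `eta` are `≥ w₀`.
-/

set_option autoImplicit false

open MeasureTheory ProbabilityTheory
open scoped ENNReal NNReal

namespace Pool.Agent.Lib.S3.PL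

open Pool.Agent.Lib.SHirsch
open Pool.Agent.Lib.S3 (MM)

variable {m n : ℕ}

/-- The chart functional is the chart row of `Geo.chN`. -/
private theorem Nf_eq_chN (ω : Om m n) :
    Nf ω = Geo.chN (Am ω) (bm ω) (fun r => ω (.eta r)) := by
  unfold Nf Geo.chN
  rw [← Finset.sum_neg_distrib]
  refine Finset.sum_congr rfl fun r _ => ?_
  rw [rho_eq_neg_Gr, smul_neg]

/-- The determinants of `amat` and of the rows `Gr`. -/
theorem abs_det_amat (ω : Om m n) (e : Fin n → Row m) :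
    |(amat (Nf ω) (rho ω) e).det| =
      |(Matrix.of (Fin.cons (Geo.chN (Am ω) (bm ω) (fun r => ω (.eta r)))
        (fun k => Gr (Am ω) (bm ω) (e k)) : Fin (n + 1) → Fin (n + 1) → ℝ)).det| := by
  have h1 : amat (Nf ω) (rho ω) e =
      Matrix.of (fun i j => (Fin.cons 1 (fun _ => -1) : Fin (n + 1) → ℝ) i *
        (Matrix.of (Fin.cons (Geo.chN (Am ω) (bm ω) (fun r => ω (.eta r)))
        (fun k => Gr (Am ω) (bm ω) (e k)) : Fin (n + 1) → Fin (n + 1) → ℝ)) i j) := by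
    ext i j
    refine Fin.cases ?_ (fun k => ?_) i
    · rw [Nf_eq_chN]
      simp [amat]
    · simp only [amat, Matrix.of_apply, Fin.cons_succ]
      rw [rho_eq_neg_Gr]
      simp
  rw [h1, Matrix.det_mul_column, abs_mul, Fin.prod_univ_succ]
  simp [Finset.prod_const, abs_pow]

/-- The event that the determinant is small at some vertex, for coins `≥ w₀`. -/
def DetBad (t : ℝ) : Set (Om m n) :=
  {ω | ∃ y : Fin (n + 1) → ℝ, 0 < y 0 ∧ (∀ r, 0 ≤ rho ω r ⬝ᵥ y) ∧
    ∃ e : Fin n → Row m, Function.Injective e ∧ (∀ k, rho ω (e k) ⬝ᵥ y = 0) ∧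
    ∃ w0 : ℝ, 0 < w0 ∧ (∀ r, w0 ≤ ω (.eta r)) ∧
      |(amat (Nf ω) (rho ω) e).det| ≤ w0 * t}

/-- **The determinant event.** -/
theorem det_law (hn : 1 ≤ n) (hmn : n + 1 ≤ m) (Abar : Fin m → Fin n → ℝ)
    (bbar : Fin m → ℝ) {σ : ℝ} (hσ : 0 < σ) (hA : ∑ i, ∑ j, Abar i j ^ 2 ≤ 1)
    (hb : ∑ i, bbar i ^ 2 ≤ 1) (cc : Co m n → ℝ) (vv : Co m n → ℝ≥0) (h : ℕ) :
    law Abar bbar σ cc vv
        (DetBad ((1 / (MM m n σ : ℝ)) ^ (5 * n + 2 * h + 8)) : Set (Om m n)) ≤
      ENNReal.ofReal ((1 / (MM m n σ : ℝ)) ^ h) *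
        law Abar bbar σ cc vv (feaO : Set (Om m n)) := by
  rw [law_feaO]
  refine le_trans ?_ (DetRel.det_good_pow hn hmn Abar bbar hσ hA hb h)
  refine le_trans (measure_mono ?_) (law_le_noise Abar bbar σ cc vv _)
  rintro ω ⟨y, hy0, hyc, e, he, hyt, w0, hw0, hw, hdet⟩
  refine ⟨y, hy0, ?_, e, he, ?_, w0, fun r => ω (.eta r), hw0, hw, ?_⟩
  · intro o
    have e1 : (fun i j => Abar i j + (toNoise Abar bbar ω).1 i j) = Am ω :=
      add_toNoise_fst Abar bbar ω
    have e2 : (fun i => bbar i + (toNoise Abar bbar ω).2 i) = bm ω :=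
      add_toNoise_snd Abar bbar ω
    rw [e1, e2]
    have := hyc o
    rw [rho_dot] at this
    linarith
  · intro k
    have e1 : (fun i j => Abar i j + (toNoise Abar bbar ω).1 i j) = Am ω :=
      add_toNoise_fst Abar bbar ω
    have e2 : (fun i => bbar i + (toNoise Abar bbar ω).2 i) = bm ω :=
      add_toNoise_snd Abar bbar ω
    rw [e1, e2]
    have := hyt k
    rw [rho_dot] at this
    linarith
  · have e1 : (fun i j => Abar i j + (toNoise Abar bbar ω).1 i j) = Am ω :=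
      add_toNoise_fst Abar bbar ω
    have e2 : (fun i => bbar i + (toNoise Abar bbar ω).2 i) = bm ω :=
      add_toNoise_snd Abar bbar ω
    rw [e1, e2, ← abs_det_amat]
    exact hdet

/-- The conclusion at one `ω`. -/
theorem det_of_notMem {t : ℝ} {ω : Om m n} (hω : ω ∉ (DetBad t : Set (Om m n)))
    (hη : ∀ r, 1 ≤ ω (.eta r)) {y : Fin (n + 1) → ℝ} (hy0 : 0 < y 0)
    (hy : ∀ r, 0 ≤ rho ω r ⬝ᵥ y) {e : Fin n → Row m} (he : Function.Injective e)
    (ht : ∀ k, rho ω (e k) ⬝ᵥ y = 0) : t < |(amat (Nf ω) (rho ω) e).det| := by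
  by_contra hcon
  rw [not_lt] at hcon
  exact hω ⟨y, hy0, hy, e, he, ht, 1, one_pos, hη, by rwa [one_mul]⟩

end Pool.Agent.Lib.S3.PL
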