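import Pool.Agent.Lib.S3.Hop.HubChart

/-!
# FatDet: the diameter of a good fat polyhedron, from the pair lemma

`fat_dm`: the deterministic part of the FAT theorem in chart language. The pair lemma (`hPL`), the
determinant bound (`hdet`), the near tight count (`hnear`), a deep point (`hX`) and the light
multiplier count of the hub functional (`hlight`) give a bound of the diameter.
-/

set_option autoImplicit false

namespace Pool.Agent.Lib.S3.Hop

open Pool.Agent.Lib.S3 Pool.Agent.Lib.S3.Geo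
open Pool.Agent.Lib.SHirsch (Gr GPos)

variable {m n : ℕ}

/-- The functional with coefficients `g` in the slacks. -/
noncomputable def gv (a : Fin m → Fin n → ℝ) (b : Fin m → ℝ) (g : Option (Fin m) → ℝ) :
    Fin (n + 1) → ℝ := -∑ o, g o • Gr a b o

theorem gv_dot (a : Fin m → Fin n → ℝ) (b : Fin m → ℝ) (g : Option (Fin m) → ℝ)
    (y : Fin (n + 1) → ℝ) : gv a b g ⬝ᵥ y = ∑ o, g o * slk a b o y := by
  unfold gv
  rw [neg_dotProduct, sum_dotProduct, ← Finset.sum_neg_distrib]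
  refine Finset.sum_congr rfl fun o _ => ?_
  rw [smul_dotProduct, smul_eq_mul, slk_apply]
  ring

/-- `(1 - θ)^t ≤ 1 / (t θ)`. -/
theorem pow_one_sub_le {θ : ℝ} (hθ0 : 0 < θ) (hθ1 : θ ≤ 1) {t : ℕ} {Γ s : ℝ}
    (hs : 0 < s) (ht : Γ / (s * θ) ≤ t) : (1 - θ) ^ t * Γ ≤ s := by
  have h1 : (1 - θ) ^ t * (1 + t * θ) ≤ 1 := by
    have h2 : 1 + (t : ℝ) * θ ≤ (1 + θ) ^ t :=
      one_add_mul_le_pow (by linarith) t
    calc (1 - θ) ^ t * (1 + t * θ) ≤ (1 - θ) ^ t * (1 + θ) ^ t :=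
          mul_le_mul_of_nonneg_left h2 (pow_nonneg (by linarith) _)
      _ = ((1 - θ) * (1 + θ)) ^ t := (mul_pow _ _ _).symm
      _ ≤ 1 := pow_le_one₀ (mul_nonneg (by linarith) (by linarith)) (by nlinarith)
  have h3 : Γ ≤ t * (s * θ) := by
    rwa [div_le_iff₀ (mul_pos hs hθ0)] at ht
  have h4 : 0 ≤ (1 - θ) ^ t := pow_nonneg (by linarith) _
  calc (1 - θ) ^ t * Γ ≤ (1 - θ) ^ t * (t * (s * θ)) := mul_le_mul_of_nonneg_left h3 h4
    _ = s * ((1 - θ) ^ t * (t * θ)) := by ring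
    _ ≤ s * ((1 - θ) ^ t * (1 + t * θ)) := by
        apply mul_le_mul_of_nonneg_left _ hs.le
        apply mul_le_mul_of_nonneg_left _ h4
        linarith
    _ ≤ s * 1 := mul_le_mul_of_nonneg_left h1 hs.le
    _ = s := mul_one s

/-- The sum of the slacks of a chart point. -/
theorem sum_slk_le {a : Fin m → Fin n → ℝ} {b : Fin m → ℝ} {w : Option (Fin m) → ℝ}
    (hw : ∀ o, 1 / 2 ≤ w o) {y : Fin (n + 1) → ℝ} (hy : y ∈ Chart a b (chN a b w))
    (I : Finset (Option (Fin m))) : ∑ o ∈ I, slk a b o y ≤ 2 := by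
  have hmem := (mem_hat_iff a b (chN a b w) y).2 hy
  have h1 : ∑ o, w o * slk a b o y = 1 := by
    have h2 : chN a b w ⬝ᵥ y = 1 := hmem.1
    rw [chN_dot] at h2
    rw [← h2]
    refine Finset.sum_congr rfl fun o _ => ?_
    rw [slk_apply]
  have h3 : ∀ o, 0 ≤ slk a b o y := hmem.2
  have h4 : ∑ o ∈ I, slk a b o y ≤ ∑ o, slk a b o y :=
    Finset.sum_le_univ_sum_of_nonneg h3
  have h5 : ∑ o, slk a b o y ≤ ∑ o, 2 * (w o * slk a b o y) := by
    apply Finset.sum_le_sum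
    intro o _
    have := h3 o
    nlinarith [hw o]
  rw [← Finset.mul_sum, h1] at h5
  linarith

open Classical in
/-- The number of rows which are tight at `h` with multiplier less than `τ` in `g`. -/
def LightLe (a : Fin m → Fin n → ℝ) (b : Fin m → ℝ) (N v : Fin (n + 1) → ℝ) (τ : ℝ) (k₁ : ℕ) :
    Prop :=
  ∀ h : Fin (n + 1) → ℝ, Vert (chA a b N) (chB m) {none} (chS m) h →
    (∀ y ∈ Chart a b N, v ⬝ᵥ h ≤ v ⬝ᵥ y) →
    ∀ (lam : Option (Fin m) → ℝ) (γ : ℝ), (∀ o ∈ tig (slk a b) h, 0 ≤ lam o) →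
      (∀ y, v ⬝ᵥ y = γ * (N ⬝ᵥ y) + ∑ o ∈ tig (slk a b) h, lam o * slk a b o y) →
      ((tig (slk a b) h).filter (fun o => lam o < τ)).card ≤ k₁

/-- **The deterministic FAT theorem.** -/
theorem fat_reach {a : Fin m → Fin n → ℝ} {b : Fin m → ℝ} (hnm : n ≤ m)
    {w : Option (Fin m) → ℝ} (hw : ∀ o, 1 / 2 ≤ w o)
    (hG : GP (chA a b (chN a b w)) (chB m) {none})
    (Mb ε c γ τ Θ : ℝ) (wd k₁ k₂ κ L t : ℕ) (hMb : 0 ≤ Mb)
    (hρ : ∀ o j, |Gr a b o j| ≤ Mb) (hN : ∀ j, |chN a b w j| ≤ Mb)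
    (hε0 : 0 < ε) (hε1 : ε ≤ 1) (hc0 : 0 < c) (hc1 : c ≤ 1) (hγ : 0 < γ) (hτ : 0 < τ)
    (hdet : ∀ u, Vert (chA a b (chN a b w)) (chB m) {none} (chS m) u → 0 < u 0 →
      ∀ J : Fin n → Option (Fin m), Function.Injective J →
      (∀ o, o ∈ tig (slk a b) u ↔ ∃ k, J k = o) →
      ((n + 1).factorial : ℝ) * Mb ^ (n + 1) * ε ^ (wd + 1) <
        |(Matrix.of (Fin.cons (chN a b w) (fun k => -(Gr a b (J k))) :
          Fin (n + 1) → Fin (n + 1) → ℝ)).det|)
    (hnear : ∀ u, Vert (chA a b (chN a b w)) (chB m) {none} (chS m) u → 0 < u 0 →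
      (nearC a b c u).card ≤ k₂)
    (X : Fin (n + 1) → ℝ) (hX : X ∈ Chart a b (chN a b w)) (hX0 : γ ≤ X 0)
    (g : Option (Fin m) → ℝ) (hg0 : ∀ i, 0 ≤ g (some i)) (hg1 : ∀ i, g (some i) ≤ 2)
    (hgn : g none ≤ -Θ) (hgn' : -(2 * Θ) ≤ g none) (hΘ : 20 < Θ * γ * (c * ε))
    (hlight : LightLe a b (chN a b w) (gv a b g) τ k₁)
    (hκ : wd + k₂ + 2 ≤ κ) (hκ' : k₁ + k₂ ≤ κ)
    (hPL : ∀ u u', Vert (chA a b (chN a b w)) (chB m) {none} (chS m) u →
      Vert (chA a b (chN a b w)) (chB m) {none} (chS m) u' → 0 < u 0 → 0 < u' 0 →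
      n ≤ (tig (slk a b) u ∩ tig (slk a b) u').card + κ →
      Reach (chA a b (chN a b w)) (chB m) {none} (chS m) L u u')
    (ht : (4 + 4 * Θ) * 5 / (τ * c * (c * ε)) ≤ t)
    (u : Fin (n + 1) → ℝ) (hu : Vert (chA a b (chN a b w)) (chB m) {none} (chS m) u)
    (hu0 : 0 < u 0) (u' : Fin (n + 1) → ℝ)
    (hu' : Vert (chA a b (chN a b w)) (chB m) {none} (chS m) u') (hu'0 : 0 < u' 0) :
    Reach (chA a b (chN a b w)) (chB m) {none} (chS m) ((t + 1) * L + (t + 1) * L) u u' := by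
  classical
  set N := chN a b w with hNdef
  have hw0 : ∀ o, 0 < w o := fun o => lt_of_lt_of_le (by norm_num) (hw o)
  have hbd : Bornology.IsBounded (Chart a b N) := chart_bounded hnm hw0 hG
  have hne : (Chart a b N).Nonempty := ⟨X, hX⟩
  have hΘ0 : 0 < Θ := by
    by_contra hcon
    push Not at hcon
    have h1 : Θ * γ * (c * ε) ≤ 0 :=
      mul_nonpos_of_nonpos_of_nonneg (mul_nonpos_of_nonpos_of_nonneg hcon hγ.le)
        (mul_pos hc0 hε0).le
    linarith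
  -- values of the functional
  have hval : ∀ y, gv a b g ⬝ᵥ y = ∑ i : Fin m, g (some i) * slk a b (some i) y +
      g none * y 0 := by
    intro y
    rw [gv_dot, Fintype.sum_option, slk_apply a b none, gr_none, neg_neg]
    ring
  have hnn : ∀ y ∈ Chart a b N, ∀ o, 0 ≤ slk a b o y := fun y hy =>
    ((mem_hat_iff a b N y).2 hy).2
  have hsum : ∀ y ∈ Chart a b N, ∀ I : Finset (Option (Fin m)), ∑ o ∈ I, slk a b o y ≤ 2 :=
    fun y hy I => sum_slk_le hw hy I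
  have hy0 : ∀ y ∈ Chart a b N, 0 ≤ y 0 ∧ y 0 ≤ 2 := by
    intro y hy
    have h1 := hnn y hy none
    have h2 := hsum y hy {none}
    rw [Finset.sum_singleton] at h2
    rw [slk_apply, gr_none, neg_neg] at h1 h2
    exact ⟨h1, h2⟩
  have hpart : ∀ y ∈ Chart a b N, 0 ≤ ∑ i : Fin m, g (some i) * slk a b (some i) y ∧
      ∑ i : Fin m, g (some i) * slk a b (some i) y ≤ 4 := by
    intro y hy
    refine ⟨Finset.sum_nonneg fun i _ => mul_nonneg (hg0 i) (hnn y hy _), ?_⟩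
    have h1 : ∑ i : Fin m, g (some i) * slk a b (some i) y ≤
        ∑ i : Fin m, 2 * slk a b (some i) y :=
      Finset.sum_le_sum fun i _ => mul_le_mul_of_nonneg_right (hg1 i) (hnn y hy _)
    rw [← Finset.mul_sum] at h1
    have h2 := hsum y hy (Finset.univ.map ⟨some, Option.some_injective (Fin m)⟩)
    rw [Finset.sum_map] at h2
    have h3 : ∑ i : Fin m, slk a b (some i) y ≤ 2 := h2
    linarith
  have hGle : ∀ y ∈ Chart a b N, gv a b g ⬝ᵥ y ≤ 4 := by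
    intro y hy
    rw [hval]
    have h1 := (hpart y hy).2
    have h2 := mul_nonpos_of_nonpos_of_nonneg (show g none ≤ 0 by linarith) (hy0 y hy).1
    linarith
  have hGge : ∀ y ∈ Chart a b N, -(4 * Θ) ≤ gv a b g ⬝ᵥ y := by
    intro y hy
    rw [hval]
    have h1 := (hpart y hy).1
    have h2 : -(4 * Θ) ≤ g none * y 0 := by
      have h3 := hy0 y hy
      nlinarith
    linarith
  -- the minimiser
  obtain ⟨h, hh, hopt⟩ := exists_opt hG (T := {none}) (S := chS m) (Finset.Subset.refl _) hne hbd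
    (-(gv a b g))
  have hmin : ∀ y ∈ Chart a b N, gv a b g ⬝ᵥ h ≤ gv a b g ⬝ᵥ y := by
    intro y hy
    have h1 := hopt.2 y hy
    rw [neg_dotProduct, neg_dotProduct] at h1
    linarith
  have hhC : h ∈ Chart a b N := hh.1
  have hNh : N ⬝ᵥ h = 1 := ((mem_hat_iff a b N h).2 hhC).1
  -- multipliers
  obtain ⟨l, hl⟩ := exists_mult hG (I := tt (chA a b N) (chB m) ({none} ∪ chS m) h) hh.2
    (-(gv a b g))
  have hlnn := fun (i : Option (Option (Fin m))) hi hiT =>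
    mult_nonneg hG (Finset.Subset.refl _) hh hopt hl (i := i) hi hiT
  have htt : tt (chA a b N) (chB m) ({none} ∪ chS m) h =
      insert none ((tig (slk a b) h).map ⟨some, Option.some_injective _⟩) := by
    rw [univ_chS {none} (Finset.mem_singleton_self _), tt_eq a b hNh]
  have hlam : ∀ o ∈ tig (slk a b) h, 0 ≤ l (some o) := by
    intro o ho
    refine hlnn (some o) ?_ (by simp)
    rw [htt, Finset.mem_insert, Finset.mem_map]
    exact Or.inr ⟨o, ho, rfl⟩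
  have hid : ∀ y, gv a b g ⬝ᵥ y = -(l none) * (N ⬝ᵥ y) +
      ∑ o ∈ tig (slk a b) h, l (some o) * slk a b o y := by
    intro y
    unfold IsMult at hl
    have h1 : gv a b g ⬝ᵥ y = -((-(gv a b g)) ⬝ᵥ y) := by rw [neg_dotProduct, neg_neg]
    rw [h1, hl, htt, Finset.sum_insert (by simp), Finset.sum_map, add_dotProduct,
      sum_dotProduct, smul_dotProduct, smul_eq_mul, neg_add, ← Finset.sum_neg_distrib]
    congr 1
    · show -(l none * (N ⬝ᵥ y)) = _
      ring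
    · refine Finset.sum_congr rfl fun o _ => ?_
      rw [smul_dotProduct, smul_eq_mul, slk_apply]
      show -(l (some o) * (Gr a b o ⬝ᵥ y)) = _
      ring
  -- the step
  set θ : ℝ := c * ε / 5 with hθdef
  have hcε : 0 < c * ε := mul_pos hc0 hε0
  have hcε1 : c * ε ≤ 1 := mul_le_one₀ hc1 hε0.le hε1
  have hθ0 : 0 < θ := by rw [hθdef]; linarith
  have hθ1 : θ ≤ 1 := by rw [hθdef]; linarith
  have hθs : θ * (c + 2 * (1 / ε) * 2) ≤ c := by
    have h1 : θ * (c + 2 * (1 / ε) * 2) = c * (c * ε + 4) / 5 := by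
      rw [hθdef]
      field_simp
      ring
    rw [h1]
    nlinarith
  have hGX : (1 - θ) * 4 + θ * (gv a b g ⬝ᵥ X) < 0 := by
    have h1 : gv a b g ⬝ᵥ X ≤ 4 - Θ * γ := by
      rw [hval]
      have h2 := (hpart X hX).2
      have h3 : g none * X 0 ≤ -Θ * γ := by
        have h4 : g none * X 0 ≤ -Θ * X 0 :=
          mul_le_mul_of_nonneg_right hgn (hγ.le.trans hX0)
        have h5 : -Θ * X 0 ≤ -Θ * γ := by nlinarith
        linarith
      linarith
    have h2 : θ * (gv a b g ⬝ᵥ X) ≤ θ * (4 - Θ * γ) := mul_le_mul_of_nonneg_left h1 hθ0.le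
    have h3 : 4 < θ * (Θ * γ) := by
      rw [hθdef]
      have : c * ε / 5 * (Θ * γ) = (Θ * γ * (c * ε)) / 5 := by ring
      rw [this]
      linarith
    nlinarith
  have hstr : ∀ u, Vert (chA a b N) (chB m) {none} (chS m) u → 0 < u 0 →
      Str (slk a b) (dl N) (wd + k₂) c (1 / ε) u := by
    intro u hu hu0
    have hv := vtx_of_vert hG hu
    have hcard := hv.card
    obtain ⟨J, hJi, hJ⟩ : ∃ J : Fin n → Option (Fin m), Function.Injective J ∧
        ∀ o, o ∈ tig (slk a b) u ↔ ∃ k, J k = o := by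
      let e := (tig (slk a b) u).equivFinOfCardEq hcard
      refine ⟨fun k => (e.symm k : Option (Fin m)), fun i j hij => ?_, fun o => ⟨fun ho => ?_, ?_⟩⟩
      · exact e.symm.injective (Subtype.ext hij)
      · exact ⟨e ⟨o, ho⟩, by simp⟩
      · rintro ⟨k, rfl⟩
        exact (e.symm k).2
    exact str_of_det hu.1 J hJ hJi Mb ε c wd k₂ hMb hρ hN hε0 hε1 (hdet u hu hu0 J hJi hJ)
      (hnear u hu hu0)
  have hgo : ∀ y ∈ Chart a b N, y 0 = 0 → 0 ≤ gv a b g ⬝ᵥ y := by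
    intro y hy h0
    rw [hval, h0, mul_zero, add_zero]
    exact (hpart y hy).1
  have hΓ : ∀ y ∈ Chart a b N, gv a b g ⬝ᵥ y - gv a b g ⬝ᵥ h ≤ 4 + 4 * Θ := by
    intro y hy
    have h1 := hGle y hy
    have h2 := hGge h hhC
    linarith
  have hpow : (1 - θ) ^ t * (4 + 4 * Θ) ≤ τ * c := by
    refine pow_one_sub_le hθ0 hθ1 (mul_pos hτ hc0) ?_
    refine le_trans (le_of_eq ?_) ht
    rw [hθdef]
    field_simp
  have key : ∀ z, Vert (chA a b N) (chB m) {none} (chS m) z → 0 < z 0 →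
      Reach (chA a b N) (chB m) {none} (chS m) ((t + 1) * L) z h := by
    intro z hz hz0
    exact hub_chart hG hbd (wd + k₂) k₁ k₂ c (1 / ε) 2 θ τ (by positivity) (gv a b g) hstr hnear
      h X hh hmin hX (hsum h hhC) hθ0.le hθ1 hθs 4 hGle (by norm_num) hGX hgo (fun o => l (some o))
      (-(l none)) hlam hid hτ (by
        have := hlight h hh hmin (fun o => l (some o)) (-(l none)) hlam hid
        convert this) L κ hκ hκ' hPL t (4 + 4 * Θ) hΓ hpow z hz hz0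
  exact reach_trans (key u hu hu0) (reach_symm (key u' hu' hu'0))

/-- **The deterministic FAT theorem, diameter form.** -/
theorem fat_dm {a : Fin m → Fin n → ℝ} {b : Fin m → ℝ} (hnm : n ≤ m) (hGp : GPos a b)
    {w : Option (Fin m) → ℝ} (hw : ∀ o, 1 / 2 ≤ w o)
    (hG : GP (chA a b (chN a b w)) (chB m) {none})
    (Mb ε c γ τ Θ : ℝ) (wd k₁ k₂ κ L t : ℕ) (hMb : 0 ≤ Mb)
    (hρ : ∀ o j, |Gr a b o j| ≤ Mb) (hN : ∀ j, |chN a b w j| ≤ Mb)
    (hε0 : 0 < ε) (hε1 : ε ≤ 1) (hc0 : 0 < c) (hc1 : c ≤ 1) (hγ : 0 < γ) (hτ : 0 < τ)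
    (hdet : ∀ u, Vert (chA a b (chN a b w)) (chB m) {none} (chS m) u → 0 < u 0 →
      ∀ J : Fin n → Option (Fin m), Function.Injective J →
      (∀ o, o ∈ tig (slk a b) u ↔ ∃ k, J k = o) →
      ((n + 1).factorial : ℝ) * Mb ^ (n + 1) * ε ^ (wd + 1) <
        |(Matrix.of (Fin.cons (chN a b w) (fun k => -(Gr a b (J k))) :
          Fin (n + 1) → Fin (n + 1) → ℝ)).det|)
    (hnear : ∀ u, Vert (chA a b (chN a b w)) (chB m) {none} (chS m) u → 0 < u 0 →
      (nearC a b c u).card ≤ k₂)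
    (X : Fin (n + 1) → ℝ) (hX : X ∈ Chart a b (chN a b w)) (hX0 : γ ≤ X 0)
    (g : Option (Fin m) → ℝ) (hg0 : ∀ i, 0 ≤ g (some i)) (hg1 : ∀ i, g (some i) ≤ 2)
    (hgn : g none ≤ -Θ) (hgn' : -(2 * Θ) ≤ g none) (hΘ : 20 < Θ * γ * (c * ε))
    (hlight : LightLe a b (chN a b w) (gv a b g) τ k₁)
    (hκ : wd + k₂ + 2 ≤ κ) (hκ' : k₁ + k₂ ≤ κ)
    (hPL : ∀ u u', Vert (chA a b (chN a b w)) (chB m) {none} (chS m) u →
      Vert (chA a b (chN a b w)) (chB m) {none} (chS m) u' → 0 < u 0 → 0 < u' 0 →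
      n ≤ (tig (slk a b) u ∩ tig (slk a b) u').card + κ →
      Reach (chA a b (chN a b w)) (chB m) {none} (chS m) L u u')
    (ht : (4 + 4 * Θ) * 5 / (τ * c * (c * ε)) ≤ t) :
    SHirsch.dm (SHirsch.Pol a b ∅ Finset.univ) ≤
      ((((t + 1) * L + (t + 1) * L) * (2 * (m + 2) ^ 2) : ℕ) : ℕ∞) := by
  have hw0 : ∀ o, 0 < w o := fun o => lt_of_lt_of_le (by norm_num) (hw o)
  refine dm_of_chart hGp hG (chart_bounded hnm hw0 hG) (fun x hx => chN_pos a b hw0 hx) ?_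
  intro u v hu hu0 hv hv0
  exact fat_reach hnm hw hG Mb ε c γ τ Θ wd k₁ k₂ κ L t hMb hρ hN hε0 hε1 hc0 hc1 hγ hτ hdet
    hnear X hX hX0 g hg0 hg1 hgn hgn' hΘ hlight hκ hκ' hPL ht u hu hu0 v hv hv0

end Pool.Agent.Lib.S3.Hop
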