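import Pool.Agent.Lib.S3.PL.Top
import Pool.Agent.Lib.S3.Fat.FatDet

/-!
# The diameter from the good event and the pair lemma (smoothed Hirsch, MP_4a5c02_co)
-/

set_option autoImplicit false

open MeasureTheory Matrix Set
open scoped ENNReal NNReal

namespace Pool.Agent.Lib.S3.PL

open Pool.Agent.Lib.S3.Geo
open Pool.Agent.Lib.SHirsch (Gr GPos GPc dm)
open Pool.Agent.Lib.SHirsch.Thin

variable {m n : ℕ}

namespace GoodW

variable {σ : ℝ} {ω : Om m n} (h : GoodW m n σ ω)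

include h

theorem MR : (5 : ℝ) ≤ (MM m n σ : ℝ) := by exact_mod_cast h.M5

theorem mMR : (m : ℝ) + 1 ≤ (MM m n σ : ℝ) := by exact_mod_cast h.mM

theorem nMR : (n : ℝ) + 1 ≤ (MM m n σ : ℝ) := by exact_mod_cast h.nM

theorem row4 (r : Row m) (j : Fin (n + 1)) : |rho ω r j| ≤ (MM m n σ : ℝ) ^ 4 := by
  refine (h.row r j).trans ?_
  have h1 := h.MR
  have h2 : (1 : ℝ) ≤ (MM m n σ : ℝ) ^ 3 := one_le_pow₀ (by linarith)
  calc (MM m n σ : ℝ) ^ 3 + 1 ≤ (MM m n σ : ℝ) ^ 3 + (MM m n σ : ℝ) ^ 3 := by linarith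
    _ = 2 * (MM m n σ : ℝ) ^ 3 := by ring
    _ ≤ (MM m n σ : ℝ) * (MM m n σ : ℝ) ^ 3 := by gcongr; linarith
    _ = _ := by ring

theorem row6 (r : Row m) (j : Fin (n + 1)) : |rho ω r j| ≤ (MM m n σ : ℝ) ^ 6 :=
  (h.row4 r j).trans (pow_le_pow_right₀ (by have := h.MR; linarith) (by norm_num))

theorem N6 (j : Fin (n + 1)) : |Nf ω j| ≤ (MM m n σ : ℝ) ^ 6 := by
  have h1 := abs_Nf_le (B := (MM m n σ : ℝ) ^ 4) h.row4 (fun r => by
    have := h.eta1 r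
    rw [abs_le]
    constructor <;> linarith) j
  refine h1.trans ?_
  have h2 := h.MR
  have h3 := h.mMR
  calc 2 * ((m : ℝ) + 1) * (MM m n σ : ℝ) ^ 4
      ≤ (MM m n σ : ℝ) * (MM m n σ : ℝ) * (MM m n σ : ℝ) ^ 4 := by gcongr; linarith
    _ = _ := by ring

/-- Tight rows of a vertex of the chart as an injective tuple. -/
theorem tuple {u : Fin (n + 1) → ℝ}
    (hu : Vert (chA (Am ω) (bm ω) (Nf ω)) (chB m) {none} (chS m) u) :
    ∃ J : Fin n → Row m, Function.Injective J ∧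
      ∀ o, o ∈ Hop.tig (Hop.slk (Am ω) (bm ω)) u ↔ ∃ k, J k = o := by
  have hcard := (Hop.vtx_of_vert h.gpc hu).card
  let e := (Hop.tig (Hop.slk (Am ω) (bm ω)) u).equivFinOfCardEq hcard
  refine ⟨fun k => (e.symm k : Option (Fin m)), fun i j hij => ?_, fun o => ⟨fun ho => ?_, ?_⟩⟩
  · exact e.symm.injective (Subtype.ext hij)
  · exact ⟨e ⟨o, ho⟩, by simp⟩
  · rintro ⟨k, rfl⟩
    exact (e.symm k).2

omit h in
theorem mem_chart {u : Fin (n + 1) → ℝ} (hu : u ∈ Chart (Am ω) (bm ω) (Nf ω)) :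
    Nf ω ⬝ᵥ u = 1 ∧ ∀ r, 0 ≤ rho ω r ⬝ᵥ u := by
  have h1 := (Hop.mem_hat_iff _ _ _ u).2 hu
  refine ⟨h1.1, fun r => ?_⟩
  rw [rho_slk]
  exact h1.2 r

/-- Near tight rows of a chart vertex. -/
theorem near_le {u : Fin (n + 1) → ℝ}
    (hu : Vert (chA (Am ω) (bm ω) (Nf ω)) (chB m) {none} (chS m) u) :
    (Hop.nearC (Am ω) (bm ω) (((MM m n σ : ℝ) ^ xce)⁻¹) u).card ≤ nNr n := by
  classical
  have hc := mem_chart hu.1
  have hM := h.MR
  set D : Finset (Fin m) := Finset.univ.filter (fun i =>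
    0 < rho ω (some i) ⬝ᵥ u ∧ rho ω (some i) ⬝ᵥ u ≤ ((MM m n σ : ℝ) ^ xce)⁻¹) with hD
  have hlt : D.card < nNr n := by
    refine near_of_not_bad (ω := ω) (B := (MM m n σ : ℝ) ^ 3 + 1)
      (s := ((MM m n σ : ℝ) ^ xce)⁻¹) (by positivity) (by positivity) h.row (fun r => ?_) h.near
      hc.1 hc.2 (Hop.tig (Hop.slk (Am ω) (bm ω)) u) ?_ (fun r hr => ?_) D (fun i hi => ?_)
    · have := h.eta1 r
      rw [abs_le]
      constructor <;> linarith
    · exact (Hop.vtx_of_vert h.gpc hu).card.ge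
    · rw [rho_slk]
      exact Hop.mem_tig.1 hr
    · exact (Finset.mem_filter.1 hi).2
  have hsub : Hop.nearC (Am ω) (bm ω) (((MM m n σ : ℝ) ^ xce)⁻¹) u ⊆
      insert none (D.map ⟨some, Option.some_injective _⟩) := by
    intro o ho
    unfold Hop.nearC at ho
    rw [Finset.mem_filter] at ho
    cases o with
    | none => exact Finset.mem_insert_self _ _
    | some i =>
      refine Finset.mem_insert_of_mem (Finset.mem_map.2 ⟨i, ?_, rfl⟩)
      rw [hD, Finset.mem_filter, rho_slk]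
      exact ⟨Finset.mem_univ _, ho.2⟩
  have h1 := Finset.card_le_card hsub
  have h2 := Finset.card_insert_le none (D.map ⟨some, Option.some_injective _⟩)
  rw [Finset.card_map] at h2
  omega

/-- The determinant at a vertex off infinity. -/
theorem det_lt {u : Fin (n + 1) → ℝ} (hu : u ∈ Chart (Am ω) (bm ω) (Nf ω)) (hu0 : 0 < u 0)
    {J : Fin n → Row m} (hJ : Function.Injective J) (hJu : ∀ k, rho ω (J k) ⬝ᵥ u = 0) :
    (((MM m n σ : ℝ) ^ (9 * n + 8)))⁻¹ < |(amat (Nf ω) (rho ω) J).det| := by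
  have h1 := det_of_notMem h.det (fun r => (h.eta1 r).1) hu0 (mem_chart hu).2 hJ hJu
  rw [one_div, inv_pow] at h1
  have e : 5 * n + 2 * (2 * n) + 8 = 9 * n + 8 := by ring
  rwa [e] at h1

/-- The numerical condition of the determinants in the hub argument. -/
theorem num_det :
    ((n + 1).factorial : ℝ) * ((MM m n σ : ℝ) ^ 6) ^ (n + 1) *
      (((MM m n σ : ℝ) ^ xwk)⁻¹) ^ (n / 64 + 1) ≤ (((MM m n σ : ℝ) ^ (9 * n + 8)))⁻¹ := by
  have hM := h.MR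
  have hM0 : (0 : ℝ) < (MM m n σ : ℝ) := by linarith
  have h1 : ((n + 1).factorial : ℝ) ≤ (MM m n σ : ℝ) ^ (n + 1) := by
    have h2 : (n + 1).factorial ≤ (n + 1) ^ (n + 1) := Nat.factorial_le_pow (n + 1)
    calc ((n + 1).factorial : ℝ) ≤ ((n + 1 : ℕ) : ℝ) ^ (n + 1) := by exact_mod_cast h2
      _ ≤ (MM m n σ : ℝ) ^ (n + 1) := by
          apply pow_le_pow_left₀ (by positivity)
          exact_mod_cast h.nM
  have h3 : ((n + 1).factorial : ℝ) * ((MM m n σ : ℝ) ^ 6) ^ (n + 1) ≤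
      (MM m n σ : ℝ) ^ (7 * (n + 1)) := by
    calc ((n + 1).factorial : ℝ) * ((MM m n σ : ℝ) ^ 6) ^ (n + 1)
        ≤ (MM m n σ : ℝ) ^ (n + 1) * ((MM m n σ : ℝ) ^ 6) ^ (n + 1) := by gcongr
      _ = (MM m n σ : ℝ) ^ (7 * (n + 1)) := by ring
  have h4 : (((MM m n σ : ℝ) ^ xwk)⁻¹) ^ (n / 64 + 1) =
      ((MM m n σ : ℝ) ^ (xwk * (n / 64 + 1)))⁻¹ := by
    rw [inv_pow, ← pow_mul]
  rw [h4]
  have h5 : 7 * (n + 1) + (9 * n + 8) ≤ xwk * (n / 64 + 1) := by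
    unfold xwk
    have := h.n512
    omega
  calc ((n + 1).factorial : ℝ) * ((MM m n σ : ℝ) ^ 6) ^ (n + 1) *
        ((MM m n σ : ℝ) ^ (xwk * (n / 64 + 1)))⁻¹
      ≤ (MM m n σ : ℝ) ^ (7 * (n + 1)) * ((MM m n σ : ℝ) ^ (7 * (n + 1) + (9 * n + 8)))⁻¹ := by
        gcongr
        linarith
    _ = ((MM m n σ : ℝ) ^ (9 * n + 8))⁻¹ := by
        rw [pow_add, mul_inv, ← mul_assoc, mul_inv_cancel₀ (pow_pos hM0 _).ne', one_mul]

/-- **The diameter from the good event and the pair lemma.** -/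
theorem fat_det {L : ℕ} (hPL : PairAt ω L (nKap n)) :
    dm (SHirsch.Pol (Am ω) (bm ω) ∅ Finset.univ) ≤
      (((2 * (((MM m n σ) ^ xhop + 1) * L)) * (2 * (m + 2) ^ 2) : ℕ) : ℕ∞) := by
  classical
  set M : ℝ := (MM m n σ : ℝ) with hMdef
  set w : Row m → ℝ := fun r => ω (.eta r) with hw
  have hN : Nf ω = chN (Am ω) (bm ω) w := Nf_eq_chN ω
  have hM5 : (5 : ℝ) ≤ M := h.MR
  have hM0 : 0 < M := by linarith
  have hM1 : 1 ≤ M := by linarith
  have hw0 : ∀ o, 0 < w o := fun o => lt_of_lt_of_le one_pos (h.eta1 o).1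
  have hgpc : GP (chA (Am ω) (bm ω) (chN (Am ω) (bm ω) w)) (chB m) {none} := hN ▸ h.gpc
  have hnm : n ≤ m := by have := h.nm; omega
  have hn := h.n512
  -- the deep point
  obtain ⟨X, hX, hX1, hX2, -⟩ := deep_point (ω := ω) (σ := σ) (by omega) (by omega) h.hσ
    (fun r j => h.row4 (some r) j) (fun r => by
      have := h.eta1 r
      constructor <;> linarith) h.thick
  have hX0 : (M ^ 43)⁻¹ ≤ X 0 := by
    have h1 := hX2 none
    rwa [rho_slk, Hop.slk_none] at h1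
  -- the hub
  have hcf0 : ∀ i : Fin m, 0 ≤ cfHub (M ^ xhub) ω (some i) := fun i => by
    have := (h.coin (.hub (some i)) trivial).1
    show 0 ≤ ω (.hub (some i))
    linarith
  have hcf1 : ∀ i : Fin m, cfHub (M ^ xhub) ω (some i) ≤ 2 * w (some i) := fun i => by
    have h1 := (h.coin (.hub (some i)) trivial).2
    have h2 := (h.eta1 (some i)).1
    show ω (.hub (some i)) ≤ 2 * ω (.eta (some i))
    linarith
  have hsl : ∀ o, 0 ≤ Hop.slk (Am ω) (bm ω) o X := fun o => by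
    rw [← rho_slk]
    exact le_trans (by positivity) (hX2 o)
  have hneg : Hop.hubv (Am ω) (bm ω) (cfHub (M ^ xhub) ω) ⬝ᵥ X < 0 := by
    rw [Hop.hubv_dot, Fintype.sum_option, Hop.slk_none]
    have h1 : ∑ i, cfHub (M ^ xhub) ω (some i) * Hop.slk (Am ω) (bm ω) (some i) X ≤ 2 := by
      have h2 : ∀ i ∈ (Finset.univ : Finset (Fin m)),
          cfHub (M ^ xhub) ω (some i) * Hop.slk (Am ω) (bm ω) (some i) X ≤
          2 * (w (some i) * Hop.slk (Am ω) (bm ω) (some i) X) := by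
        intro i _
        have := mul_le_mul_of_nonneg_right (hcf1 i) (hsl (some i))
        linarith
      refine (Finset.sum_le_sum h2).trans ?_
      rw [← Finset.mul_sum]
      have h3 : Nf ω ⬝ᵥ X = 1 := hX1
      rw [hN, Hop.chN_slk, Fintype.sum_option] at h3
      have h4 := mul_nonneg (hw0 none).le (hsl none)
      linarith
    have h5 : cfHub (M ^ xhub) ω none = -(M ^ xhub) := rfl
    rw [h5]
    have h6 : M ^ xhub * (M ^ 43)⁻¹ ≤ M ^ xhub * X 0 := by gcongr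
    have h7 : (5 : ℝ) ≤ M ^ xhub * (M ^ 43)⁻¹ := by
      have e : xhub = 43 + 4402 := rfl
      rw [e, pow_add, mul_comm (M ^ 43), mul_assoc, mul_inv_cancel₀ (pow_pos hM0 _).ne', mul_one]
      calc (5 : ℝ) ≤ M ^ 1 := by rw [pow_one]; exact hM5
        _ ≤ M ^ 4402 := pow_le_pow_right₀ hM1 (by norm_num)
    linarith
  obtain ⟨f, hf⟩ := h.optH
  obtain ⟨hh, lm, μ, hhv, hmin, hlam, hid, hsmall⟩ := hub_data (ω := ω) (Th := M ^ xhub)
    (τ := (M ^ xtau)⁻¹) (k₁ := nHub n) h.hub hf (fun i => hcf0 i) (X := X) (hN ▸ hX) hneg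
  -- the structure at the vertices
  have hstr : ∀ u, Vert (chA (Am ω) (bm ω) (Nf ω)) (chB m) {none} (chS m) u → 0 < u 0 →
      Hop.Str (Hop.slk (Am ω) (bm ω)) (Hop.dl (Nf ω)) (n / 64 + nNr n) ((M ^ xce)⁻¹)
        (1 / (M ^ xwk)⁻¹) u := by
    intro u hu hu0
    obtain ⟨J, hJi, hJ⟩ := h.tuple hu
    have hJu : ∀ k, rho ω (J k) ⬝ᵥ u = 0 := fun k => by
      rw [rho_slk]
      exact Hop.mem_tig.1 ((hJ _).2 ⟨k, rfl⟩)
    refine Hop.str_of_det hu.1 J hJ hJi (M ^ 6) ((M ^ xwk)⁻¹) ((M ^ xce)⁻¹) (n / 64) (nNr n)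
      (by positivity) (fun o j => ?_) h.N6 (by positivity) (inv_le_one_of_one_le₀
        (one_le_pow₀ hM1)) ?_ (h.near_le hu)
    · have h1 := h.row6 o j
      rw [rho_eq_neg_Gr, Pi.neg_apply, abs_neg] at h1
      exact h1
    · refine lt_of_le_of_lt h.num_det ((h.det_lt hu.1 hu0 hJi hJu).trans_le (le_of_eq ?_))
      congr 2
      unfold amat
      simp only [rho_eq_neg_Gr]
  -- the path
  have hθ : ((M ^ (xce + xwk + 1))⁻¹ : ℝ) * ((M ^ xce)⁻¹ + 2 * (1 / (M ^ xwk)⁻¹) * 1) ≤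
      (M ^ xce)⁻¹ := by
    rw [one_div, inv_inv, mul_one]
    have h1 : (M ^ xce)⁻¹ ≤ M ^ xwk :=
      (inv_le_one_of_one_le₀ (one_le_pow₀ hM1)).trans (one_le_pow₀ hM1)
    have e : xce + xwk + 1 = xwk + 1 + xce := by ring
    calc ((M ^ (xce + xwk + 1))⁻¹ : ℝ) * ((M ^ xce)⁻¹ + 2 * M ^ xwk)
        ≤ (M ^ (xce + xwk + 1))⁻¹ * (M ^ xwk + 2 * M ^ xwk) := by gcongr
      _ = (M ^ (xce + xwk + 1))⁻¹ * (3 * M ^ xwk) := by ring
      _ ≤ (M ^ (xce + xwk + 1))⁻¹ * (M * M ^ xwk) := by gcongr; linarith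
      _ = (M ^ xce)⁻¹ := by
          have h2 : M * M ^ xwk = M ^ (xwk + 1) := by ring
          rw [h2, e, pow_add M (xwk + 1) xce, mul_inv, mul_assoc, mul_comm (M ^ xce)⁻¹, ← mul_assoc,
            inv_mul_cancel₀ (pow_pos hM0 _).ne', one_mul]
  have hΘγ : (2 : ℝ) < (M ^ (xce + xwk + 1))⁻¹ * (M ^ xhub * (M ^ 43)⁻¹) := by
    have e : xhub = (xce + xwk + 1) + (43 + 1) := rfl
    rw [e, pow_add M (xce + xwk + 1), mul_assoc, ← mul_assoc, inv_mul_cancel₀ (pow_pos hM0 _).ne',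
      one_mul, pow_add M 43 1, mul_comm (M ^ 43), mul_assoc,
      mul_inv_cancel₀ (pow_pos hM0 43).ne', mul_one, pow_one]
    linarith
  have ht : (1 - (M ^ (xce + xwk + 1))⁻¹) ^ (MM m n σ ^ xhop) * (2 + M ^ xhub * 1) ≤
      (M ^ xtau)⁻¹ * (M ^ xce)⁻¹ := by
    have h1 : (1 - ((MM m n σ : ℝ) ^ (xce + xwk + 1))⁻¹) ^ (MM m n σ ^ xhop) ≤
        ((MM m n σ : ℝ) ^ 6546)⁻¹ := by
      apply decay h.M5
      have h2 : 6546 ≤ (MM m n σ) ^ 2 := by
        have := h.M512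
        nlinarith
      calc 6546 * MM m n σ ^ (xce + xwk + 1 + 1)
          ≤ MM m n σ ^ 2 * MM m n σ ^ (xce + xwk + 1 + 1) := Nat.mul_le_mul_right _ h2
        _ = MM m n σ ^ (2 + (xce + xwk + 1 + 1)) := (pow_add _ _ _).symm
        _ ≤ MM m n σ ^ xhop := Nat.pow_le_pow_right (by have := h.M5; omega)
            (by unfold xce xwk xhop; norm_num)
    have h3 : 2 + M ^ xhub * 1 ≤ M ^ (xhub + 1) := by
      have h4 : 1 ≤ M ^ xhub := one_le_pow₀ hM1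
      calc 2 + M ^ xhub * 1 ≤ 2 * M ^ xhub + M ^ xhub := by linarith
        _ = 3 * M ^ xhub := by ring
        _ ≤ M * M ^ xhub := by gcongr; linarith
        _ = M ^ (xhub + 1) := by ring
    have h5 : 0 ≤ 2 + M ^ xhub * 1 := by positivity
    calc (1 - (M ^ (xce + xwk + 1))⁻¹) ^ (MM m n σ ^ xhop) * (2 + M ^ xhub * 1)
        ≤ (M ^ 6546)⁻¹ * M ^ (xhub + 1) := mul_le_mul h1 h3 h5 (by positivity)
      _ = (M ^ xtau)⁻¹ * (M ^ xce)⁻¹ := by
          have e : (6546 : ℕ) = (xhub + 1) + (xtau + xce) := rfl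
          rw [e, pow_add M (xhub + 1), mul_inv, mul_comm (M ^ (xhub + 1))⁻¹, mul_assoc,
            inv_mul_cancel₀ (pow_pos hM0 _).ne', mul_one, pow_add M xtau xce, mul_inv]
  have hreach : ∀ u v : Fin (n + 1) → ℝ,
      Vert (chA (Am ω) (bm ω) (chN (Am ω) (bm ω) w)) (chB m) {none} (chS m) u → 0 < u 0 →
      Vert (chA (Am ω) (bm ω) (chN (Am ω) (bm ω) w)) (chB m) {none} (chS m) v → 0 < v 0 →
      Reach (chA (Am ω) (bm ω) (chN (Am ω) (bm ω) w)) (chB m) {none} (chS m)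
        (2 * ((MM m n σ ^ xhop + 1) * L)) u v := by
    intro u v hu hu0 hv hv0
    have hnear := fun (u : Fin (n + 1) → ℝ)
      (hu : Vert (chA (Am ω) (bm ω) (Nf ω)) (chB m) {none} (chS m) u) (_ : 0 < u 0) => h.near_le hu
    have hPL' := hPL
    unfold PairAt at hPL'
    rw [hN] at hstr hid hhv hmin hPL' hnear
    exact Hop.hub_final hnm hw0 hgpc (n / 64 + nNr n) (nHub n) (nNr n) ((M ^ xce)⁻¹)
      (1 / (M ^ xwk)⁻¹) 1 ((M ^ (xce + xwk + 1))⁻¹) ((M ^ xtau)⁻¹) (by positivity)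
      (fun o => by have := (h.eta1 o).1; show 1 ≤ 1 * ω (.eta o); linarith) hstr hnear
      (by positivity) (inv_le_one_of_one_le₀ (one_le_pow₀ hM1)) hθ (cfHub (M ^ xhub) ω) 2
      (M ^ xhub) (M ^ xhub) ((M ^ 43)⁻¹) (by norm_num) hcf0 hcf1 le_rfl le_rfl (by positivity)
      X hX hX0 hΘγ hh hhv hmin lm μ hlam hid (by positivity) hsmall L (nKap n)
      (by unfold nNr nKap; omega) (by unfold nHub nNr nKap; omega) hPL' (MM m n σ ^ xhop) ht
      u v hu hu0 hv hv0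
  exact dm_of_chart h.gp hgpc (chart_bounded hnm hw0 hgpc)
    (fun x hx => chN_pos (Am ω) (bm ω) hw0 hx) hreach

end GoodW

end Pool.Agent.Lib.S3.PL
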