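import Pool.Agent.Lib.S3.Fat.Near
import Pool.Agent.Lib.S3.Fat.Det
import Pool.Agent.Lib.S3.Fat.Deep
import Pool.Agent.Lib.S3.PL.Hub

/-!
# The diameter of a good fat polyhedron on `Om m n`, with all numbers

`fat_dm_om`: at an `ω` in the box, in general position, outside the near, determinant and hub
events and not thin, the pair lemma gives a polynomial bound of the diameter.
-/

set_option autoImplicit false

open MeasureTheory ProbabilityTheory Set
open scoped ENNReal NNReal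

namespace Pool.Agent.Lib.S3.PL

open Pool.Agent.Lib.SHirsch (Gr GPos nrm)
open Pool.Agent.Lib.SHirsch.Thin
open Pool.Agent.Lib.S3.Geo Pool.Agent.Lib.S3.Hop

variable {m n : ℕ}

/-- The threshold of the near event, for the slack `M ^ (-a)`. -/
noncomputable def nearEta (m n : ℕ) (σ : ℝ) (a : ℕ) : ℝ :=
  ((MM m n σ : ℝ) ^ a)⁻¹ * ((n + 1) * (2 * (m + 1) * ((MM m n σ : ℝ) ^ 3 + 1)))

/-- `(1 - θ)^t ≤ 1 / (t θ)`. -/
theorem one_sub_pow_mul_le {θ : ℝ} (hθ0 : 0 ≤ θ) (hθ1 : θ ≤ 1) (t : ℕ) :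
    (1 - θ) ^ t * (1 + t * θ) ≤ 1 := by
  have h2 : 1 + (t : ℝ) * θ ≤ (1 + θ) ^ t := one_add_mul_le_pow (by linarith) t
  calc (1 - θ) ^ t * (1 + t * θ) ≤ (1 - θ) ^ t * (1 + θ) ^ t :=
        mul_le_mul_of_nonneg_left h2 (pow_nonneg (by linarith) _)
    _ = ((1 - θ) * (1 + θ)) ^ t := (mul_pow _ _ _).symm
    _ ≤ 1 := pow_le_one₀ (mul_nonneg (by linarith) (by linarith)) (by nlinarith)

/-- The box gives the sizes of the rows and of the chart row. -/
theorem box_sizes {Abar : Fin m → Fin n → ℝ} {bbar : Fin m → ℝ} {σ : ℝ} (hn : 1 ≤ n)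
    (hm : 1 ≤ m) (hσ : 0 < σ) (hA : ∑ i, ∑ j, Abar i j ^ 2 ≤ 1) (hb : ∑ i, bbar i ^ 2 ≤ 1)
    {ω : Om m n} (hbox : ∀ c, |ω c - ctr Abar bbar (cc1 m n) c| ≤ Rb1 m n σ c) :
    (∀ r j, |rho ω r j| ≤ (MM m n σ : ℝ) ^ 3 + 1) ∧
    (∀ r : Option (Fin m), 1 ≤ ω (.eta r) ∧ ω (.eta r) ≤ 2) ∧
    (∀ i : Fin m, 0 ≤ ω (.hub (some i)) ∧ ω (.hub (some i)) ≤ 2) := by
  have hM5 : (5 : ℝ) ≤ MM m n σ := by exact_mod_cast five_le_MM hn hm hσ
  refine ⟨fun r j => ?_, fun r => ?_, fun i => ?_⟩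
  · exact abs_rho_le (cc := cc1 m n) (one_le_pow₀ (by linarith)) hA hb
      (fun r j => hbox (.row r j)) r j
  · have h := hbox (.eta r)
    change |ω (.eta r) - 3 / 2| ≤ 1 / 2 at h
    rw [abs_le] at h
    constructor <;> linarith [h.1, h.2]
  · have h := hbox (.hub (some i))
    change |ω (.hub (some i)) - 3 / 2| ≤ 1 / 2 at h
    rw [abs_le] at h
    constructor <;> linarith [h.1, h.2]

/-- **The diameter of a good fat polyhedron.** -/
theorem fat_dm_om {Abar : Fin m → Fin n → ℝ} {bbar : Fin m → ℝ} {σ : ℝ} (hn : 1 ≤ n)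
    (hnm : n + 1 ≤ m) (hσ : 0 < σ)
    (hA : ∑ i, ∑ j, Abar i j ^ 2 ≤ 1) (hb : ∑ i, bbar i ^ 2 ≤ 1)
    {ω : Om m n} (hbox : ∀ c, |ω c - ctr Abar bbar (cc1 m n) c| ≤ Rb1 m n σ c)
    (hGp : GPos (Am ω) (bm ω))
    (hG : GP (chA (Am ω) (bm ω) (Nf ω)) (chB m) {none})
    (a b e wd k₁ k₂ κ L : ℕ) (Θ : ℝ) (hΘ : Θ = (MM m n σ : ℝ) ^ (a + e + 45))
    (hhub : ∃ f, Opt (Nf ω) (rho ω) (fnl ω (cfHub Θ ω)) ∅ ∅ f)
    (hnear : ω ∉ NearBad m n k₂ (nearEta m n σ a))
    (hdet : ω ∉ (DetBad ((1 / (MM m n σ : ℝ)) ^ (9 * n + 8)) : Set (Om m n)))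
    (hlight : ω ∉ EvHub Θ (((MM m n σ : ℝ) ^ b)⁻¹) (k₁ + 1))
    (hfat : ¬ ThinOn ((((MM m n σ : ℕ) : ℝ) ^ 30)⁻¹) Finset.univ (rw' (Am ω) (bm ω)))
    (he : 15 * n + 15 ≤ e * (wd + 1)) (hκ : wd + k₂ + 2 ≤ κ) (hκ' : k₁ + k₂ ≤ κ)
    (hPL : ∀ u u', Vert (chA (Am ω) (bm ω) (Nf ω)) (chB m) {none} (chS m) u →
      Vert (chA (Am ω) (bm ω) (Nf ω)) (chB m) {none} (chS m) u' → 0 < u 0 → 0 < u' 0 →
      n ≤ (tig (slk (Am ω) (bm ω)) u ∩ tig (slk (Am ω) (bm ω)) u').card + κ →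
      Reach (chA (Am ω) (bm ω) (Nf ω)) (chB m) {none} (chS m) L u u')
    (t : ℕ) (ht : (MM m n σ : ℝ) ^ (3 * a + 2 * e + b + 50) ≤ t) :
    SHirsch.dm (SHirsch.Pol (Am ω) (bm ω) ∅ Finset.univ) ≤
      (((2 * ((t + 1) * L)) * (2 * (m + 2) ^ 2) : ℕ) : ℕ∞) := by
  classical
  obtain ⟨hrho, heta, hhc⟩ := box_sizes hn (by omega) hσ hA hb hbox
  set M : ℝ := (MM m n σ : ℝ) with hMdef
  have hM5 : (5 : ℝ) ≤ M := by
    rw [hMdef]
    exact_mod_cast five_le_MM hn (by omega : 1 ≤ m) hσ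
  have hM0 : 0 < M := by linarith
  have hM1 : 1 ≤ M := by linarith
  have hmM : (m : ℝ) + 1 ≤ M := by
    rw [hMdef]
    have : m + 1 ≤ MM m n σ := by unfold MM; omega
    exact_mod_cast this
  have hnM : (n : ℝ) + 1 ≤ M := by
    rw [hMdef]
    have : n + 1 ≤ MM m n σ := by unfold MM; omega
    exact_mod_cast this
  set w : Option (Fin m) → ℝ := fun r => ω (.eta r) with hw
  have hN : Nf ω = chN (Am ω) (bm ω) w := Nf_eq_chN ω
  rw [hN] at hG hPL
  have hw1 : ∀ o, 1 ≤ w o := fun o => (heta o).1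
  have hw0 : ∀ o, 0 < w o := fun o => lt_of_lt_of_le one_pos (hw1 o)
  have hM3 : M ^ 3 + 1 ≤ 2 * M ^ 3 := by
    have : 1 ≤ M ^ 3 := one_le_pow₀ hM1
    linarith
  have hM34 : 2 * M ^ 3 ≤ M ^ 4 := by
    have : M ^ 4 = M * M ^ 3 := by ring
    rw [this]
    have h0 : 0 ≤ M ^ 3 := by positivity
    nlinarith
  -- the deep point
  obtain ⟨X, hXc, hXN, hXs, -⟩ := deep_point hn (by omega) hσ (fun r j => by
    have h := hrho (some r) j
    change |ω (.row r j)| ≤ _ at h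
    exact h.trans (hM3.trans hM34)) (fun r => ⟨by linarith [(heta r).1], (heta r).2⟩) hfat
  have hX0 : (M ^ 43)⁻¹ ≤ X 0 := by
    have h := hXs none
    rwa [rho_none_dot] at h
  -- parameters
  set s : ℝ := (M ^ a)⁻¹ with hs
  set ε : ℝ := (M ^ e)⁻¹ with hε
  set θ : ℝ := (M ^ (a + e + 1))⁻¹ with hθ
  set τ : ℝ := (M ^ b)⁻¹ with hτ
  have hs0 : 0 < s := by positivity
  have hε0 : 0 < ε := by positivity
  have hε1 : ε ≤ 1 := inv_le_one_of_one_le₀ (one_le_pow₀ hM1)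
  have hθ0 : 0 < θ := by positivity
  have hθ1 : θ ≤ 1 := inv_le_one_of_one_le₀ (one_le_pow₀ hM1)
  have hs1 : s ≤ 1 := inv_le_one_of_one_le₀ (one_le_pow₀ hM1)
  have hA1 : 1 / ε = M ^ e := by rw [hε, one_div, inv_inv]
  -- sizes
  have hMb : ∀ o j, |Gr (Am ω) (bm ω) o j| ≤ M ^ 5 := by
    intro o j
    have h := hrho o j
    rw [rho_eq_neg_Gr, Pi.neg_apply, abs_neg] at h
    refine h.trans ((hM3.trans hM34).trans ?_)
    exact pow_le_pow_right₀ hM1 (by norm_num)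
  have hNb0 : ∀ j, |Nf ω j| ≤ 2 * (m + 1) * (M ^ 3 + 1) :=
    abs_Nf_le hrho fun r => by
      rw [abs_of_nonneg (by linarith [(heta r).1])]
      exact (heta r).2
  have hNb : ∀ j, |chN (Am ω) (bm ω) w j| ≤ M ^ 5 := by
    intro j
    rw [← hN]
    refine (hNb0 j).trans ?_
    calc 2 * ((m : ℝ) + 1) * (M ^ 3 + 1) ≤ 2 * M * (2 * M ^ 3) := by gcongr
      _ = 4 * M ^ 4 := by ring
      _ ≤ M * M ^ 4 := by gcongr; linarith
      _ = M ^ 5 := by ring
  -- the near count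
  have hnear' : ∀ u, Vert (chA (Am ω) (bm ω) (chN (Am ω) (bm ω) w)) (chB m) {none} (chS m) u →
      0 < u 0 → (nearC (Am ω) (bm ω) s u).card ≤ k₂ := by
    intro u hu hu0
    have hv := vtx_of_vert hG hu
    have hmem := (mem_hat_iff _ _ _ u).2 hu.1
    have hNu : Nf ω ⬝ᵥ u = 1 := by
      rw [hN]
      exact hmem.1
    have hnn : ∀ r, 0 ≤ rho ω r ⬝ᵥ u := fun r => by
      rw [rho_slk]
      exact hmem.2 r
    have h1 := near_of_not_bad (B := M ^ 3 + 1) (s := s) (by positivity) hs0.le hrho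
      (fun r => by
        rw [abs_of_nonneg (by linarith [(heta r).1])]
        exact (heta r).2) hnear hNu hnn (tig (slk (Am ω) (bm ω)) u) hv.card.ge
      (fun r hr => by
        rw [rho_slk]
        exact mem_tig.1 hr)
      ((nearC (Am ω) (bm ω) s u).eraseNone) (fun i hi => by
        rw [Finset.mem_eraseNone] at hi
        unfold nearC at hi
        rw [rho_slk]
        exact (Finset.mem_filter.1 hi).2)
    have h2 : (nearC (Am ω) (bm ω) s u).card ≤
        (nearC (Am ω) (bm ω) s u).eraseNone.card + 1 := by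
      have h3 : nearC (Am ω) (bm ω) s u ⊆
          insert none ((nearC (Am ω) (bm ω) s u).eraseNone.map Function.Embedding.some) := by
        intro o ho
        match o with
        | none => exact Finset.mem_insert_self _ _
        | some i =>
          exact Finset.mem_insert_of_mem (Finset.mem_map_of_mem _ (Finset.mem_eraseNone.2 ho))
      refine (Finset.card_le_card h3).trans ((Finset.card_insert_le _ _).trans ?_)
      rw [Finset.card_map]
    omega
  -- the determinants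
  have hdet' : ∀ u, Vert (chA (Am ω) (bm ω) (chN (Am ω) (bm ω) w)) (chB m) {none} (chS m) u →
      0 < u 0 → Str (slk (Am ω) (bm ω)) (dl (chN (Am ω) (bm ω) w)) (wd + k₂) s (1 / ε) u := by
    intro u hu hu0
    have hv := vtx_of_vert hG hu
    have hmem := (mem_hat_iff _ _ _ u).2 hu.1
    obtain ⟨J, hJi, hJ⟩ : ∃ J : Fin n → Option (Fin m), Function.Injective J ∧
        ∀ o, o ∈ tig (slk (Am ω) (bm ω)) u ↔ ∃ k, J k = o := by
      let e := (tig (slk (Am ω) (bm ω)) u).equivFinOfCardEq hv.card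
      refine ⟨fun k => (e.symm k : Option (Fin m)), fun i j hij => ?_, fun o => ⟨fun ho => ?_, ?_⟩⟩
      · exact e.symm.injective (Subtype.ext hij)
      · exact ⟨e ⟨o, ho⟩, by simp⟩
      · rintro ⟨k, rfl⟩
        exact (e.symm k).2
    refine str_of_det hu.1 J hJ hJi (M ^ 5) ε s wd k₂ (by positivity) hMb hNb hε0 hε1 ?_
      (hnear' u hu hu0)
    have h1 := det_of_notMem hdet (fun r => (heta r).1) hu0 (fun r => by
      rw [rho_slk]
      exact hmem.2 r) hJi (fun k => by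
      rw [rho_slk]
      exact mem_tig.1 ((hJ _).2 ⟨k, rfl⟩))
    have h2 : amat (Nf ω) (rho ω) J = Matrix.of (Fin.cons (chN (Am ω) (bm ω) w)
        (fun k => -(Gr (Am ω) (bm ω) (J k))) : Fin (n + 1) → Fin (n + 1) → ℝ) := by
      unfold amat
      rw [hN]
      congr 2
      funext k
      rw [rho_eq_neg_Gr]
    rw [h2] at h1
    refine lt_of_le_of_lt ?_ h1
    have hfac : (((n + 1).factorial : ℕ) : ℝ) ≤ M ^ (n + 1) := by
      calc (((n + 1).factorial : ℕ) : ℝ) ≤ (((n + 1) ^ (n + 1) : ℕ) : ℝ) := by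
            exact_mod_cast Nat.factorial_le_pow (n + 1)
        _ ≤ M ^ (n + 1) := by
            push_cast
            exact pow_le_pow_left₀ (by positivity) hnM _
    have h3 : ε ^ (wd + 1) ≤ (M ^ (15 * n + 15))⁻¹ := by
      rw [hε, inv_pow, ← pow_mul]
      exact inv_anti₀ (by positivity) (pow_le_pow_right₀ hM1 he)
    calc (((n + 1).factorial : ℕ) : ℝ) * (M ^ 5) ^ (n + 1) * ε ^ (wd + 1)
        ≤ M ^ (n + 1) * (M ^ 5) ^ (n + 1) * (M ^ (15 * n + 15))⁻¹ := by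
          gcongr
      _ = M ^ (6 * n + 6) * (M ^ (15 * n + 15))⁻¹ := by
          rw [← pow_mul, ← pow_add]
          congr 2
          ring
      _ ≤ (1 / M) ^ (9 * n + 8) := by
          rw [one_div, inv_pow, ← div_eq_mul_inv, div_le_iff₀ (by positivity),
            inv_mul_eq_div, le_div_iff₀ (by positivity), ← pow_add]
          exact pow_le_pow_right₀ hM1 (by omega)
  -- the hub
  have hΘ0 : 0 < Θ := by rw [hΘ]; positivity
  obtain ⟨f, hf⟩ := hhub
  have hΘγ : 2 < θ * (Θ * (M ^ 43)⁻¹) := by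
    have h1 : θ * (Θ * (M ^ 43)⁻¹) = M := by
      rw [hΘ, hθ]
      have : M ^ (a + e + 45) = M ^ (a + e + 1) * M ^ 43 * M := by ring
      rw [this]
      field_simp
    rw [h1]
    linarith
  have hneg : hubv (Am ω) (bm ω) (cfHub Θ ω) ⬝ᵥ X < 0 := by
    have hmem := (mem_hat_iff _ _ _ X).2 hXc
    rw [hubv_dot, Fintype.sum_option, slk_none]
    change -Θ * X 0 + _ < 0
    have h1 : ∑ i : Fin m, cfHub Θ ω (some i) * slk (Am ω) (bm ω) (some i) X ≤ 2 := by
      have h2 : ∑ o, w o * slk (Am ω) (bm ω) o X = 1 := by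
        rw [← chN_slk]
        exact hmem.1
      rw [Fintype.sum_option] at h2
      have h3 : 0 ≤ w none * slk (Am ω) (bm ω) none X := mul_nonneg (hw0 _).le (hmem.2 _)
      have h4 : ∑ i : Fin m, cfHub Θ ω (some i) * slk (Am ω) (bm ω) (some i) X ≤
          ∑ i : Fin m, 2 * (w (some i) * slk (Am ω) (bm ω) (some i) X) := by
        refine Finset.sum_le_sum fun i _ => ?_
        have h5 := (hhc i).2
        have h6 := hw1 (some i)
        have h7 := hmem.2 (some i)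
        change ω (.hub (some i)) * _ ≤ _
        nlinarith
      rw [← Finset.mul_sum] at h4
      linarith
    have h2 : 2 < Θ * X 0 := by
      have h3 : Θ * (M ^ 43)⁻¹ ≤ Θ * X 0 := mul_le_mul_of_nonneg_left hX0 hΘ0.le
      have h4 : θ * (Θ * (M ^ 43)⁻¹) ≤ 1 * (Θ * (M ^ 43)⁻¹) :=
        mul_le_mul_of_nonneg_right hθ1 (by positivity)
      linarith
    linarith
  rw [hN] at hXN
  obtain ⟨h, lm, μ, hh, hmin, hlm, hid, hsmall⟩ := hub_data hlight hf (fun i => (hhc i).1)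
    (X := X) (by rw [hN]; exact hXc) hneg
  rw [hN] at hh hmin hid
  refine dm_of_chart hGp hG (chart_bounded (by omega) hw0 hG)
    (fun x hx => chN_pos _ _ hw0 hx) ?_
  intro u v hu hu0 hv hv0
  refine hub_final (by omega) hw0 hG (wd + k₂) k₁ k₂ s (1 / ε) 1 θ τ (by positivity)
    (fun o => by rw [one_mul]; exact hw1 o) hdet' hnear' hθ0.le hθ1 ?_ (cfHub Θ ω) 2 Θ Θ
    ((M ^ 43)⁻¹) (by norm_num) (fun i => (hhc i).1) ?_ le_rfl le_rfl hΘ0.le X hXc hX0 ?_ h hh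
    hmin lm μ hlm hid (by positivity) hsmall L κ hκ hκ' hPL t ?_ u v hu hu0 hv hv0
  · rw [hA1]
    have h1 : s + 2 * M ^ e * 1 ≤ 3 * M ^ e := by
      have : 1 ≤ M ^ e := one_le_pow₀ hM1
      linarith
    calc θ * (s + 2 * M ^ e * 1) ≤ θ * (3 * M ^ e) := mul_le_mul_of_nonneg_left h1 hθ0.le
      _ ≤ θ * (M * M ^ e) := by gcongr; linarith
      _ = s := by
          rw [hθ, hs]
          have : M ^ (a + e + 1) = M ^ a * (M * M ^ e) := by ring
          rw [this]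
          field_simp
  · intro i
    have h1 := (hhc i).2
    have h2 := hw1 (some i)
    change ω (.hub (some i)) ≤ 2 * w (some i)
    linarith
  · exact hΘγ
  · have h1 := one_sub_pow_mul_le hθ0.le hθ1 t
    have h2 : M ^ (2 * a + e + b + 49) ≤ t * θ := by
      have h3 : M ^ (3 * a + 2 * e + b + 50) * θ ≤ t * θ := mul_le_mul_of_nonneg_right ht hθ0.le
      refine le_trans (le_of_eq ?_) h3
      rw [hθ]
      have : M ^ (3 * a + 2 * e + b + 50) = M ^ (2 * a + e + b + 49) * M ^ (a + e + 1) := by ring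
      rw [this]
      field_simp
    have h4 : (1 - θ) ^ t * M ^ (2 * a + e + b + 49) ≤ 1 := by
      refine le_trans ?_ h1
      exact mul_le_mul_of_nonneg_left (by linarith) (pow_nonneg (by linarith) _)
    have h5 : 2 + Θ * 1 ≤ M ^ (a + e + 46) := by
      have h6 : M ^ (a + e + 46) = M * Θ := by rw [hΘ]; ring
      have h7 : 1 ≤ Θ := by rw [hΘ]; exact one_le_pow₀ hM1
      rw [h6]
      nlinarith
    have h8 : (1 - θ) ^ t * (2 + Θ * 1) ≤ (1 - θ) ^ t * M ^ (a + e + 46) :=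
      mul_le_mul_of_nonneg_left h5 (pow_nonneg (by linarith) _)
    refine h8.trans ?_
    have h9 : τ * s = (M ^ (a + b))⁻¹ := by rw [hτ, hs]; rw [← mul_inv, ← pow_add]; congr 2; ring
    rw [h9, ← one_div, le_div_iff₀ (by positivity), mul_assoc, ← pow_add]
    refine le_trans (mul_le_mul_of_nonneg_left (pow_le_pow_right₀ hM1 ?_)
      (pow_nonneg (by linarith) _)) h4
    omega

end Pool.Agent.Lib.S3.PL
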