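import Pool.Agent.Lib.S3.Fat.DetTop

/-!
# The fat theorem from the pair lemma, the pair probability and genericity
(smoothed Hirsch, MP_4a5c02_co)
-/

set_option autoImplicit false

open MeasureTheory Matrix Set
open scoped ENNReal NNReal

namespace Pool.Agent.Lib.S3.PL

open Pool.Agent.Lib.S3.Geo
open Pool.Agent.Lib.SHirsch (Gr GPos GPc dm)
open Pool.Agent.Lib.SHirsch.Thin

/-- The box event. -/
def BoxEv (m n : ℕ) (σ : ℝ) (Abar : Fin m → Fin n → ℝ) (bbar : Fin m → ℝ) : Set (Om m n) :=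
  {ω | ∃ c, Rb1 m n σ c ≤ |ω c - ctr Abar bbar (cc1 m n) c|}

/-- The five bad events. -/
def BadE (m n : ℕ) (σ : ℝ) (Abar : Fin m → Fin n → ℝ) (bbar : Fin m → ℝ) :
    Fin 5 → Set (Om m n) :=
  ![BoxEv m n σ Abar bbar, NearS m n σ, DetS m n σ, HubS m n σ ∩ feaO,
    PairS m n σ ∩ (Box (ctr Abar bbar (cc1 m n)) (Rb1 m n σ) 0 ∩ feaO)]

/-- **The fat theorem.** `Gn` is the genericity used in the pair lemma. -/
theorem fatH_of (Gn : ∀ m n : ℕ, Om m n → Prop) (xL N0 : ℕ) (hN0 : 512 ≤ N0)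
    (HD : ∀ (m n : ℕ) (σ : ℝ) (ω : Om m n), N0 ≤ n → GoodW m n σ ω → Gn m n ω →
      PairAt ω (MM m n σ ^ xL) (nKap n))
    (HP : ∀ m n : ℕ, N0 ≤ n → n + 1 ≤ m → ∀ σ : ℝ, 0 < σ → σ ≤ 1 →
      ∀ (Abar : Fin m → Fin n → ℝ) (bbar : Fin m → ℝ),
      ∑ i, ∑ j, Abar i j ^ 2 ≤ 1 → ∑ i, bbar i ^ 2 ≤ 1 →
      law1 Abar bbar σ (PairS m n σ ∩ (Box (ctr Abar bbar (cc1 m n)) (Rb1 m n σ) 0 ∩ feaO)) ≤
        ENNReal.ofReal ((1 / (MM m n σ : ℝ)) ^ (2 * n)) *
          law1 Abar bbar σ (feaO : Set (Om m n)))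
    (GG : ∀ m n : ℕ, N0 ≤ n → n + 1 ≤ m → ∀ σ : ℝ, 0 < σ →
      ∀ (Abar : Fin m → Fin n → ℝ) (bbar : Fin m → ℝ),
      ∀ᵐ ω ∂(law1 Abar bbar σ), ω ∈ (feaO : Set (Om m n)) → CoinOk ω →
        GP (chA (Am ω) (bm ω) (Nf ω)) (chB m) {none} ∧
        (∃ f, Opt (Nf ω) (rho ω) (fnl ω (cfHub ((MM m n σ : ℝ) ^ xhub) ω)) ∅ ∅ f) ∧ Gn m n ω) :
    FatH (xhop + xL + 10) N0 := by
  classical
  intro m n hn hm σ hσ hσ1 Abar bbar hA hb
  have hn512 : 512 ≤ n := hN0.trans hn
  have hM5 : 5 ≤ MM m n σ := five_le_MM (by omega) (by omega) hσ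
  have hM512 : 512 ≤ MM m n σ := by unfold MM; omega
  have hmM : m + 1 ≤ MM m n σ := by
    have h0 : 0 < ⌈1 / σ⌉₊ := Nat.ceil_pos.2 (by positivity)
    unfold MM
    omega
  refine ⟨⋃ i, BadE m n σ Abar bbar i, ?_, ?_⟩
  · have hgp := ae_law_of_noise Abar bbar σ (cc1 m n) (vv1 m n σ)
      (gpos_noise (by omega) Abar bbar hσ)
    filter_upwards [GG m n hn hm σ hσ Abar bbar, hgp] with ω hG hgpos hfea hnot hthick
    rw [add_toNoise_fst, add_toNoise_snd] at hgpos
    rw [Set.mem_iUnion, not_exists] at hnot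
    have h0 : ω ∉ BoxEv m n σ Abar bbar := hnot 0
    have h1 : ω ∉ NearS m n σ := hnot 1
    have h2 : ω ∉ DetS m n σ := hnot 2
    have h3 : ω ∉ HubS m n σ := fun h => hnot 3 ⟨h, hfea⟩
    have hbox : ω ∈ Box (ctr Abar bbar (cc1 m n)) (Rb1 m n σ) 0 := by
      intro c
      by_contra hcon
      rw [add_zero, not_le] at hcon
      exact h0 ⟨c, hcon.le⟩
    have h4 : ω ∉ PairS m n σ := fun h => hnot 4 ⟨h, hbox, hfea⟩
    have hcoin : CoinOk ω := by
      refine coinOk_of_box (b := 0) (fun c hc => ?_) (fun c hc => ?_) hbox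
      · cases c with
        | row r j => exact hc.elim
        | _ => rfl
      · cases c with
        | row r j => exact hc.elim
        | _ => show (1 / 2 : ℝ) + 0 ≤ 1 / 2; norm_num
    obtain ⟨hgpc, hopt, hgn⟩ := hG hfea hcoin
    have hgood : GoodW m n σ ω :=
      { n512 := hn512
        nm := hm
        hσ := hσ
        gp := hgpos
        gpc := hgpc
        coin := hcoin
        row := by
          refine abs_rho_le (B := (MM m n σ : ℝ) ^ 3) ?_ hA hb (cc := cc1 m n) fun r j => ?_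
          · exact one_le_pow₀ (by exact_mod_cast (by omega : 1 ≤ MM m n σ))
          · have := hbox (.row r j)
            rwa [add_zero] at this
        near := h1
        det := h2
        hub := h3
        optH := hopt
        thick := hthick
        pair := h4 }
    refine (hgood.fat_det (HD m n σ ω hn hgood hgn)).trans ?_
    have hM4 : 4 ≤ MM m n σ := by omega
    have hnat : 2 * ((MM m n σ ^ xhop + 1) * MM m n σ ^ xL) * (2 * (m + 2) ^ 2) ≤
        MM m n σ ^ (xhop + xL + 10) := by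
      set M := MM m n σ
      have e1 : M ^ xhop + 1 ≤ M ^ (xhop + 1) := by
        have : 1 ≤ M ^ xhop := Nat.one_le_pow _ _ (by omega)
        calc M ^ xhop + 1 ≤ M ^ xhop + M ^ xhop := by omega
          _ = 2 * M ^ xhop := by ring
          _ ≤ M * M ^ xhop := Nat.mul_le_mul_right _ (by omega)
          _ = M ^ (xhop + 1) := by ring
      have e2 : (m + 2) ^ 2 ≤ M ^ 4 := by
        calc (m + 2) ^ 2 ≤ (M ^ 2) ^ 2 := Nat.pow_le_pow_left (by nlinarith) 2
          _ = M ^ 4 := by ring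
      calc 2 * ((M ^ xhop + 1) * M ^ xL) * (2 * (m + 2) ^ 2)
          = 4 * (M ^ xhop + 1) * M ^ xL * (m + 2) ^ 2 := by ring
        _ ≤ M * M ^ (xhop + 1) * M ^ xL * M ^ 4 :=
            Nat.mul_le_mul (Nat.mul_le_mul (Nat.mul_le_mul hM4 e1) le_rfl) e2
        _ = M ^ (xhop + xL + 6) := by ring
        _ ≤ M ^ (xhop + xL + 10) := Nat.pow_le_pow_right (by omega) (by omega)
    exact_mod_cast hnat
  · have hM1 : (1 : ℝ≥0∞) ≤ ((MM m n σ : ℕ) : ℝ≥0∞) := by exact_mod_cast (by omega : 1 ≤ MM m n σ)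
    have hunion := bad_union (law1 Abar bbar σ) feaO (M := MM m n σ) (n := n) (by omega) (by omega)
      (BadE m n σ Abar bbar) (fun i => ?_)
    · refine hunion.trans ?_
      calc law1 Abar bbar σ (feaO : Set (Om m n))
          = 1 * law1 Abar bbar σ (feaO : Set (Om m n)) := (one_mul _).symm
        _ ≤ _ := by gcongr; exact one_le_pow₀ hM1
    · fin_cases i
      · -- sizes
        refine (sizes_law (by omega) (by omega) Abar bbar hσ hσ1 hb).trans ?_
        gcongr
        exact exp_le_pow (by omega) (by unfold MM; omega)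
      · -- near tight rows
        refine (nearBad_law (by omega) Abar bbar hσ hA hb (cc1 m n) (vv1 m n σ) (nNr n)
          (by positivity)).trans ?_
        gcongr
        refine near_pow (by omega) hmM (by omega) ?_
        unfold xce nNr
        omega
      · -- determinants
        refine (det_law (by omega) hm Abar bbar hσ hA hb (cc1 m n) (vv1 m n σ) (2 * n)).trans ?_
        exact le_rfl
      · -- the hub
        refine (law_hub Abar bbar σ (cc1 m n) (vv1 m n σ) _ _ (by positivity) (nHub n + 1)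
          (((MM m n σ : ℕ) : ℝ≥0)⁻¹ ^ 6) ?_ (fun r => rfl)).trans ?_
        · have : ((MM m n σ : ℕ) : ℝ≥0) ≠ 0 := by exact_mod_cast (by omega : MM m n σ ≠ 0)
          positivity
        · gcongr
          refine hub_pow (by omega) (by omega) ?_
          unfold xtau nHub
          omega
      · exact HP m n hn hm σ hσ hσ1 Abar bbar hA hb

end Pool.Agent.Lib.S3.PL
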