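import Pool.Agent.Lib.S3.PL.Law

/-!
# Sizes: the box of all coordinates

`cc1 = 3 / 2`, `vv1 = MM⁻⁶`: centres and variances of the coins; `Rb1`: radius `MM³` on the rows, `1/2`
on the coins. `sizes_law`: outside an event of probability `exp (-MM⁴)` relative to feasibility all
coordinates are within `Rb1` of their centres.
-/

set_option autoImplicit false

open MeasureTheory ProbabilityTheory Set
open scoped ENNReal NNReal

namespace Pool.Agent.Lib.S3.PL

open Pool.Agent.Lib.SHirsch.Pay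

/-- The centres of the coins. -/
noncomputable def cc1 (m n : ℕ) : Co m n → ℝ := fun _ => 3 / 2

/-- The variances of the coins. -/
noncomputable def vv1 (m n : ℕ) (σ : ℝ) : Co m n → ℝ≥0 :=
  fun _ => ((MM m n σ : ℕ) : ℝ≥0)⁻¹ ^ 6

/-- The radii of the box. -/
noncomputable def Rb1 (m n : ℕ) (σ : ℝ) : Co m n → ℝ
  | .row _ _ => ((MM m n σ : ℕ) : ℝ) ^ 3
  | .eta _ => 1 / 2
  | .nu _ _ => 1 / 2
  | .om _ _ _ => 1 / 2
  | .gi _ _ => 1 / 2
  | .hub _ => 1 / 2

/-- The law with the standard coins. -/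
noncomputable abbrev law1 {m n : ℕ} (Abar : Fin m → Fin n → ℝ) (bbar : Fin m → ℝ) (σ : ℝ) :
    Measure (Om m n) := law Abar bbar σ (cc1 m n) (vv1 m n σ)

theorem MM_pos (m n : ℕ) (σ : ℝ) : 0 < MM m n σ := by unfold MM; omega

theorem le_MM_sigma (m n : ℕ) (σ : ℝ) : 1 / σ ≤ (MM m n σ : ℝ) := by
  refine (Nat.le_ceil (1 / σ)).trans ?_
  have : ⌈1 / σ⌉₊ ≤ MM m n σ := by unfold MM; omega
  exact_mod_cast this

theorem five_le_MM {m n : ℕ} (hn : 1 ≤ n) (hm : 1 ≤ m) {σ : ℝ} (hσ : 0 < σ) :
    5 ≤ MM m n σ := by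
  have : 0 < ⌈1 / σ⌉₊ := Nat.ceil_pos.2 (by positivity)
  unfold MM
  omega

/-- The number of coordinates. -/
theorem card_Co (m n : ℕ) (σ : ℝ) : (Fintype.card (Co m n) : ℝ) ≤ 2 * (MM m n σ : ℝ) ^ 2 := by
  have h1 : Fintype.card (Co m n) = m * (n + 1) + ((m + 1) + (2 * m + (2 * ((m + 1) * (n + 1)) +
      (m * (m + 1) + (m + 1))))) := by
    let e : Co m n ≃ (Fin m × Fin (n + 1)) ⊕ (Option (Fin m) ⊕ ((Bool × Fin m) ⊕
        ((Bool × (Option (Fin m) × Fin (n + 1))) ⊕ ((Fin m × Option (Fin m)) ⊕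
          Option (Fin m))))) :=
      { toFun := fun c => match c with
          | .row r j => .inl (r, j)
          | .eta r => .inr (.inl r)
          | .nu s j => .inr (.inr (.inl (s, j)))
          | .om s r l => .inr (.inr (.inr (.inl (s, (r, l)))))
          | .gi i r => .inr (.inr (.inr (.inr (.inl (i, r)))))
          | .hub r => .inr (.inr (.inr (.inr (.inr r))))
        invFun := fun c => match c with
          | .inl (r, j) => .row r j
          | .inr (.inl r) => .eta r
          | .inr (.inr (.inl (s, j))) => .nu s j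
          | .inr (.inr (.inr (.inl (s, (r, l))))) => .om s r l
          | .inr (.inr (.inr (.inr (.inl (i, r))))) => .gi i r
          | .inr (.inr (.inr (.inr (.inr r)))) => .hub r
        left_inv := fun c => by cases c <;> rfl
        right_inv := fun c => by
          rcases c with ⟨r, j⟩ | r | ⟨s, j⟩ | ⟨s, r, l⟩ | ⟨i, r⟩ | r <;> rfl }
    rw [Fintype.card_congr e]
    simp only [Fintype.card_sum, Fintype.card_prod, Fintype.card_fin, Fintype.card_option,
      Fintype.card_bool]
  have hM : (2 : ℝ) + m + n ≤ (MM m n σ : ℝ) := by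
    have : 2 + m + n ≤ MM m n σ := by unfold MM; omega
    exact_mod_cast this
  rw [h1]
  push_cast
  have hm0 : (0 : ℝ) ≤ m := Nat.cast_nonneg _
  have hn0 : (0 : ℝ) ≤ n := Nat.cast_nonneg _
  have h2 : ((2 : ℝ) + m + n) ^ 2 ≤ (MM m n σ : ℝ) ^ 2 := pow_le_pow_left₀ (by positivity) hM 2
  nlinarith [mul_nonneg hm0 hn0]

theorem card_mea (m n : ℕ) (σ : ℝ) :
    (Fintype.card ((Fin m × Fin (n + 1)) ⊕ Kc m n) : ℝ) ≤ 2 * (MM m n σ : ℝ) ^ 2 := by
  refine le_trans ?_ (card_Co m n σ)
  have h : Fintype.card ((Fin m × Fin (n + 1)) ⊕ Kc m n) ≤ Fintype.card (Co m n) := by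
    apply Fintype.card_le_of_injective (Sum.elim
      (fun p : Fin m × Fin (n + 1) => (.row p.1 p.2 : Co m n)) (fun k => k.1))
    intro a b hab
    cases a with
    | inl p =>
      cases b with
      | inl q =>
        obtain ⟨p1, p2⟩ := p
        obtain ⟨q1, q2⟩ := q
        simp only [Sum.elim_inl, Co.row.injEq] at hab
        rw [hab.1, hab.2]
      | inr k => exact absurd hab.symm (k.2 _ _)
    | inr k =>
      cases b with
      | inl q => exact absurd hab (k.2 _ _)
      | inr l =>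
        congr 1
        exact Subtype.ext hab
  exact_mod_cast h

/-- **Sizes.** -/
theorem sizes_law {m n : ℕ} (hn : 1 ≤ n) (hm : 1 ≤ m) (Abar : Fin m → Fin n → ℝ)
    (bbar : Fin m → ℝ) {σ : ℝ} (hσ : 0 < σ) (hσ1 : σ ≤ 1) (hb : ∑ i, bbar i ^ 2 ≤ 1) :
    law1 Abar bbar σ {ω | ∃ c, Rb1 m n σ c ≤ |ω c - ctr Abar bbar (cc1 m n) c|} ≤
      ENNReal.ofReal (Real.exp (-(MM m n σ : ℝ) ^ 4)) *
        law1 Abar bbar σ (feaO : Set (Om m n)) := by
  set M : ℝ := (MM m n σ : ℝ) with hMdef
  have hM5 : (5 : ℝ) ≤ M := by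
    rw [hMdef]
    exact_mod_cast five_le_MM hn hm hσ
  have hMs : 1 / σ ≤ M := le_MM_sigma m n σ
  have hMm : (m : ℝ) ≤ M := by
    rw [hMdef]
    have : m ≤ MM m n σ := by unfold MM; omega
    exact_mod_cast this
  have hcard := card_mea m n σ
  rw [← hMdef] at hcard
  have hto := toMea_law Abar bbar σ (cc1 m n) (vv1 m n σ)
  -- the radii in the coordinates of `mea`
  have key := sizes Abar bbar hσ hb (fun k : Kc m n => cc1 m n k.1)
    (fun k : Kc m n => vv1 m n σ k.1)
    (Sum.elim (fun _ => M ^ 3) (fun _ => 1 / 2)) (by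
      intro i
      cases i with
      | inl p =>
        change 0 ≤ M ^ 3
        positivity
      | inr k =>
        change (0 : ℝ) ≤ 1 / 2
        norm_num) (M ^ 4) (by
      intro i
      have hs2 : 1 / σ ^ 2 ≤ M ^ 2 := by
        rw [one_div, ← inv_pow, ← one_div]
        exact pow_le_pow_left₀ (by positivity) hMs 2
      have hleft : M ^ 4 + 2 * (Fintype.card ((Fin m × Fin (n + 1)) ⊕ Kc m n) : ℝ) +
          2 * (m : ℝ) + 1 / σ ^ 2 ≤ M ^ 6 / 8 := by
        have h4 : M ^ 6 = M ^ 4 * M ^ 2 := by ring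
        have h5 : 25 * M ^ 2 ≤ M ^ 4 := by
          have : 25 ≤ M ^ 2 := by nlinarith
          nlinarith [sq_nonneg M]
        have h6 : 25 * M ^ 4 ≤ M ^ 6 := by
          rw [h4]
          have : 25 ≤ M ^ 2 := by nlinarith
          nlinarith [pow_nonneg (by linarith : (0 : ℝ) ≤ M) 4]
        have h7 : M ≤ M ^ 2 := by nlinarith
        nlinarith
      refine hleft.trans ?_
      cases i with
      | inl p =>
        change M ^ 6 / 8 ≤ (M ^ 3) ^ 2 / (2 * (((σ ^ 2).toNNReal : ℝ≥0) : ℝ))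
        rw [Real.coe_toNNReal _ (by positivity)]
        rw [div_le_div_iff₀ (by norm_num) (by positivity)]
        have : σ ^ 2 ≤ 1 := by nlinarith
        have h8 : 0 ≤ M ^ 6 := by positivity
        nlinarith
      | inr k =>
        change M ^ 6 / 8 ≤ (1 / 2) ^ 2 / (2 * ((((MM m n σ : ℕ) : ℝ≥0)⁻¹ ^ 6 : ℝ≥0) : ℝ))
        push_cast
        rw [← hMdef]
        have hM0 : 0 < M := by linarith
        apply le_of_eq
        field_simp
        norm_num)
  have hsub : {ω : Om m n | ∃ c, Rb1 m n σ c ≤ |ω c - ctr Abar bbar (cc1 m n) c|} =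
      toMea ⁻¹' {w | ∃ i, (Sum.elim (fun _ => M ^ 3) (fun _ => 1 / 2) :
        (Fin m × Fin (n + 1)) ⊕ Kc m n → ℝ) i ≤
          |w i - cen Abar bbar (fun k : Kc m n => cc1 m n k.1) i|} := by
    ext ω
    simp only [Set.mem_preimage, Set.mem_ofPred_eq]
    constructor
    · rintro ⟨c, hc⟩
      cases c with
      | row r j =>
        refine ⟨.inl (r, j), ?_⟩
        change M ^ 3 ≤ |-ω (.row r j) - (Fin.cons (-(bbar r)) (Abar r) : Fin (n + 1) → ℝ) j|
        have h1 : -ω (.row r j) - (Fin.cons (-(bbar r)) (Abar r) : Fin (n + 1) → ℝ) j =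
            -(ω (.row r j) - (Fin.cons (bbar r) (fun j => -Abar r j) : Fin (n + 1) → ℝ) j) := by
          refine Fin.cases ?_ (fun j => ?_) j
          · rw [Fin.cons_zero, Fin.cons_zero]
            ring
          · rw [Fin.cons_succ, Fin.cons_succ]
            ring
        rw [h1, abs_neg]
        exact hc
      | eta r => exact ⟨.inr ⟨.eta r, fun _ _ h => by cases h⟩, hc⟩
      | nu s j => exact ⟨.inr ⟨.nu s j, fun _ _ h => by cases h⟩, hc⟩
      | om s r l => exact ⟨.inr ⟨.om s r l, fun _ _ h => by cases h⟩, hc⟩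
      | gi i r => exact ⟨.inr ⟨.gi i r, fun _ _ h => by cases h⟩, hc⟩
      | hub r => exact ⟨.inr ⟨.hub r, fun _ _ h => by cases h⟩, hc⟩
    · rintro ⟨i, hi⟩
      cases i with
      | inl p =>
        obtain ⟨r, j⟩ := p
        refine ⟨.row r j, ?_⟩
        change M ^ 3 ≤ |ω (.row r j) - (Fin.cons (bbar r) (fun j => -Abar r j) :
          Fin (n + 1) → ℝ) j|
        change M ^ 3 ≤ |-ω (.row r j) - (Fin.cons (-(bbar r)) (Abar r) :
          Fin (n + 1) → ℝ) j| at hi
        have h1 : -ω (.row r j) - (Fin.cons (-(bbar r)) (Abar r) : Fin (n + 1) → ℝ) j =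
            -(ω (.row r j) - (Fin.cons (bbar r) (fun j => -Abar r j) : Fin (n + 1) → ℝ) j) := by
          refine Fin.cases ?_ (fun j => ?_) j
          · rw [Fin.cons_zero, Fin.cons_zero]
            ring
          · rw [Fin.cons_succ, Fin.cons_succ]
            ring
        rw [h1, abs_neg] at hi
        exact hi
      | inr k =>
        obtain ⟨c, hc⟩ := k
        refine ⟨c, ?_⟩
        cases c with
        | row r j => exact absurd rfl (hc r j)
        | eta r => exact hi
        | nu s j => exact hi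
        | om s r l => exact hi
        | gi i r => exact hi
        | hub r => exact hi
  have hle := Measure.le_map_apply (μ := law1 Abar bbar σ) hto.measurable.aemeasurable
    {w | ∃ i, (Sum.elim (fun _ => M ^ 3) (fun _ => 1 / 2) :
        (Fin m × Fin (n + 1)) ⊕ Kc m n → ℝ) i ≤
          |w i - cen Abar bbar (fun k : Kc m n => cc1 m n k.1) i|}
  rw [hto.map_eq] at hle
  rw [hsub]
  refine hle.trans (key.trans (le_of_eq ?_))
  rw [law_feaO, mea_fea]

end Pool.Agent.Lib.S3.PL
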