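import Pool.Agent.Lib.SHirsch.THin
import Pool.Agent.Lib.S3.ScaleOne
import Pool.Agent.Lib.S3.Fat.Sizes

/-!
# Final: the frozen statement S08587 from the fat theorem

`FatH C N0`: the conclusion of the fat theorem. `final_of_fat`: the frozen
statement from `FatH`.
-/

set_option autoImplicit false

open MeasureTheory ProbabilityTheory Set
open scoped ENNReal NNReal

namespace Pool.Agent.Lib.S3.PL

open Pool.Agent.Lib.SHirsch (noise Gr dm GPos Vert Reach tt mem_tt eq_of_tight GPc point_small)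
open Pool.Agent.Lib.SHirsch.Thin

/-- The conclusion of the fat theorem. -/
def FatH (C N0 : ℕ) : Prop :=
  ∀ m n : ℕ, N0 ≤ n → n + 1 ≤ m → ∀ σ : ℝ, 0 < σ → σ ≤ 1 →
    ∀ (Abar : Fin m → Fin n → ℝ) (bbar : Fin m → ℝ),
    ∑ i, ∑ j, Abar i j ^ 2 ≤ 1 → ∑ i, bbar i ^ 2 ≤ 1 →
    ∃ Bad : Set (Om m n),
      (∀ᵐ ω ∂(law1 Abar bbar σ), ω ∈ (feaO : Set (Om m n)) → ω ∉ Bad →
        ¬ ThinOn ((((MM m n σ : ℕ) : ℝ) ^ 30)⁻¹) Finset.univ (rw' (Am ω) (bm ω)) →
        dm (SHirsch.Pol (Am ω) (bm ω) ∅ Finset.univ) ≤ ((MM m n σ ^ C : ℕ) : ℕ∞)) ∧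
      ((MM m n σ : ℕ) : ℝ≥0∞) ^ (Nat.log 2 n + 5) * law1 Abar bbar σ Bad ≤
        ((MM m n σ : ℕ) : ℝ≥0∞) ^ C * law1 Abar bbar σ (feaO : Set (Om m n))

/-- As many rows as dimensions: at most one vertex. -/
theorem dm_square {n : ℕ} {a : Fin n → Fin n → ℝ} {b : Fin n → ℝ} (hG : GPos a b) :
    dm (SHirsch.Pol a b ∅ Finset.univ) ≤ ((0 : ℕ) : ℕ∞) := by
  apply dm_le_of_reach hG
  intro u v hu hv
  refine ⟨hu, ?_⟩
  have key : ∀ w : Fin n → ℝ, Vert a b ∅ Finset.univ w → ∀ i, a i ⬝ᵥ w = b i := by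
    intro w hw i
    have h1 : tt a b (∅ ∪ Finset.univ) w = Finset.univ := by
      rw [← Finset.card_eq_iff_eq_univ, hw.2, Fintype.card_fin]
    have h2 : i ∈ tt a b (∅ ∪ Finset.univ) w := by
      rw [h1]
      exact Finset.mem_univ i
    rw [mem_tt] at h2
    exact h2.2
  exact eq_of_tight hG (I := Finset.univ) (by rw [Finset.card_univ, Fintype.card_fin])
    fun i _ => by rw [key u hu i, key v hv i]

theorem kk_le' (m n : ℕ) (σ : ℝ) (hn : 1 ≤ n) :
    4 * n * m ^ Nat.clog 2 (4 * n) ≤ MM m n σ ^ (Nat.log 2 n + 5) := by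
  have hM : m ≤ MM m n σ := by unfold MM; omega
  have hN : n ≤ MM m n σ := by unfold MM; omega
  have h1 : 1 ≤ MM m n σ := by unfold MM; omega
  by_cases hm : m = 0
  · subst hm
    have : 0 < Nat.clog 2 (4 * n) := Nat.clog_pos (by norm_num) (by omega)
    rw [zero_pow this.ne', mul_zero]
    exact Nat.zero_le _
  have h4 : 4 ≤ MM m n σ := by unfold MM; omega
  have hc : Nat.clog 2 (4 * n) ≤ Nat.log 2 n + 3 := by
    apply Nat.clog_le_of_le_pow
    have : n < 2 ^ (Nat.log 2 n + 1) := Nat.lt_pow_succ_log_self (by norm_num) n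
    calc 4 * n ≤ 4 * 2 ^ (Nat.log 2 n + 1) := Nat.mul_le_mul_left _ this.le
      _ = 2 ^ (Nat.log 2 n + 3) := by ring
  calc 4 * n * m ^ Nat.clog 2 (4 * n)
      ≤ MM m n σ * MM m n σ * MM m n σ ^ (Nat.log 2 n + 3) := by
        refine Nat.mul_le_mul (Nat.mul_le_mul h4 hN) ?_
        exact (Nat.pow_le_pow_left hM _).trans (Nat.pow_le_pow_right h1 hc)
    _ = MM m n σ ^ (Nat.log 2 n + 5) := by ring

/-- The quasipolynomial bound. -/
theorem dm_kk {m n : ℕ} (hn : 1 ≤ n) (hmn : n ≤ m) {a : Fin m → Fin n → ℝ} {b : Fin m → ℝ}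
    (σ : ℝ) (hG : GPc (Gr a b)) :
    dm (SHirsch.Pol a b ∅ Finset.univ) ≤ ((MM m n σ ^ (Nat.log 2 n + 5) : ℕ) : ℕ∞) := by
  have hps := point_small hn hmn hG
  have h1 : ({ω : Option (Fin m) → Fin (n + 1) → ℝ | SHirsch.Fea Finset.univ ω}.indicator
      (fun _ => (1 : ENNReal)) (Gr a b)) ≤ 1 := Set.indicator_le_self' (fun _ _ => zero_le_one) _
  have h2 : ENat.toENNReal (dm (SHirsch.Pol a b ∅ Finset.univ)) ≤
      ((MM m n σ ^ (Nat.log 2 n + 5) : ℕ) : ENNReal) := by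
    refine hps.trans ((mul_le_mul_right h1 _).trans ?_)
    rw [mul_one]
    exact_mod_cast kk_le' m n σ hn
  have h3 : ((MM m n σ ^ (Nat.log 2 n + 5) : ℕ) : ENNReal) =
      ENat.toENNReal ((MM m n σ ^ (Nat.log 2 n + 5) : ℕ) : ℕ∞) := by
    rw [ENat.toENNReal_coe]
  rw [h3] at h2
  exact ENat.toENNReal_le.1 h2

/-- **The frozen statement from the fat theorem.** -/
theorem final_of_fat (C N0 : ℕ) (H : FatH C N0) :
    ∃ C : ℝ, ∃ k : ℕ, ∀ m n : ℕ, ∀ σ : ℝ, 0 < σ →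
    ∀ Abar : Fin m → Fin n → ℝ, ∀ bbar : Fin m → ℝ,
      ∑ i, ∑ j, Abar i j ^ 2 ≤ 1 → ∑ i, bbar i ^ 2 ≤ 1 →
      ∫⁻ ω : (Fin m → Fin n → ℝ) × (Fin m → ℝ),
          ENat.toENNReal
            (((SimpleGraph.fromRel (fun u v : Fin n → ℝ =>
                IsExtreme ℝ
                  {x : Fin n → ℝ | ∀ i, ∑ j, (Abar i j + ω.1 i j) * x j ≤ bbar i + ω.2 i}
                  (segment ℝ u v))).induce
              (Set.extremePoints ℝ
                {x : Fin n → ℝ | ∀ i, ∑ j, (Abar i j + ω.1 i j) * x j ≤ bbar i + ω.2 i})).ediam)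
        ∂((Measure.pi fun _ : Fin m => Measure.pi fun _ : Fin n =>
              ProbabilityTheory.gaussianReal 0 (σ ^ 2).toNNReal).prod
            (Measure.pi fun _ : Fin m => ProbabilityTheory.gaussianReal 0 (σ ^ 2).toNNReal))
      ≤ ENNReal.ofReal (C * (1 + (m : ℝ) + (n : ℝ) + 1 / σ) ^ k) *
        ((Measure.pi fun _ : Fin m => Measure.pi fun _ : Fin n =>
              ProbabilityTheory.gaussianReal 0 (σ ^ 2).toNNReal).prod
            (Measure.pi fun _ : Fin m => ProbabilityTheory.gaussianReal 0 (σ ^ 2).toNNReal))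
          {ω : (Fin m → Fin n → ℝ) × (Fin m → ℝ) |
            ∃ x : Fin n → ℝ, ∀ i, ∑ j, (Abar i j + ω.1 i j) * x j ≤ bbar i + ω.2 i} := by
  set K : ℕ := C + 15 + (N0 + 5) + 1 with hK
  apply assemble_le_one K
  intro m n hn hmn σ hσ hσ1 Abar bbar hA hb
  have hM1 : 1 ≤ MM m n σ := by unfold MM; omega
  have hM2 : 2 ≤ MM m n σ := by unfold MM; omega
  -- as many rows as dimensions
  rcases Nat.eq_or_lt_of_le hmn with hm | hm
  · subst hm
    refine ⟨∅, ?_, by simp⟩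
    filter_upwards [gpos_noise le_rfl Abar bbar hσ] with ω hG _ _
    refine (dm_square hG).trans ?_
    exact_mod_cast Nat.zero_le _
  -- small dimension
  by_cases hN : n < N0
  · refine ⟨∅, ?_, by simp⟩
    filter_upwards [gpc_noise Abar bbar hσ] with ω hG _ _
    refine (dm_kk hn hmn σ hG).trans ?_
    have h1 : Nat.log 2 n + 5 ≤ K := by
      have := Nat.log_le_self 2 n
      omega
    exact_mod_cast Nat.pow_le_pow_right hM1 h1
  rw [not_lt] at hN
  obtain ⟨B1, hB1, hB1m⟩ := thin_H hn hmn hσ hσ1 Abar bbar hA hb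
  obtain ⟨Bad, hBad, hBadm⟩ := H m n hN hm σ hσ hσ1 Abar bbar hA hb
  obtain ⟨B2, -, hB2m, hB2⟩ := elim_law Abar bbar σ (cc1 m n) (vv1 m n σ) Bad
    (fun ω => ω ∈ feas Abar bbar →
      ¬ ThinOn ((((MM m n σ : ℕ) : ℝ) ^ 30)⁻¹) Finset.univ
          (rw' (fun i j => Abar i j + ω.1 i j) (fun i => bbar i + ω.2 i)) →
      dm (SHirsch.Pol (fun i j => Abar i j + ω.1 i j) (fun i => bbar i + ω.2 i) ∅ Finset.univ) ≤
        ((MM m n σ ^ C : ℕ) : ℕ∞)) (by
      filter_upwards [hBad] with ω hω hnot hf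
      have hf' : ω ∈ (feaO : Set (Om m n)) := by
        simp only [feaO, feas, Set.mem_ofPred_eq] at hf ⊢
        have e2 : ∀ i, bbar i + (toNoise Abar bbar ω).2 i = bm ω i :=
          fun i => congrFun (add_toNoise_snd Abar bbar ω) i
        have e1 : ∀ i, (fun j => Abar i j + (toNoise Abar bbar ω).1 i j) = Am ω i :=
          fun i => congrFun (add_toNoise_fst Abar bbar ω) i
        simpa only [e1, e2] using hf
      rw [add_toNoise_fst, add_toNoise_snd]
      exact hω hf' hnot)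
  refine ⟨B1 ∪ B2, ?_, ?_⟩
  · filter_upwards [hB1, hB2] with ω h1 h2 hf hnot
    rw [Set.mem_union, not_or] at hnot
    by_cases ht : ThinOn ((((MM m n σ : ℕ) : ℝ) ^ 30)⁻¹) Finset.univ
          (rw' (fun i j => Abar i j + ω.1 i j) (fun i => bbar i + ω.2 i))
    · refine (h1 hnot.1 ht).trans ?_
      exact_mod_cast Nat.pow_le_pow_right hM1 (by omega : 15 ≤ K)
    · refine (h2 hnot.2 hf ht).trans ?_
      exact_mod_cast Nat.pow_le_pow_right hM1 (by omega : C ≤ K)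
  · set M : ℝ≥0∞ := ((MM m n σ : ℕ) : ℝ≥0∞) with hMdef
    set F := noise m n σ (feas Abar bbar) with hF
    have h1M : 1 ≤ M := by rw [hMdef]; exact_mod_cast hM1
    have h2M : 2 ≤ M := by rw [hMdef]; exact_mod_cast hM2
    have hp2 : M ^ (Nat.log 2 n + 5) * noise m n σ B2 ≤ M ^ C * F := by
      refine (mul_le_mul_right hB2m _).trans (hBadm.trans (le_of_eq ?_))
      rw [law_feaO]
    calc M ^ (Nat.log 2 n + 5) * noise m n σ (B1 ∪ B2)
        ≤ M ^ (Nat.log 2 n + 5) * (noise m n σ B1 + noise m n σ B2) := by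
          gcongr
          exact measure_union_le _ _
      _ = M ^ (Nat.log 2 n + 5) * noise m n σ B1 + M ^ (Nat.log 2 n + 5) * noise m n σ B2 :=
          mul_add _ _ _
      _ ≤ 2 * F + M ^ C * F := add_le_add hB1m hp2
      _ ≤ M ^ (C + 15) * F + M ^ (C + 15) * F := by
          gcongr
          · refine h2M.trans ?_
            calc M = M ^ 1 := (pow_one M).symm
              _ ≤ M ^ (C + 15) := pow_le_pow_right₀ h1M (by omega)
          · omega
      _ = 2 * M ^ (C + 15) * F := by ring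
      _ ≤ M * M ^ (C + 15) * F := by gcongr
      _ = M ^ (C + 16) * F := by ring
      _ ≤ M ^ K * F := by
          gcongr
          omega

end Pool.Agent.Lib.S3.PL
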