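import Pool.Agent.Lib.S3.Fat.Det

/-!
# Fat / Prob: the union of the bad events

`bad_union`: events of probability at most `M^(-2n)` relative to `F`, `n ≥ 8`, `M ≥ 8`: five of them
together, times `M ^ (log₂ n + 5)`, are at most `F`.
`exp_le_pow`: `exp (-M⁴) ≤ M^(-2n)`. `near_pow`, `hub_pow`, `pair_pow`: the arithmetic of the near
count, of the hub and of the pair machine.
-/

set_option autoImplicit false

open MeasureTheory ProbabilityTheory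
open scoped ENNReal NNReal

namespace Pool.Agent.Lib.S3.PL

/-- **The union of the bad events.** -/
theorem bad_union {Ω : Type*} [MeasurableSpace Ω] (μ : Measure Ω) (F : Set Ω) {M n : ℕ}
    (hM : 8 ≤ M) (hn : 8 ≤ n) (E : Fin 5 → Set Ω)
    (h : ∀ i, μ (E i) ≤ ENNReal.ofReal ((1 / (M : ℝ)) ^ (2 * n)) * μ F) :
    (M : ℝ≥0∞) ^ (Nat.log 2 n + 5) * μ (⋃ i, E i) ≤ μ F := by
  have hM0 : (0 : ℝ) < M := by exact_mod_cast (by omega : 0 < M)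
  have hM8 : (8 : ℝ) ≤ M := by exact_mod_cast hM
  have h1 : μ (⋃ i, E i) ≤ 5 * (ENNReal.ofReal ((1 / (M : ℝ)) ^ (2 * n)) * μ F) := by
    refine (measure_iUnion_fintype_le μ E).trans ?_
    refine (Finset.sum_le_card_nsmul _ _ _ fun i _ => h i).trans (le_of_eq ?_)
    simp
  have h2 : (M : ℝ≥0∞) ^ (Nat.log 2 n + 5) = ENNReal.ofReal ((M : ℝ) ^ (Nat.log 2 n + 5)) := by
    rw [ENNReal.ofReal_pow hM0.le, ENNReal.ofReal_natCast]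
  have h3 : (5 : ℝ≥0∞) = ENNReal.ofReal 5 := by simp
  refine (mul_le_mul_right h1 _).trans ?_
  rw [h2, h3, ← mul_assoc, ← mul_assoc, ← ENNReal.ofReal_mul (by positivity),
    ← ENNReal.ofReal_mul (by positivity)]
  have h4 : (M : ℝ) ^ (Nat.log 2 n + 5) * 5 * (1 / (M : ℝ)) ^ (2 * n) ≤ 1 := by
    have h5 : Nat.log 2 n + 6 ≤ 2 * n := by
      have h6 : Nat.log 2 n < n := Nat.log_lt_self 2 (by omega)
      omega
    have h7 : (M : ℝ) ^ (Nat.log 2 n + 5) * 5 ≤ (M : ℝ) ^ (2 * n) := by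
      calc (M : ℝ) ^ (Nat.log 2 n + 5) * 5 ≤ (M : ℝ) ^ (Nat.log 2 n + 5) * M := by
            apply mul_le_mul_of_nonneg_left _ (by positivity)
            linarith
        _ = (M : ℝ) ^ (Nat.log 2 n + 6) := by ring
        _ ≤ (M : ℝ) ^ (2 * n) := pow_le_pow_right₀ (by linarith) h5
    rw [one_div, inv_pow, ← div_eq_mul_inv, div_le_one (by positivity)]
    exact h7
  calc ENNReal.ofReal ((M : ℝ) ^ (Nat.log 2 n + 5) * 5 * (1 / (M : ℝ)) ^ (2 * n)) * μ F ≤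
        1 * μ F := by
        refine mul_le_mul_left ?_ _
        rw [← ENNReal.ofReal_one]
        exact ENNReal.ofReal_le_ofReal h4
    _ = μ F := one_mul _

/-- `exp (-M⁴) ≤ M^(-2n)` for `n ≤ M`. -/
theorem exp_le_pow {M n : ℕ} (hM : 8 ≤ M) (hn : n ≤ M) :
    Real.exp (-(M : ℝ) ^ 4) ≤ (1 / (M : ℝ)) ^ (2 * n) := by
  have hM0 : (0 : ℝ) < M := by exact_mod_cast (by omega : 0 < M)
  have hM8 : (8 : ℝ) ≤ M := by exact_mod_cast hM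
  have h1 : Real.log M ≤ M := (Real.log_le_sub_one_of_pos hM0).trans (by linarith)
  have h2 : (M : ℝ) ^ (2 * n) ≤ Real.exp ((M : ℝ) ^ 4) := by
    rw [← Real.exp_log (pow_pos hM0 (2 * n)), Real.log_pow]
    apply Real.exp_le_exp.2
    have hn' : (n : ℝ) ≤ M := by exact_mod_cast hn
    push_cast
    have hl0 : 0 ≤ Real.log M := Real.log_nonneg (by linarith)
    calc 2 * (n : ℝ) * Real.log M ≤ 2 * (M : ℝ) * M := by
          apply mul_le_mul (by linarith) h1 hl0 (by positivity)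
      _ = 2 * (M : ℝ) ^ 2 := by ring
      _ ≤ (M : ℝ) ^ 4 := by nlinarith [sq_nonneg (M : ℝ), mul_self_nonneg ((M : ℝ) ^ 2 - 2)]
  rw [Real.exp_neg, one_div, inv_pow]
  exact inv_anti₀ (by positivity) h2

/-- The arithmetic of the near count: threshold `s = M^(-a)` in chart slacks, `B = M³ + 1`. -/
theorem near_pow {M m n k a : ℕ} (hM : 8 ≤ M) (hm : m + 1 ≤ M) (hn : n + 1 ≤ M)
    (ha : 3 * n + 1 + 10 * k ≤ a * k) :
    2 * (M : ℝ≥0∞) ^ (n + k) *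
        ENNReal.ofReal (15 * (M : ℝ) ^ 2 *
          (((M : ℝ) ^ a)⁻¹ * ((n + 1) * (2 * (m + 1) * ((M : ℝ) ^ 3 + 1))))) ^ k ≤
      ENNReal.ofReal ((1 / (M : ℝ)) ^ (2 * n)) := by
  have hM0 : (0 : ℝ) < M := by exact_mod_cast (by omega : 0 < M)
  have hM8 : (8 : ℝ) ≤ M := by exact_mod_cast hM
  have hm' : (m : ℝ) + 1 ≤ M := by exact_mod_cast hm
  have hn' : (n : ℝ) + 1 ≤ M := by exact_mod_cast hn
  -- the factor
  have h1 : 15 * (M : ℝ) ^ 2 * (((M : ℝ) ^ a)⁻¹ * ((n + 1) * (2 * (m + 1) * ((M : ℝ) ^ 3 + 1)))) ≤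
      (M : ℝ) ^ 9 * ((M : ℝ) ^ a)⁻¹ := by
    have h2 : ((n : ℝ) + 1) * (2 * (m + 1) * ((M : ℝ) ^ 3 + 1)) ≤ M * (2 * M * (2 * (M : ℝ) ^ 3)) := by
      have h3 : (M : ℝ) ^ 3 + 1 ≤ 2 * (M : ℝ) ^ 3 := by
        have : (1 : ℝ) ≤ (M : ℝ) ^ 3 := one_le_pow₀ (by linarith)
        linarith
      gcongr
    calc 15 * (M : ℝ) ^ 2 * (((M : ℝ) ^ a)⁻¹ * ((n + 1) * (2 * (m + 1) * ((M : ℝ) ^ 3 + 1)))) ≤
          15 * (M : ℝ) ^ 2 * (((M : ℝ) ^ a)⁻¹ * (M * (2 * M * (2 * (M : ℝ) ^ 3)))) := by gcongr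
      _ = 60 * ((M : ℝ) ^ 7 * ((M : ℝ) ^ a)⁻¹) := by ring
      _ ≤ (M : ℝ) ^ 2 * ((M : ℝ) ^ 7 * ((M : ℝ) ^ a)⁻¹) := by
          apply mul_le_mul_of_nonneg_right _ (by positivity)
          nlinarith
      _ = (M : ℝ) ^ 9 * ((M : ℝ) ^ a)⁻¹ := by ring
  have h4 : ENNReal.ofReal (15 * (M : ℝ) ^ 2 *
      (((M : ℝ) ^ a)⁻¹ * ((n + 1) * (2 * (m + 1) * ((M : ℝ) ^ 3 + 1))))) ^ k ≤
      ENNReal.ofReal (((M : ℝ) ^ 9 * ((M : ℝ) ^ a)⁻¹) ^ k) := by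
    rw [ENNReal.ofReal_pow (by positivity)]
    exact pow_le_pow_left' (ENNReal.ofReal_le_ofReal h1) k
  have h5 : 2 * (M : ℝ≥0∞) ^ (n + k) = ENNReal.ofReal (2 * (M : ℝ) ^ (n + k)) := by
    rw [ENNReal.ofReal_mul (by norm_num), ENNReal.ofReal_pow hM0.le, ENNReal.ofReal_natCast]
    simp
  rw [h5]
  refine (mul_le_mul_right h4 _).trans ?_
  rw [← ENNReal.ofReal_mul (by positivity)]
  apply ENNReal.ofReal_le_ofReal
  rw [one_div, inv_pow, inv_eq_one_div ((M : ℝ) ^ (2 * n)), le_div_iff₀ (by positivity)]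
  have h6 : 2 * (M : ℝ) ^ (n + k) * ((M : ℝ) ^ 9 * ((M : ℝ) ^ a)⁻¹) ^ k * (M : ℝ) ^ (2 * n) =
      2 * (M : ℝ) ^ (3 * n + 10 * k) * ((M : ℝ) ^ (a * k))⁻¹ := by
    rw [mul_pow, ← pow_mul, inv_pow, ← pow_mul]
    have : (M : ℝ) ^ (3 * n + 10 * k) = (M : ℝ) ^ (n + k) * (M : ℝ) ^ (9 * k) * (M : ℝ) ^ (2 * n) := by
      rw [← pow_add, ← pow_add]
      congr 1
      ring
    rw [this]
    ring
  rw [h6, ← div_eq_mul_inv, div_le_one (by positivity)]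
  calc 2 * (M : ℝ) ^ (3 * n + 10 * k) ≤ M * (M : ℝ) ^ (3 * n + 10 * k) := by
        apply mul_le_mul_of_nonneg_right _ (by positivity)
        linarith
    _ = (M : ℝ) ^ (3 * n + 1 + 10 * k) := by ring
    _ ≤ (M : ℝ) ^ (a * k) := pow_le_pow_right₀ (by linarith) ha

/-- The arithmetic of the hub: coins of variance `M⁻⁶`, threshold `τ = M^(-t)`. -/
theorem hub_pow {M m n k t : ℕ} (hM : 8 ≤ M) (hm : m ≤ M) (ht : 2 * n + 5 * k ≤ t * k) :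
    ENNReal.ofReal (2 * m * ((M : ℝ) ^ t)⁻¹ / √(((M : ℝ≥0)⁻¹ ^ 6 : ℝ≥0) : ℝ)) ^ k ≤
      ENNReal.ofReal ((1 / (M : ℝ)) ^ (2 * n)) := by
  have hM0 : (0 : ℝ) < M := by exact_mod_cast (by omega : 0 < M)
  have hM8 : (8 : ℝ) ≤ M := by exact_mod_cast hM
  have hm' : (m : ℝ) ≤ M := by exact_mod_cast hm
  have h0 : √(((M : ℝ≥0)⁻¹ ^ 6 : ℝ≥0) : ℝ) = ((M : ℝ) ^ 3)⁻¹ := by
    push_cast
    rw [show ((M : ℝ)⁻¹) ^ 6 = (((M : ℝ) ^ 3)⁻¹) ^ 2 by rw [inv_pow, inv_pow, ← pow_mul],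
      Real.sqrt_sq (by positivity)]
  rw [h0, div_inv_eq_mul, ← ENNReal.ofReal_pow (by positivity)]
  apply ENNReal.ofReal_le_ofReal
  have h1 : 2 * (m : ℝ) * ((M : ℝ) ^ t)⁻¹ * (M : ℝ) ^ 3 ≤ (M : ℝ) ^ 5 * ((M : ℝ) ^ t)⁻¹ := by
    calc 2 * (m : ℝ) * ((M : ℝ) ^ t)⁻¹ * (M : ℝ) ^ 3 ≤ M * M * ((M : ℝ) ^ t)⁻¹ * (M : ℝ) ^ 3 := by
          gcongr
          linarith
      _ = (M : ℝ) ^ 5 * ((M : ℝ) ^ t)⁻¹ := by ring
  refine (pow_le_pow_left₀ (by positivity) h1 k).trans ?_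
  rw [mul_pow, inv_pow, ← pow_mul, ← pow_mul, one_div, inv_pow, ← div_eq_mul_inv,
    div_le_iff₀ (by positivity), ← div_eq_inv_mul, le_div_iff₀ (by positivity), ← pow_add]
  exact pow_le_pow_right₀ (by linarith) (by omega)

end Pool.Agent.Lib.S3.PL
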