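import Pool.Agent.Lib.S3.PL.GenOpt
import Pool.Agent.Lib.S3.PL.Top

/-!
# Genericity in the form of the FAT theorem (smoothed Hirsch, MP_4a5c02_co)

`ae_gg`: for almost every sample point the chart is in general position and all objectives of the
pair machine `parS` and the hub functional are generic; `gg_optH`: the strict optimum of the hub
functional; `gg_pair`: the strict optima of the pair machine.
-/

set_option autoImplicit false

open MeasureTheory ProbabilityTheory Matrix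
open scoped ENNReal NNReal

namespace Pool.Agent.Lib.S3.PL

open Pool.Agent.Lib.SHirsch.Thin

variable {m n : ℕ}

/-- Genericity of a sample point for the constants of the FAT theorem. -/
def GG (m n : ℕ) (σ : ℝ) (ω : Om m n) : Prop :=
  GenP (parS m n σ) ((MM m n σ : ℝ) ^ xhub) ω

/-- Genericity holds almost surely. -/
theorem ae_gg (hn : 1 ≤ n) (hnm : n ≤ m) (Abar : Fin m → Fin n → ℝ) (bbar : Fin m → ℝ) {σ : ℝ}
    (hσ : 0 < σ) : ∀ᵐ ω ∂(law Abar bbar σ (cc1 m n) (vv1 m n σ)), GG m n σ ω := by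
  have hM : 5 ≤ MM m n σ := five_le_MM hn (hn.trans hnm) hσ
  refine ae_genP_law hnm Abar bbar hσ.ne' (cc1 m n) (vv1 m n σ) ?_ _ ?_ _
  · intro k
    unfold vv1
    refine pow_ne_zero _ (inv_ne_zero ?_)
    exact_mod_cast (show MM m n σ ≠ 0 by omega)
  · exact (parM_ph_pos hM).ne'

/-- General position of the chart. -/
theorem gg_gp (hnm : n ≤ m) {σ : ℝ} {ω : Om m n} (h : GG m n σ ω) :
    Geo.GP (Geo.chA (Am ω) (bm ω) (Nf ω)) (Geo.chB m) {none} :=
  gp_of_rowGen hnm h.row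

/-- The strict optimum of the hub functional. -/
theorem gg_optH (hnm : n ≤ m) {σ : ℝ} {ω : Om m n} (h : GG m n σ ω)
    (heta : ∀ r, 0 < ω (.eta r)) (hne : ∃ p, Leg.Fe (rho ω) (Nf ω) ∅ p) :
    ∃ f, Opt (Nf ω) (rho ω) (fnl ω (cfHub ((MM m n σ : ℝ) ^ xhub) ω)) ∅ ∅ f :=
  h.hhub hnm heta hne

/-- The strict optima of the pair machine. -/
theorem gg_pair (hnm : n ≤ m) {σ : ℝ} {ω : Om m n} (h : GG m n σ ω)
    (heta : ∀ r, 0 < ω (.eta r)) {C : Cf m} (hI : ∀ s, (C.I s).card = n)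
    {u : Fin (n + 1) → ℝ} {s₀ : Bool} (hu : Leg.Fe (rho ω) (Nf ω) (up (C.I s₀)) u)
    (S : St m n) (s : Bool) (i : Fin m) (pos : Pos (parS m n σ)) (hS : Ok (parS m n σ) C S) :
    ∃ e, Opt (Nf ω) (rho ω) (fnl ω (cfP (parS m n σ) C S s i pos ω)) (up S.R) ∅ e :=
  GenP.hgen hnm h heta hI hu S s i pos hS

/-- A point of the polyhedron gives a point of the chart. -/
theorem fe_of_pol {ω : Om m n} (heta : ∀ r, 0 < ω (.eta r))
    (hne : (SHirsch.Pol (Am ω) (bm ω) ∅ Finset.univ).Nonempty) :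
    ∃ p, Leg.Fe (rho ω) (Nf ω) ∅ p := by
  obtain ⟨x, hx⟩ := hne
  have hpos : 0 < Nf ω ⬝ᵥ Geo.hom x := by
    have h1 := Geo.chN_pos (Am ω) (bm ω) heta hx
    have h2 : Nf ω = Geo.chN (Am ω) (bm ω) (fun r => ω (.eta r)) := nf_eq ω
    rw [h2]
    exact h1
  refine ⟨(Nf ω ⬝ᵥ Geo.hom x)⁻¹ • Geo.hom x, fun r => ?_, fun r hr =>
    absurd hr (Finset.notMem_empty r), ?_⟩
  · have h1 := Geo.gr_hom_le (Am ω) (bm ω) hx r
    have h2 : SHirsch.Gr (Am ω) (bm ω) r = -rho ω r := gr_eq ω r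
    rw [h2, neg_dotProduct] at h1
    rw [dotProduct_smul, smul_eq_mul]
    exact mul_nonneg (inv_nonneg.2 hpos.le) (by linarith)
  · rw [dotProduct_smul, smul_eq_mul, inv_mul_cancel₀ hpos.ne']

end Pool.Agent.Lib.S3.PL
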