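import Pool.Agent.Lib.S3.Fat.GG

/-!
# Genericity in the form of `fatH_of` (smoothed Hirsch, MP_4a5c02_co)

`Gn m n ω`: for every natural number `M ≥ 5` all objectives of the pair machine with the parameters
`parM xC0 xcg xce M` and the hub functional are generic at `ω`. `gg_top` is the hypothesis `GG` of
`fatH_of`.
-/

set_option autoImplicit false

open MeasureTheory ProbabilityTheory Matrix
open scoped ENNReal NNReal

namespace Pool.Agent.Lib.S3.PL

open Pool.Agent.Lib.S3.Geo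

variable {m n : ℕ}

/-- Genericity of a sample point. -/
def Gn (m n : ℕ) (ω : Om m n) : Prop :=
  ∀ M : ℕ, 5 ≤ M → GenP (parM xC0 xcg xce M) ((M : ℝ) ^ xhub) ω

theorem Gn.gg {ω : Om m n} (h : Gn m n ω) {σ : ℝ} (hM : 5 ≤ MM m n σ) : GG m n σ ω :=
  h _ hM

theorem Gn.row {ω : Om m n} (h : Gn m n ω) : RowGen ω := (h 5 le_rfl).row

theorem ae_gn (hnm : n ≤ m) (Abar : Fin m → Fin n → ℝ) (bbar : Fin m → ℝ) {σ : ℝ}
    (hσ : 0 < σ) : ∀ᵐ ω ∂(law1 Abar bbar σ), Gn m n ω := by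
  unfold Gn
  rw [ae_all_iff]
  intro M
  by_cases hM : 5 ≤ M
  · have h := ae_genP_law hnm Abar bbar hσ.ne' (cc1 m n) (vv1 m n σ) (by
      intro k
      unfold vv1
      refine pow_ne_zero _ (inv_ne_zero ?_)
      have : MM m n σ ≠ 0 := by unfold MM; omega
      exact_mod_cast this) (parM xC0 xcg xce M) (parM_ph_pos hM).ne' ((M : ℝ) ^ xhub)
    filter_upwards [h] with ω hω _
    exact hω
  · exact Filter.Eventually.of_forall fun ω h => absurd h hM

/-- **The hypothesis `GG` of `fatH_of`.** -/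
theorem gg_top (N0 : ℕ) (hN0 : 1 ≤ N0) : ∀ m n : ℕ, N0 ≤ n → n + 1 ≤ m → ∀ σ : ℝ, 0 < σ →
      ∀ (Abar : Fin m → Fin n → ℝ) (bbar : Fin m → ℝ),
      ∀ᵐ ω ∂(law1 Abar bbar σ), ω ∈ (feaO : Set (Om m n)) → CoinOk ω →
        GP (chA (Am ω) (bm ω) (Nf ω)) (chB m) {none} ∧
        (∃ f, Opt (Nf ω) (rho ω) (fnl ω (cfHub ((MM m n σ : ℝ) ^ xhub) ω)) ∅ ∅ f) ∧
        Gn m n ω := by
  intro m n hn hm σ hσ Abar bbar
  have hM : 5 ≤ MM m n σ := five_le_MM (hN0.trans hn) (by omega) hσ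
  filter_upwards [ae_gn (by omega) Abar bbar hσ] with ω hω hfea hcoin
  have heta : ∀ r, 0 < ω (.eta r) := fun r => lt_of_lt_of_le one_pos (hcoin (.eta r) trivial).1
  refine ⟨gp_of_rowGen (by omega) hω.row, ?_, hω⟩
  refine gg_optH (by omega) (hω.gg hM) heta (fe_of_pol heta ?_)
  obtain ⟨x, hx⟩ := hfea
  exact ⟨x, fun i hi => absurd hi (Finset.notMem_empty i), fun i _ => hx i⟩

/-- The strict optima of the pair machine, in the form of `pair_joined`. -/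
theorem Gn.hgen (hnm : n ≤ m) {σ : ℝ} (hM : 5 ≤ MM m n σ) {ω : Om m n} (h : Gn m n ω)
    (hcoin : CoinOk ω) {C : Cf m} (hI : ∀ s, (C.I s).card = n)
    {u : Fin (n + 1) → ℝ} {s₀ : Bool} (hu : Leg.Fe (rho ω) (Nf ω) (up (C.I s₀)) u)
    (S : St m n) (s : Bool) (i : Fin m) (pos : Pos (parS m n σ)) (hS : Ok (parS m n σ) C S) :
    ∃ e, Opt (Nf ω) (rho ω) (fnl ω (cfP (parS m n σ) C S s i pos ω)) (up S.R) ∅ e :=
  gg_pair hnm (h.gg hM) (fun r => lt_of_lt_of_le one_pos (hcoin (.eta r) trivial).1) hI hu S s i pos hS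

end Pool.Agent.Lib.S3.PL
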