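import Pool.Agent.Lib.S3.PL.Num
import Pool.Agent.Lib.S3.PM.PM3

/-!
# The numbers of the pair lemma (smoothed Hirsch, MP_4a5c02_co)

The wall constant is `M ^ (xw C0 - 1)`, the number of moves is `n / 4`, the wall budget of a side is
`n / 128`, the number of weak rows is `n / 128`, the near count is `n / 256`.
-/

set_option autoImplicit false

namespace Pool.Agent.Lib.S3.PL

/-- The wall constant. -/
theorem num_Mw {C0 cg ce M m : ℕ} (hm : m + 1 ≤ M) (hM : 5 ≤ M) :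
    ((m : ℝ) + 1) * (M : ℝ) ^ (xw C0 - 1) ≤ (parM C0 cg ce M).Mw := by
  have h1 : ((m : ℝ) + 1) ≤ M := by exact_mod_cast hm
  have h2 : (0 : ℝ) < M := M_pos hM
  have h3 : xw C0 - 1 + 1 = xw C0 := by unfold xw; omega
  calc ((m : ℝ) + 1) * (M : ℝ) ^ (xw C0 - 1) ≤ M * (M : ℝ) ^ (xw C0 - 1) :=
        mul_le_mul_of_nonneg_right h1 (pow_nonneg h2.le _)
    _ = (M : ℝ) ^ (xw C0 - 1 + 1) := by rw [pow_succ, mul_comm]
    _ = (parM C0 cg ce M).Mw := by rw [h3]; rfl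

/-- The wall budget. -/
theorem num_wm {C0 cs n : ℕ} (hcs : cs ≤ 8) :
    (cs + 1) * (n + 1) + C0 * n < (xw C0 - 1) * (n / 128 + 1) := by
  have h1 : n + 1 ≤ 128 * (n / 128 + 1) := by omega
  have h2 : xw C0 - 1 = 128 * (C0 + 15) + 127 := by unfold xw; omega
  have h3 : (C0 + 15) * (n + 1) ≤ (C0 + 15) * (128 * (n / 128 + 1)) := Nat.mul_le_mul_left _ h1
  have h4 : (cs + 1) * (n + 1) ≤ 9 * (n + 1) := Nat.mul_le_mul_right _ (by omega)
  calc (cs + 1) * (n + 1) + C0 * n ≤ 9 * (n + 1) + C0 * (n + 1) :=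
        Nat.add_le_add h4 (Nat.mul_le_mul_left _ (by omega))
    _ < 15 * (n + 1) + C0 * (n + 1) := by omega
    _ = (C0 + 15) * (n + 1) := by ring
    _ ≤ (C0 + 15) * (128 * (n / 128 + 1)) := h3
    _ = (128 * (C0 + 15)) * (n / 128 + 1) := by ring
    _ ≤ (xw C0 - 1) * (n / 128 + 1) := by
        rw [h2]
        exact Nat.mul_le_mul_right _ (by omega)

/-- The number of weak rows. -/
theorem num_w {C0 cs n : ℕ} (hcs : cs ≤ 8) :
    (cs + 1) * (n + 1) + C0 * n < xw C0 * (n / 128 + 1) :=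
  lt_of_lt_of_le (num_wm hcs) (Nat.mul_le_mul_right _ (Nat.sub_le _ _))

/-- The cardinalities. -/
theorem num_card {n y0 y1 k : ℕ} (hn : 128 ≤ n) (h0 : y0 ≤ 2 * (n / 256 + n / 128 + 1))
    (h1 : y1 ≤ 2 * (n / 256 + n / 128 + 1)) (hk : n ≤ k + n / 8) :
    y0 + y1 + n / 4 + 2 * (n / 256) ≤ k := by
  omega

/-- The length of the walk between two vertices. -/
irreducible_def lenT (P : Par) (m J : ℕ) : ℕ :=
  (J * (P.K1 * (m + 2) ^ (P.d0 + P.q)) + PM.lenE P ((m + 2) ^ (P.d0 + P.q))) +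
    (J * (P.K1 * (m + 2) ^ (P.d0 + P.q)) + PM.lenE P ((m + 2) ^ (P.d0 + P.q)))

/-- The length of the walk is polynomial. -/
theorem num_len {C0 cg ce M m n : ℕ} (hM : 5 ≤ M) (hm : m + 1 ≤ M) (hnm : n ≤ m) :
    lenT (parM C0 cg ce M) m (n / 4) ≤ M ^ (x1 C0 cg ce + x3 C0 cg ce + 100) := by
  rw [lenT_def]
  have hK1 : (parM C0 cg ce M).K1 ≤ M ^ x1 C0 cg ce :=
    (Nat.le_succ _).trans (parM_K1_le hM)
  have hK3 : (parM C0 cg ce M).K3 ≤ M ^ (x3 C0 cg ce + 1) :=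
    (Nat.le_succ _).trans (parM_K3_le hM)
  have hL : (m + 2) ^ ((parM C0 cg ce M).d0 + (parM C0 cg ce M).q) ≤ M ^ 96 := by
    have h1 : (parM C0 cg ce M).d0 + (parM C0 cg ce M).q = 48 := rfl
    rw [h1]
    have h2 : m + 2 ≤ M ^ 2 := by nlinarith
    calc (m + 2) ^ 48 ≤ (M ^ 2) ^ 48 := Nat.pow_le_pow_left h2 _
      _ = M ^ 96 := by rw [← pow_mul]
  have hn4 : n / 4 ≤ M := by omega
  have hM1 : 1 ≤ M := by omega
  set X := (m + 2) ^ ((parM C0 cg ce M).d0 + (parM C0 cg ce M).q) with hX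
  set K1 := (parM C0 cg ce M).K1 with hK1d
  set K3 := (parM C0 cg ce M).K3 with hK3d
  have e1 : n / 4 * (K1 * X) ≤ M ^ (x1 C0 cg ce + x3 C0 cg ce + 97) := by
    calc n / 4 * (K1 * X) ≤ M * (M ^ x1 C0 cg ce * M ^ 96) :=
          Nat.mul_le_mul hn4 (Nat.mul_le_mul hK1 hL)
      _ = M ^ (x1 C0 cg ce + 97) := by ring
      _ ≤ _ := Nat.pow_le_pow_right hM1 (by omega)
  have e2 : K1 * X ≤ M ^ (x1 C0 cg ce + x3 C0 cg ce + 97) := by
    calc K1 * X ≤ M ^ x1 C0 cg ce * M ^ 96 := Nat.mul_le_mul hK1 hL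
      _ = M ^ (x1 C0 cg ce + 96) := by ring
      _ ≤ _ := Nat.pow_le_pow_right hM1 (by omega)
  have e3 : X ≤ M ^ (x1 C0 cg ce + x3 C0 cg ce + 97) :=
    hL.trans (Nat.pow_le_pow_right hM1 (by omega))
  have e4 : K3 * X ≤ M ^ (x1 C0 cg ce + x3 C0 cg ce + 97) := by
    calc K3 * X ≤ M ^ (x3 C0 cg ce + 1) * M ^ 96 := Nat.mul_le_mul hK3 hL
      _ = M ^ (x3 C0 cg ce + 97) := by ring
      _ ≤ _ := Nat.pow_le_pow_right hM1 (by omega)
  have e5 : PM.lenE (parM C0 cg ce M) X = K1 * X + (X + K3 * X) := rfl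
  rw [e5]
  have e6 : 8 * M ^ (x1 C0 cg ce + x3 C0 cg ce + 97) ≤ M ^ (x1 C0 cg ce + x3 C0 cg ce + 100) := by
    have h1 : 8 ≤ M ^ 3 := by
      calc 8 ≤ 5 ^ 3 := by norm_num
        _ ≤ M ^ 3 := Nat.pow_le_pow_left hM 3
    calc 8 * M ^ (x1 C0 cg ce + x3 C0 cg ce + 97)
        ≤ M ^ 3 * M ^ (x1 C0 cg ce + x3 C0 cg ce + 97) := Nat.mul_le_mul_right _ h1
      _ = M ^ (x1 C0 cg ce + x3 C0 cg ce + 100) := by ring
  omega

end Pool.Agent.Lib.S3.PL
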