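import Pool.Agent.Lib.S3.PointsPow
import Pool.Agent.Lib.S3.WallPow
import Pool.Agent.Lib.S3.PL.LegGeo
import Pool.Agent.Lib.S3.PL.Bounds
import Pool.Agent.Lib.S3.PL.RepB
import Pool.Agent.Lib.S3.Mach.Priv
import Pool.Agent.Lib.S3.PM.Run

/-!
# Prot: the protected columns of a vertex off infinity, and the wall budget

`Prot ω u I Y S4 ny`: `I` is the tight set of `u` (no row at infinity), `Y ⊆ I` has at most `ny`
columns, and every column `i ∈ I - Y` has a deep point in the face `I - Y - i`.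
`prot_exists`: existence, from the determinant bound, the near tight count and a fat point.
`bud_le`: the wall budget.
-/

set_option autoImplicit false

open Matrix

namespace Pool.Agent.Lib.S3.PL

open Pool.Agent.Lib.S3.Mach (near)

variable {m n : ℕ}

/-- Protected columns of a vertex off infinity. -/
structure Prot (ω : Om m n) (u : Fin (n + 1) → ℝ) (I Y : Finset (Fin m)) (S4 : ℝ) (ny : ℕ) :
    Prop where
  vx : VxC ω u
  card : I.card = n
  mem : ∀ i, i ∈ I ↔ rho ω (some i) ⬝ᵥ u = 0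
  YI : Y ⊆ I
  Yc : Y.card ≤ ny
  deep : ∀ i ∈ I, i ∉ Y → ∃ p, Leg.Fe (rho ω) (Nf ω) ∅ p ∧
    (∀ j ∈ I, j ∉ Y → j ≠ i → rho ω (some j) ⬝ᵥ p = 0) ∧ S4 ≤ rho ω (some i) ⬝ᵥ p

/-- A frame of the tight rows of a vertex. -/
theorem exists_frame {ω : Om m n} {u : Fin (n + 1) → ℝ} (hu : VxC ω u) :
    ∃ J : Fin n → Row m, Function.Injective J ∧
      ∀ r, rho ω r ⬝ᵥ u = 0 ↔ ∃ k, J k = r := by
  classical
  have hcard := hu.card_tgt
  let e := (Leg.tgt (rho ω) u).equivFinOfCardEq hcard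
  refine ⟨fun k => (e.symm k : Row m), fun i j hij => ?_, fun r => ⟨fun hr => ?_, ?_⟩⟩
  · exact e.symm.injective (Subtype.ext hij)
  · exact ⟨e ⟨r, Leg.mem_tgt.2 hr⟩, by simp⟩
  · rintro ⟨k, rfl⟩
    exact Leg.mem_tgt.1 (e.symm k).2

/-- The tight columns of a point off infinity. -/
noncomputable def cols (ω : Om m n) (u : Fin (n + 1) → ℝ) : Finset (Fin m) := by
  classical exact Finset.univ.filter (fun i => rho ω (some i) ⬝ᵥ u = 0)

theorem mem_cols {ω : Om m n} {u : Fin (n + 1) → ℝ} {i : Fin m} :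
    i ∈ cols ω u ↔ rho ω (some i) ⬝ᵥ u = 0 := by
  unfold cols
  simp

theorem rho_none_dot' (ω : Om m n) (u : Fin (n + 1) → ℝ) : rho ω none ⬝ᵥ u = u 0 := by
  show (Pi.single 0 1 : Fin (n + 1) → ℝ) ⬝ᵥ u = u 0
  simp

theorem up_cols {ω : Om m n} {u : Fin (n + 1) → ℝ} (hu0 : 0 < u 0) (r : Row m) :
    r ∈ up (cols ω u) ↔ rho ω r ⬝ᵥ u = 0 := by
  match r with
  | none =>
    rw [rho_none_dot']
    constructor
    · intro h
      exact absurd h none_notMem_up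
    · intro h
      exact absurd h hu0.ne'
  | some i => rw [mem_up, mem_cols]

theorem tgt_eq_up {ω : Om m n} {u : Fin (n + 1) → ℝ} (hu0 : 0 < u 0) :
    Leg.tgt (rho ω) u = up (cols ω u) := by
  ext r
  rw [up_cols hu0, Leg.mem_tgt]

theorem card_cols {ω : Om m n} {u : Fin (n + 1) → ℝ} (hu : VxC ω u) (hu0 : 0 < u 0) :
    (cols ω u).card = n := by
  have h := hu.card_tgt
  rw [tgt_eq_up hu0] at h
  unfold up at h
  rwa [Finset.card_map] at h

/-- **Protected columns exist.** -/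
theorem prot_exists {ω : Om m n} (hco : CoinOk ω) {u : Fin (n + 1) → ℝ} (hu : VxC ω u)
    (hu0 : 0 < u 0) (M : ℝ) (c C0 c10 cη cγ w k2 : ℕ) (hM : 2 ≤ M) (hnM : (n : ℝ) + 1 ≤ M)
    (hw : (c + 1) * (n + 1) + C0 * n < c10 * (w + 1))
    (hρ : ∀ r j, |rho ω r j| ≤ M ^ c) (hN : ∀ j, |Nf ω j| ≤ M ^ c)
    (hdet : ∀ e : Fin n → Row m, Function.Injective e → (∀ k, rho ω (e k) ⬝ᵥ u = 0) →
      (M ^ (C0 * n))⁻¹ ≤ |(amat (Nf ω) (rho ω) e).det|)
    (hnear : (near (rho ω) (M ^ cη)⁻¹ u).card ≤ k2)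
    {X : Fin (n + 1) → ℝ} (hNX : Nf ω ⬝ᵥ X = 1) (hX : ∀ r, (M ^ cγ)⁻¹ ≤ rho ω r ⬝ᵥ X) :
    ∃ Y : Finset (Fin m),
      Prot ω u (cols ω u) Y (M ^ (c10 + cη + cγ + 5))⁻¹ (2 * (k2 + w + 1)) := by
  classical
  obtain ⟨J, hJi, hJ⟩ := exists_frame hu
  have hfe := hu.fe
  have hM0 : (0 : ℝ) < M := by linarith
  have hXfe : Leg.Fe (rho ω) (Nf ω) (∅ : Finset (Row m)) X :=
    ⟨fun r => (inv_nonneg.2 (pow_nonneg hM0.le _)).trans (hX r), by simp, hNX⟩
  have hXB : ∑ k, rho ω (J k) ⬝ᵥ X ≤ 1 := by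
    have h1 := sum_slack hco hXfe
    have h2 : ∑ k, rho ω (J k) ⬝ᵥ X = ∑ r ∈ Finset.univ.map ⟨J, hJi⟩, rho ω r ⬝ᵥ X := by
      rw [Finset.sum_map]
      rfl
    rw [h2]
    exact (Finset.sum_le_univ_sum_of_nonneg hXfe.1).trans h1
  obtain ⟨Y, hY1, hY2, hY3⟩ := points_pow (rho ω) (Nf ω) J u X (near (rho ω) (M ^ cη)⁻¹ u) M
    c C0 c10 cη cγ w hM hnM hw hρ hN (hdet J hJi fun k => (hJ _).2 ⟨k, rfl⟩) hfe.2.2
    (fun k => (hJ _).2 ⟨k, rfl⟩) hfe.1 (by
      intro r hr hJr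
      have h0 : rho ω r ⬝ᵥ u ≠ 0 := fun h => by
        obtain ⟨k, hk⟩ := (hJ r).1 h
        exact hJr k hk
      have h1 : 0 < rho ω r ⬝ᵥ u := lt_of_le_of_ne (hfe.1 r) (Ne.symm h0)
      by_contra hcon
      push Not at hcon
      apply hr
      unfold near
      rw [Finset.mem_filter]
      exact ⟨Finset.mem_univ _, h1, hcon.le⟩) hNX hX hXB
  refine ⟨Finset.univ.filter (fun i : Fin m => (some i : Row m) ∈ Y),
    { vx := hu, card := card_cols hu hu0, mem := fun i => mem_cols, YI := ?_, Yc := ?_,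
      deep := ?_ }⟩
  · intro i hi
    rw [Finset.mem_filter] at hi
    obtain ⟨k, hk⟩ := hY1 _ hi.2
    rw [mem_cols, hJ]
    exact ⟨k, hk⟩
  · have h1 : (Finset.univ.filter (fun i : Fin m => (some i : Row m) ∈ Y)).card ≤ Y.card := by
      rw [← Finset.card_map Function.Embedding.some]
      apply Finset.card_le_card
      intro r hr
      obtain ⟨i, hi, rfl⟩ := Finset.mem_map.1 hr
      exact (Finset.mem_filter.1 hi).2
    refine h1.trans (hY2.trans ?_)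
    gcongr
  · intro i hi hiY
    obtain ⟨p, hp1, hp2, hp3, hp4, -, -⟩ := hY3 (insert (some i) Y) (Finset.subset_insert _ _)
    refine ⟨p, ⟨hp2, by simp, hp1⟩, ?_, ?_⟩
    · intro j hj hjY hji
      obtain ⟨k, hk⟩ := (hJ _).1 (mem_cols.1 hj)
      have h1 : J k ∉ insert (some i : Row m) Y := by
        rw [hk, Finset.mem_insert, not_or]
        refine ⟨fun h => hji (Option.some_injective _ h), fun h => hjY ?_⟩
        rw [Finset.mem_filter]
        exact ⟨Finset.mem_univ _, h⟩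
      have := hp3 k h1
      rwa [hk] at this
    · obtain ⟨k, hk⟩ := (hJ _).1 (mem_cols.1 hi)
      have h1 : J k ∈ insert (some i : Row m) Y := by
        rw [hk]
        exact Finset.mem_insert_self _ _
      have := hp4 k h1
      rwa [hk] at this

/-- **The wall budget.** -/
theorem bud_le {ω : Om m n} {C : Cf m} {s : Bool} {u : Fin (n + 1) → ℝ} (hu : VxC ω u)
    (hu0 : 0 < u 0) (hI : C.I s = cols ω u) (M : ℝ) (c C0 cw wm : ℕ) (hM : 2 ≤ M)
    (hnM : (n : ℝ) + 1 ≤ M) (hρ : ∀ r j, |rho ω r j| ≤ M ^ c) (hN : ∀ j, |Nf ω j| ≤ M ^ c)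
    (hdet : ∀ e : Fin n → Row m, Function.Injective e → (∀ k, rho ω (e k) ⬝ᵥ u = 0) →
      (M ^ (C0 * n))⁻¹ ≤ |(amat (Nf ω) (rho ω) e).det|)
    (hwm : (c + 1) * (n + 1) + C0 * n < cw * (wm + 1)) (S : St m n) (k : ℕ)
    (hb : PM.Bud C S ω (M ^ cw) s k) : k ≤ wm := by
  obtain ⟨J, hJi, hJ⟩ := exists_frame hu
  have h1 := wall_budget (rho ω) (Nf ω) (up (C.I s)) (avl C S s) M c C0 cw k hM hnM
    (fun r _ => hρ r) hN J (fun i => by
      rw [hI, up_cols hu0]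
      exact (hJ _).2 ⟨i, rfl⟩) (hdet J hJi fun k => (hJ _).2 ⟨k, rfl⟩) hb
  by_contra hcon
  push Not at hcon
  have h2 : cw * (wm + 1) ≤ cw * k := Nat.mul_le_mul_left _ hcon
  omega

end Pool.Agent.Lib.S3.PL
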