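import Pool.Agent.Lib.S3.PM.Pair
import Pool.Agent.Lib.S3.PL.Top
import Pool.Agent.Lib.S3.Fat.Prot
import Pool.Agent.Lib.S3.Fat.PairNum

/-!
# The pair lemma at a good sample point (smoothed Hirsch, MP_4a5c02_co)

`pair_at`: outside the bad events two chart vertices off infinity with at least `n - n / 8` common
rows are joined by a walk of polynomial length.
-/

set_option autoImplicit false

open Matrix

namespace Pool.Agent.Lib.S3.PL

open Pool.Agent.Lib.S3.Mach (near BadU)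
open Pool.Agent.Lib.S3.Geo
open Pool.Agent.Lib.SHirsch (Gr)

variable {m n : ℕ}

/-- The strict optima which are needed by the pair machine. -/
def GenJ (m n : ℕ) (P : Par) (J : ℕ) (ω : Om m n) : Prop :=
  ∀ (C : Cf m) (u : Bool → Fin (n + 1) → ℝ), (∀ s, (C.I s).card = n) → (∀ s, VxC ω (u s)) →
    (∀ s, ∀ j ∈ C.I s, rho ω (some j) ⬝ᵥ u s = 0) →
    ∀ (S : St m n) s i (pos : Pos P), PM.Rch P C S → Ok P C S → OkCol C S i → S.t < J →
      ∃ e, Opt (Nf ω) (rho ω) (fnl ω (cfP P C S s i pos ω)) (up S.R) ∅ e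

/-- `PM.pair_joined` with a closed form of the length. -/
theorem pair_joinedT {P : Par} {C : Cf m} {ω : Om m n} {c al a kap : ℝ} {E J wm : ℕ}
    {u : Bool → Fin (n + 1) → ℝ} (hP : ParOk P al)
    (hG : GP (cA ω) (chB m) {none})
    (hbd : Bornology.IsBounded (Chart (aOf ω) (bOf ω) (Nf ω)))
    (hc : 1 ≤ c) (hMw : ((m : ℝ) + 1) * c ≤ P.Mw)
    (hη : ∀ r, 1 ≤ ω (.eta r)) (hν : ∀ s j, 0 ≤ ω (.nu s j)) (hom0 : ∀ s r l, 0 ≤ ω (.om s r l))
    (hTh : 0 < P.Th) (hkap : 0 ≤ kap) (hK1 : P.K1 * P.dl ≤ P.Th + kap)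
    (ha : 2 * ((n : ℝ) + 1) + kap ≤ P.Th * a)
    (hval : ∀ (S : St m n) s, Ok P C S → fnl ω (cfG C S s ω) ⬝ᵥ u s ≤ 2 * ((n : ℝ) + 1))
    (hI : ∀ s, (C.I s).card = n) (hu : ∀ s, VxC ω (u s))
    (huI : ∀ s, ∀ j ∈ C.I s, rho ω (some j) ⬝ᵥ u s = 0)
    (hfr : ∀ s, ∃ e0 : Fin n → Row m, (amat (Nf ω) (rho ω) e0).det ≠ 0 ∧
      (∀ k, e0 k ∈ up (C.I s)) ∧ ∀ r ∈ up (C.I s), ∃ k, e0 k = r)
    (hnear : ∀ x, VxC ω x → (near (rho ω) a x).card ≤ E)
    (hwm : ∀ (S : St m n) (s : Bool) (k : ℕ), PM.Bud C S ω c s k → k ≤ wm)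
    (hgen : ∀ (S : St m n) s i (pos : Pos P), PM.Rch P C S → Ok P C S → OkCol C S i → S.t < J →
      ∃ e, Opt (Nf ω) (rho ω) (fnl ω (cfP P C S s i pos ω)) (up S.R) ∅ e)
    (hB : ∀ (S : St m n) s i, Ok P C S → OkCol C S i → S.t < J →
      ∃ p, LegB P C S s i ω al (S.t * PM.dr P al) p)
    (hcard : (C.Y false).card + (C.Y true).card + J + 2 * E ≤ (C.I false ∩ C.I true).card) :
    RcC ω (lenT P m J) (u false) (u true) ∨ ω ∈ BadU (mach P C) J (2 * wm) (st0 P C) := by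
  rw [lenT_def]
  exact PM.pair_joined hP hG hbd hc hMw hη hν hom0 hTh hkap hK1 ha hval hI hu huI hfr hnear hwm
    hgen hB hcard

/-- **The pair lemma at one sample point.** -/
theorem pair_pl {ω : Om m n} {C0 cg ce cs M : ℕ} (hM : 5 ≤ M) (hm : m + 1 ≤ M) (hnm : n ≤ m)
    (hn : 128 ≤ n) (hcs : cs ≤ 8) (hco : CoinOk ω)
    (hρ : ∀ r j, |rho ω r j| ≤ (M : ℝ) ^ cs) (hN : ∀ j, |Nf ω j| ≤ (M : ℝ) ^ cs)
    (hG : GP (cA ω) (chB m) {none})
    (hdet : ∀ u, VxC ω u → 0 < u 0 → ∀ e : Fin n → Row m, Function.Injective e →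
      (∀ k, rho ω (e k) ⬝ᵥ u = 0) → ((M : ℝ) ^ (C0 * n))⁻¹ ≤ |(amat (Nf ω) (rho ω) e).det|)
    (hnear : ∀ x, VxC ω x → (near (rho ω) ((M : ℝ) ^ ce)⁻¹ x).card ≤ n / 256)
    {X : Fin (n + 1) → ℝ} (hNX : Nf ω ⬝ᵥ X = 1)
    (hX : ∀ r, ((M : ℝ) ^ cg)⁻¹ ≤ rho ω r ⬝ᵥ X)
    (hgen : GenJ m n (parM C0 cg ce M) (n / 4) ω)
    (hbad : ω ∉ BadC m n (parM C0 cg ce M) (n / 4) (2 * (n / 128)))
    {u v : Fin (n + 1) → ℝ} (hu : VxC ω u) (hu0 : 0 < u 0) (hv : VxC ω v) (hv0 : 0 < v 0)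
    (huv : n ≤ (cols ω u ∩ cols ω v).card + n / 8) :
    RcC ω (lenT (parM C0 cg ce M) m (n / 4)) u v := by
  have hM2 : (2 : ℝ) ≤ M := by have := M_five hM; linarith
  have hnM : n + 1 ≤ M := by omega
  have hnM' : (n : ℝ) + 1 ≤ M := by exact_mod_cast hnM
  have hM0 : (0 : ℝ) < M := M_pos hM
  have hS4 : ((M : ℝ) ^ (xw C0 + ce + cg + 5))⁻¹ = s4M C0 cg ce M := rfl
  -- protected columns
  obtain ⟨Yu, hYu⟩ := prot_exists hco hu hu0 M cs C0 (xw C0) ce cg (n / 128) (n / 256) hM2 hnM'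
    (num_w hcs) hρ hN (fun e => hdet u hu hu0 e) (hnear u hu) hNX hX
  obtain ⟨Yv, hYv⟩ := prot_exists hco hv hv0 M cs C0 (xw C0) ce cg (n / 128) (n / 256) hM2 hnM'
    (num_w hcs) hρ hN (fun e => hdet v hv hv0 e) (hnear v hv) hNX hX
  rw [hS4] at hYu hYv
  -- the configuration
  let C : Cf m := { I := fun s => if s then cols ω v else cols ω u
                    Y := fun s => if s then Yv else Yu }
  let w : Bool → Fin (n + 1) → ℝ := fun s => if s then v else u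
  have hP : ∀ s, Prot ω (w s) (C.I s) (C.Y s) (s4M C0 cg ce M)
      (2 * (n / 256 + n / 128 + 1)) := by
    intro s
    cases s
    · exact hYu
    · exact hYv
  have hw0 : ∀ s, 0 < w s 0 := by
    intro s
    cases s
    · exact hu0
    · exact hv0
  have hCI : ∀ s, C.I s = cols ω (w s) := by
    intro s
    cases s <;> rfl
  have hI : ∀ s, (C.I s).card = n := fun s => (hP s).card
  have hvx : ∀ s, VxC ω (w s) := fun s => (hP s).vx
  have huI : ∀ s, ∀ j ∈ C.I s, rho ω (some j) ⬝ᵥ w s = 0 := fun s j hj => ((hP s).mem j).1 hj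
  have hη : ∀ r, 1 ≤ ω (.eta r) := fun r => (hco (.eta r) trivial).1
  have hbd : Bornology.IsBounded (Chart (aOf ω) (bOf ω) (Nf ω)) := by
    have h1 := chart_bounded (a := aOf ω) (b := bOf ω) (w := fun r => ω (.eta r)) hnm
      (fun o => lt_of_lt_of_le one_pos (hη o)) (by rw [← nf_eq]; exact hG)
    rwa [← nf_eq] at h1
  have hTh : 0 < (parM C0 cg ce M).Th := parM_Th_pos hM
  -- frames
  have hfr : ∀ s, ∃ e0 : Fin n → Row m, (amat (Nf ω) (rho ω) e0).det ≠ 0 ∧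
      (∀ k, e0 k ∈ up (C.I s)) ∧ ∀ r ∈ up (C.I s), ∃ k, e0 k = r := by
    intro s
    obtain ⟨J, hJi, hJ⟩ := exists_frame (hvx s)
    refine ⟨J, ?_, ?_, ?_⟩
    · have h1 := hdet (w s) (hvx s) (hw0 s) J hJi fun k => (hJ _).2 ⟨k, rfl⟩
      have h2 : 0 < ((M : ℝ) ^ (C0 * n))⁻¹ := inv_pos.2 (pow_pos hM0 _)
      exact abs_pos.1 (h2.trans_le h1)
    · intro k
      rw [hCI, up_cols (hw0 s)]
      exact (hJ _).2 ⟨k, rfl⟩
    · intro r hr
      rw [hCI, up_cols (hw0 s)] at hr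
      exact (hJ _).1 hr
  have hval : ∀ (S : St m n) s, Ok (parM C0 cg ce M) C S →
      fnl ω (cfG C S s ω) ⬝ᵥ w s ≤ 2 * ((n : ℝ) + 1) := by
    intro S s _
    have h1 := val_vertex hco C S s (hvx s).fe (huI s)
    linarith
  have key := pair_joinedT (P := parM C0 cg ce M) (C := C) (ω := ω) (c := (M : ℝ) ^ (xw C0 - 1))
    (al := alM C0 cg ce M) (a := ((M : ℝ) ^ ce)⁻¹) (kap := kaM C0 cg ce M) (E := n / 256)
    (J := n / 4) (wm := n / 128) (u := w) (parOk_parM hM) hG hbd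
    (one_le_pow₀ (M_one hM)) (num_Mw hm hM) hη
    (fun s j => zero_le_one.trans (hco (.nu s j) trivial).1)
    (fun s r l => zero_le_one.trans (hco (.om s r l) trivial).1) hTh (kaM_pos hM).le
    (le_of_eq (parM_K1_dl hM)) (by
      have h1 := parM_priv (C0 := C0) (cg := cg) (ce := ce) hM hnM
      linarith) hval hI hvx huI hfr hnear
    (by
      intro S s k hb
      exact bud_le (hvx s) (hw0 s) (hCI s) M cs C0 (xw C0 - 1) (n / 128) hM2 hnM' hρ hN
        (fun e => hdet (w s) (hvx s) (hw0 s) e) (num_wm hcs) S k hb)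
    (fun S s i pos hr hok hi hJ => hgen C w hI hvx huI S s i pos hr hok hi hJ)
    (by
      intro S s i hok hi hJ
      have hiI : i ∈ C.I s := by
        cases s
        · exact hi.1
        · exact hi.2.1
      have hiY : i ∉ C.Y s := by
        cases s
        · exact hi.2.2.2.2.1
        · exact hi.2.2.2.2.2
      obtain ⟨p, hp1, hp2, hp3⟩ := (hP s).deep i hiI hiY
      exact ⟨p, legB_parM' hM hnM (hI false) hok s hi.2.2.1 hco hp1 hp2 hp3⟩)
    (by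
      have h1 : (C.Y false).card ≤ 2 * (n / 256 + n / 128 + 1) := (hP false).Yc
      have h2 : (C.Y true).card ≤ 2 * (n / 256 + n / 128 + 1) := (hP true).Yc
      exact num_card hn h1 h2 huv)
  have hwf : w false = u := rfl
  have hwt : w true = v := rfl
  rw [hwf, hwt] at key
  rcases key with h | h
  · exact h
  · exfalso
    have hb := notMem_BadU_of_notMem_BadC (C := C) hbad (fun s => ⟨hI s, (hP s).YI⟩)
    exact hb h

/-- The common rows in the two descriptions. -/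
theorem card_tig_inter {ω : Om m n} {u v : Fin (n + 1) → ℝ} (hu : 0 < u 0) (hv : 0 < v 0) :
    (Hop.tig (Hop.slk (Am ω) (bm ω)) u ∩ Hop.tig (Hop.slk (Am ω) (bm ω)) v).card =
      (cols ω u ∩ cols ω v).card := by
  classical
  have h1 : Hop.tig (Hop.slk (Am ω) (bm ω)) u ∩ Hop.tig (Hop.slk (Am ω) (bm ω)) v =
      up (cols ω u ∩ cols ω v) := by
    ext r
    rw [Finset.mem_inter, Hop.mem_tig, Hop.mem_tig, ← rho_slk, ← rho_slk, ← up_cols hu,
      ← up_cols hv, mem_up', mem_up', mem_up']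
    constructor
    · rintro ⟨⟨j, hj, rfl⟩, ⟨i, hi, hij⟩⟩
      have h2 : i = j := Option.some_injective _ hij
      subst h2
      exact ⟨i, Finset.mem_inter.2 ⟨hj, hi⟩, rfl⟩
    · rintro ⟨j, hj, rfl⟩
      rw [Finset.mem_inter] at hj
      exact ⟨⟨j, hj.1, rfl⟩, ⟨j, hj.2, rfl⟩⟩
  rw [h1]
  unfold up
  rw [Finset.card_map]

/-- **The pair lemma at a good sample point.** -/
theorem pair_at {σ : ℝ} {ω : Om m n} (h : GoodW m n σ ω) (hgen : GenJ m n (parS m n σ) (nJ n) ω) :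
    PairAt ω (lenT (parS m n σ) m (nJ n)) (nKap n) := by
  have hM := h.M5
  have hM1 : (1 : ℝ) ≤ MM m n σ := M_one hM
  have hM5 : (5 : ℝ) ≤ MM m n σ := M_five hM
  have hM0 : (0 : ℝ) < MM m n σ := M_pos hM
  have hn := h.n512
  have hnm := h.nm
  have hη : ∀ r, 1 ≤ ω (.eta r) := fun r => (h.eta1 r).1
  have hmM : ((m : ℝ) + 1) ≤ MM m n σ := by exact_mod_cast h.mM
  -- sizes
  have hB : (MM m n σ : ℝ) ^ 3 + 1 ≤ (MM m n σ : ℝ) ^ 4 := by
    have h1 : 1 ≤ (MM m n σ : ℝ) ^ 3 := one_le_pow₀ hM1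
    have h2 : (MM m n σ : ℝ) ^ 4 = (MM m n σ : ℝ) ^ 3 * MM m n σ := by ring
    rw [h2]
    nlinarith
  have hρ : ∀ r j, |rho ω r j| ≤ (MM m n σ : ℝ) ^ 6 := fun r j =>
    (h.row r j).trans (hB.trans (pow_le_pow_right₀ hM1 (by norm_num)))
  have hN : ∀ j, |Nf ω j| ≤ (MM m n σ : ℝ) ^ 6 := by
    intro j
    have h1 := abs_Nf_le (B := (MM m n σ : ℝ) ^ 3 + 1) h.row
      (fun r => by rw [abs_of_nonneg (zero_le_one.trans (hη r))]; exact (h.eta1 r).2) j
    refine h1.trans ?_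
    calc 2 * ((m : ℝ) + 1) * ((MM m n σ : ℝ) ^ 3 + 1)
        ≤ (MM m n σ : ℝ) ^ 2 * (MM m n σ : ℝ) ^ 4 := by
          apply mul_le_mul _ hB (by positivity) (by positivity)
          nlinarith
      _ = (MM m n σ : ℝ) ^ 6 := by ring
  -- determinants
  have hdet : ∀ u, VxC ω u → 0 < u 0 → ∀ e : Fin n → Row m, Function.Injective e →
      (∀ k, rho ω (e k) ⬝ᵥ u = 0) →
      ((MM m n σ : ℝ) ^ (xC0 * n))⁻¹ ≤ |(amat (Nf ω) (rho ω) e).det| := by
    intro u hu hu0 e he ht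
    have h1 := det_of_notMem (ω := ω) h.det hη hu0 hu.fe.1 he ht
    refine le_trans ?_ h1.le
    rw [one_div, inv_pow]
    refine inv_anti₀ (pow_pos hM0 _) (pow_le_pow_right₀ hM1 ?_)
    unfold xC0
    omega
  -- near rows
  have hnear : ∀ x, VxC ω x →
      (near (rho ω) ((MM m n σ : ℝ) ^ xce)⁻¹ x).card ≤ n / 256 := by
    intro x hx
    classical
    have h1 := near_of_not_bad (ω := ω) (B := (MM m n σ : ℝ) ^ 3 + 1)
      (s := ((MM m n σ : ℝ) ^ xce)⁻¹) (by positivity) (by positivity) h.row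
      (fun r => by rw [abs_of_nonneg (zero_le_one.trans (hη r))]; exact (h.eta1 r).2)
      h.near hx.fe.2.2 hx.fe.1 (Leg.tgt (rho ω) x) hx.card_tgt.ge
      (fun r hr => Leg.mem_tgt.1 hr)
      (Finset.univ.filter (fun i : Fin m => 0 < rho ω (some i) ⬝ᵥ x ∧
        rho ω (some i) ⬝ᵥ x ≤ ((MM m n σ : ℝ) ^ xce)⁻¹))
      (fun i hi => (Finset.mem_filter.1 hi).2)
    have h2 : near (rho ω) ((MM m n σ : ℝ) ^ xce)⁻¹ x ⊆
        insert none ((Finset.univ.filter (fun i : Fin m => 0 < rho ω (some i) ⬝ᵥ x ∧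
        rho ω (some i) ⬝ᵥ x ≤ ((MM m n σ : ℝ) ^ xce)⁻¹)).map Function.Embedding.some) := by
      intro r hr
      unfold near at hr
      rw [Finset.mem_filter] at hr
      rw [Finset.mem_insert, Finset.mem_map]
      match r, hr with
      | none, _ => exact Or.inl rfl
      | some i, hr => exact Or.inr ⟨i, Finset.mem_filter.2 ⟨Finset.mem_univ _, hr.2⟩, rfl⟩
    have h3 := (Finset.card_le_card h2).trans (Finset.card_insert_le _ _)
    rw [Finset.card_map] at h3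
    have h4 : nNr n = n / 256 := rfl
    rw [h4] at h1
    omega
  -- the deep point
  obtain ⟨X, -, hNX, hX, -⟩ := deep_point (ω := ω) (σ := σ) (by omega) (by omega) h.hσ
    (fun r j => (h.row (some r) j).trans hB)
    (fun r => ⟨by have := hη r; linarith, (h.eta1 r).2⟩) h.thick
  intro u v hu hv hu0 hv0 huv
  rw [card_tig_inter hu0 hv0] at huv
  exact pair_pl (C0 := xC0) (cg := xcg) (ce := xce) (cs := 6) hM h.mM (by omega) (by omega)
    (by norm_num) h.coin hρ hN h.gpc hdet hnear hNX hX hgen h.pair hu hu0 hv hv0 huv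

/-- The length of the walks is polynomial. -/
theorem lenT_le {σ : ℝ} {ω : Om m n} (h : GoodW m n σ ω) :
    lenT (parS m n σ) m (nJ n) ≤
      MM m n σ ^ (x1 xC0 xcg xce + x3 xC0 xcg xce + 100) :=
  num_len h.M5 h.mM (by have := h.nm; omega)

end Pool.Agent.Lib.S3.PL
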