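import Pool.Agent.Lib.S3.Fat.GG
import Pool.Agent.Lib.S3.Fat.PairPL

/-!
# The deterministic pair lemma in the form of the FAT theorem (smoothed Hirsch, MP_4a5c02_co)
-/

set_option autoImplicit false

open Matrix

namespace Pool.Agent.Lib.S3.PL

variable {m n : ℕ}

/-- Longer walks. -/
theorem PairAt.mono {ω : Om m n} {L L' κ : ℕ} (hL : L ≤ L') (h : PairAt ω L κ) :
    PairAt ω L' κ :=
  fun u v hu hv hu0 hv0 huv => Geo.reach_mono hL (h u v hu hv hu0 hv0 huv)

/-- The strict optima of the pair machine. -/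
theorem genJ_of_gg (hnm : n ≤ m) {σ : ℝ} {ω : Om m n} (hg : GG m n σ ω) (hco : CoinOk ω) (J : ℕ) :
    GenJ m n (parS m n σ) J ω := by
  intro C u hI hu huI S s i pos _ hok _ _
  have h1 : Leg.Fe (rho ω) (Nf ω) (up (C.I false)) (u false) := by
    refine ⟨(hu false).fe.1, fun r hr => ?_, (hu false).fe.2.2⟩
    obtain ⟨j, hj, rfl⟩ := mem_up'.1 hr
    exact huI false j hj
  exact gg_pair hnm hg (fun r => lt_of_lt_of_le one_pos (hco (.eta r) trivial).1) hI h1 S s i pos
    hok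

/-- **The deterministic pair lemma.** -/
theorem hd_top (m n : ℕ) (σ : ℝ) (ω : Om m n) (h : GoodW m n σ ω) (hg : GG m n σ ω) :
    PairAt ω (MM m n σ ^ (x1 xC0 xcg xce + x3 xC0 xcg xce + 100)) (nKap n) :=
  (pair_at h (genJ_of_gg (by have := h.nm; omega) hg h.coin (nJ n))).mono (lenT_le h)

end Pool.Agent.Lib.S3.PL
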