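import Pool.Agent.Lib.S3.Fat.Sizes
import Pool.Agent.Lib.S3.PL.EvMeas
import Pool.Agent.Lib.S3.Hub.Light

/-!
# HubLaw: few small multipliers at the hub, relative to feasibility

`hub_law`: the probability that `k` rows are tight at the minimiser of the hub functional
`∑ g_r ρ_r - Θ ρ_∞` with multipliers at most `τ`, and that the system is feasible, is at most
`(2 m τ MM ^ 3) ^ k` times the probability of feasibility.
-/

set_option autoImplicit false

open MeasureTheory ProbabilityTheory Set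
open scoped ENNReal NNReal

namespace Pool.Agent.Lib.S3.PL

variable {m n : ℕ}

/-- The hub event. -/
def HubEv (m n : ℕ) (Θ τ : ℝ) (k : ℕ) : Set (Om m n) :=
  {ω | Hub.HubBad Θ τ k (rho ω) (Nf ω) (fun r => ω (.hub (some r)))}

/-- **The hub event is rare relative to feasibility.** -/
theorem hub_law_pow (Abar : Fin m → Fin n → ℝ) (bbar : Fin m → ℝ) (σ Θ τ : ℝ) (hτ : 0 ≤ τ)
    (k : ℕ) :
    law1 Abar bbar σ (HubEv m n Θ τ k ∩ feaO) ≤
      ENNReal.ofReal (2 * m * τ * (MM m n σ : ℝ) ^ 3) ^ k *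
        law1 Abar bbar σ (feaO : Set (Om m n)) := by
  have hM : 0 < (MM m n σ : ℝ) := by exact_mod_cast MM_pos m n σ
  set v0 : ℝ≥0 := ((MM m n σ : ℕ) : ℝ≥0)⁻¹ ^ 6 with hv0
  have hMN : ((MM m n σ : ℕ) : ℝ≥0) ≠ 0 := by
    have := MM_pos m n σ
    exact_mod_cast this.ne'
  have hv00 : v0 ≠ 0 := pow_ne_zero _ (inv_ne_zero hMN)
  have hsq : √(v0 : ℝ) = ((MM m n σ : ℝ) ^ 3)⁻¹ := by
    have h1 : (v0 : ℝ) = (((MM m n σ : ℝ) ^ 3)⁻¹) ^ 2 := by
      rw [hv0]
      push_cast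
      rw [inv_pow, inv_pow, ← pow_mul]
    rw [h1, Real.sqrt_sq (by positivity)]
  have h := Hub.hub_light (κ := Co m n) (m := m) (n := n) (ctr Abar bbar (cc1 m n))
    (vr σ (vv1 m n σ)) Θ τ hτ k (fun r => Co.hub (some r))
    (fun a b hab => by simpa using hab) v0 hv00 (fun r => rfl) rho Nf
    (fun o k => meas_rho o k) (fun k => meas_Nf k) ?_ ?_ (2 * √(v0 : ℝ)) (by positivity) ?_
    feaO feaO measurableSet_feaO measurableSet_feaO ?_
  · refine h.trans (le_of_eq ?_)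
    have e1 : 2 * (m : ℝ) * τ / √(v0 : ℝ) = 2 * m * τ * (MM m n σ : ℝ) ^ 3 := by
      rw [hsq, div_inv_eq_mul]
    rw [e1]
    rfl
  · intro ω ω' hω
    funext o
    cases o with
    | none => rfl
    | some r =>
      funext j
      exact hω (.row r j) (by rintro ⟨x, hx⟩; simp at hx)
  · intro ω ω' hω
    have hr : rho ω' = rho ω := by
      funext o
      cases o with
      | none => rfl
      | some r =>
        funext j
        exact hω (.row r j) (by rintro ⟨x, hx⟩; simp at hx)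
    unfold Nf
    rw [hr]
    refine Finset.sum_congr rfl fun r _ => ?_
    rw [hω (.eta r) (by rintro ⟨x, hx⟩; simp at hx)]
  · rw [mul_pow, Real.sq_sqrt (by positivity)]
    norm_num
  · rintro ω ⟨x, hx⟩ ω' hω -
    refine ⟨x, fun i => ?_⟩
    have hA : Am ω' i = Am ω i := by
      funext j
      change -ω' (.row i j.succ) = -ω (.row i j.succ)
      rw [hω (.row i j.succ) (by rintro ⟨x, hx⟩; simp at hx)]
    have hb : bm ω' i = bm ω i := by
      change ω' (.row i 0) = ω (.row i 0)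
      rw [hω (.row i 0) (by rintro ⟨x, hx⟩; simp at hx)]
    rw [hA, hb]
    exact hx i

/-- The hub functional with the coins `ω (hub r)`. -/
noncomputable def hubF (Θ : ℝ) (ω : Om m n) : Fin (n + 1) → ℝ :=
  Hub.hubG Θ (rho ω) (fun r => ω (.hub (some r)))

/-- **The hub event is rare relative to feasibility**, with powers of `MM`. -/
theorem hub_law (Abar : Fin m → Fin n → ℝ) (bbar : Fin m → ℝ) (σ Θ : ℝ) (b k : ℕ) :
    law1 Abar bbar σ (HubEv m n Θ ((1 / (MM m n σ : ℝ)) ^ (5 + b)) k ∩ feaO) ≤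
      ENNReal.ofReal ((1 / (MM m n σ : ℝ)) ^ (b * k)) *
        law1 Abar bbar σ (feaO : Set (Om m n)) := by
  have hM : 0 < (MM m n σ : ℝ) := by exact_mod_cast MM_pos m n σ
  have h2 : (2 : ℝ) + m ≤ (MM m n σ : ℝ) := by
    have : 2 + m ≤ MM m n σ := by unfold MM; omega
    exact_mod_cast this
  have hm : (0 : ℝ) ≤ m := Nat.cast_nonneg m
  refine (hub_law_pow Abar bbar σ Θ _ (by positivity) k).trans ?_
  refine mul_le_mul_left ?_ _
  rw [← ENNReal.ofReal_pow (by positivity)]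
  refine ENNReal.ofReal_le_ofReal ?_
  rw [pow_mul]
  refine pow_le_pow_left₀ (by positivity) ?_ k
  have h3 : 2 * (m : ℝ) ≤ (MM m n σ : ℝ) ^ 2 := by nlinarith
  rw [pow_add]
  have h4 : (1 / (MM m n σ : ℝ)) ^ 5 * (MM m n σ : ℝ) ^ 3 = (1 / (MM m n σ : ℝ)) ^ 2 := by
    field_simp
  have h5 : 2 * (m : ℝ) * (1 / (MM m n σ : ℝ)) ^ 2 ≤ 1 := by
    rw [one_div, inv_pow]
    rw [mul_inv_le_iff₀ (by positivity)]
    linarith
  calc 2 * (m : ℝ) * ((1 / (MM m n σ : ℝ)) ^ 5 * (1 / (MM m n σ : ℝ)) ^ b) *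
        (MM m n σ : ℝ) ^ 3
      = (2 * (m : ℝ) * ((1 / (MM m n σ : ℝ)) ^ 5 * (MM m n σ : ℝ) ^ 3)) *
          (1 / (MM m n σ : ℝ)) ^ b := by ring
    _ = (2 * (m : ℝ) * (1 / (MM m n σ : ℝ)) ^ 2) * (1 / (MM m n σ : ℝ)) ^ b := by rw [h4]
    _ ≤ 1 * (1 / (MM m n σ : ℝ)) ^ b := by
        exact mul_le_mul_of_nonneg_right h5 (by positivity)
    _ = _ := one_mul _

/-- The two certificate layers agree: the point. -/
theorem XJ_eq_pt {κ : Type} (N : Fin (n + 1) → ℝ) (ρ : κ → Fin (n + 1) → ℝ) (e : Fin n → κ) :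
    Cert.XJ ρ N e = pt N ρ e := by
  funext i
  unfold Cert.XJ pt
  rw [Matrix.mulVec_single_one]
  rfl

/-- The two certificate layers agree: the multipliers. -/
theorem cert_lam_eq {κ : Type} (N : Fin (n + 1) → ℝ) (ρ : κ → Fin (n + 1) → ℝ)
    (Γ : Fin (n + 1) → ℝ) (e : Fin n → κ) (k : Fin n) :
    Cert.lam ρ N Γ e k = lam N ρ Γ e k := by
  unfold Cert.lam lam dv
  rw [Matrix.dotProduct_mulVec, dotProduct_single, mul_one]
  rfl

/-- The two certificate layers agree. -/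
theorem crt_of_opt {κ : Type} {N Γ : Fin (n + 1) → ℝ} {ρ : κ → Fin (n + 1) → ℝ}
    {e : Fin n → κ} (h : Opt N ρ Γ ∅ ∅ e) : Cert.Crt ρ N Γ ∅ e where
  det := h.det
  pos := fun o ho => by
    rw [XJ_eq_pt]
    exact h.pos o (Finset.notMem_empty _) fun k hk => ho ⟨k, hk⟩
  sub := fun o ho => absurd ho (Set.notMem_empty _)
  lam := fun k _ => by
    rw [cert_lam_eq]
    exact h.mul k (Finset.notMem_empty _)

/-- Outside the hub event fewer than `k` multipliers of the hub functional are at most `τ`. -/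
theorem hub_few {Θ τ : ℝ} {k : ℕ} {ω : Om m n} (h : ω ∉ HubEv m n Θ τ k) {e : Fin n → Row m}
    (he : Opt (Nf ω) (rho ω) (hubF Θ ω) ∅ ∅ e) (hen : ∀ i, e i ≠ none) :
    (Finset.univ.filter fun i => lam (Nf ω) (rho ω) (hubF Θ ω) e i ≤ τ).card < k := by
  have h1 := Hub.few_light (g := fun r => ω (.hub (some r))) h (crt_of_opt he)
    (by rintro ⟨i, hi⟩; exact hen i hi)
  have h2 : (Finset.univ.filter fun i => lam (Nf ω) (rho ω) (hubF Θ ω) e i ≤ τ) =
      (Finset.univ.filter fun i => Cert.lam (rho ω) (Nf ω)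
        (Hub.hubG Θ (rho ω) (fun r => ω (.hub (some r)))) e i ≤ τ) := by
    ext i
    simp only [Finset.mem_filter, Finset.mem_univ, true_and, cert_lam_eq]
    rfl
  rw [h2]
  exact h1

end Pool.Agent.Lib.S3.PL
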