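import Pool.Agent.Lib.S3.PL.NumDet

/-!
# Numerics of the hub (smoothed Hirsch, MP_4a5c02_co)

`hub_num`: the numerical hypotheses of `Hop.hub_crt` with `S = 1`, `Gc = 2`, in powers of `M`:
near tight threshold `s = M ^ (-xs)`, structure constant `A ≤ M ^ xA`, light threshold
`τ = M ^ (-xt)`, deep slack at infinity `γ = M ^ (-cg)`; then `θ = M ^ (-(xs + xA + 1))` and
`Θ = M ^ (xs + xA + cg + 2)` work, with `t ≤ M ^ xT` hops.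
-/

set_option autoImplicit false

namespace Pool.Agent.Lib.S3.PL

/-- exponent of the contraction `θ` of a hop -/
def xHt (xs xA : ℕ) : ℕ := xs + xA + 1

/-- exponent of the weight `Θ` of infinity in the hub functional -/
def xHT (xs xA cg : ℕ) : ℕ := xHt xs xA + cg + 1

/-- exponent of the number of hops -/
def xHn (xs xA cg xt : ℕ) : ℕ := (xHT xs xA cg + 1 + xt + xs) + (xHt xs xA + 2)

/-- The number of hops. -/
def tHub (M xs xA cg xt : ℕ) : ℕ := (xHT xs xA cg + 1 + xt + xs) * M ^ (xHt xs xA + 1)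

theorem nat_le_pow {M : ℕ} (hM : 2 ≤ M) (x : ℕ) : x ≤ M ^ x :=
  (Nat.lt_pow_self (by omega : 1 < M)).le

theorem tHub_le {M : ℕ} (hM : 5 ≤ M) (xs xA cg xt : ℕ) :
    tHub M xs xA cg xt + 1 ≤ M ^ xHn xs xA cg xt := by
  unfold tHub xHn
  set y := xHT xs xA cg + 1 + xt + xs with hy
  have h1 : y ≤ M ^ y := nat_le_pow (by omega) y
  have h2 : 1 ≤ M ^ y * M ^ (xHt xs xA + 1) := Nat.mul_pos (pow_pos (by omega) _) (pow_pos (by omega) _)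
  calc y * M ^ (xHt xs xA + 1) + 1 ≤ M ^ y * M ^ (xHt xs xA + 1) + M ^ y * M ^ (xHt xs xA + 1) :=
        Nat.add_le_add (Nat.mul_le_mul_right _ h1) h2
    _ = 2 * (M ^ y * M ^ (xHt xs xA + 1)) := by ring
    _ ≤ M * (M ^ y * M ^ (xHt xs xA + 1)) := Nat.mul_le_mul_right _ (by omega)
    _ = M ^ (y + (xHt xs xA + 2)) := by ring

/-- **Numerics of the hub.** -/
theorem hub_num {M : ℕ} (hM : 5 ≤ M) (xs xA cg xt : ℕ) {A : ℝ} (hA : A ≤ (M : ℝ) ^ xA) :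
    0 ≤ ((M : ℝ) ^ xHt xs xA)⁻¹ ∧ ((M : ℝ) ^ xHt xs xA)⁻¹ ≤ 1 ∧
    ((M : ℝ) ^ xHt xs xA)⁻¹ * (((M : ℝ) ^ xs)⁻¹ + 2 * A * 1) ≤ ((M : ℝ) ^ xs)⁻¹ ∧
    (2 : ℝ) < ((M : ℝ) ^ xHt xs xA)⁻¹ * ((M : ℝ) ^ xHT xs xA cg * ((M : ℝ) ^ cg)⁻¹) ∧
    (0 : ℝ) < ((M : ℝ) ^ xt)⁻¹ ∧
    (1 - ((M : ℝ) ^ xHt xs xA)⁻¹) ^ tHub M xs xA cg xt * (2 + (M : ℝ) ^ xHT xs xA cg * 1) ≤
      ((M : ℝ) ^ xt)⁻¹ * ((M : ℝ) ^ xs)⁻¹ := by
  have h0 := M_pos hM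
  have h1 := M_one hM
  have h5 := M_five hM
  refine ⟨(inv_pos.2 (pow_pos h0 _)).le, inv_le_one_of_one_le₀ (one_le_pow₀ h1), ?_, ?_,
    inv_pos.2 (pow_pos h0 _), ?_⟩
  · -- the contraction
    have e1 : ((M : ℝ) ^ xs)⁻¹ ≤ 1 := inv_le_one_of_one_le₀ (one_le_pow₀ h1)
    have e2 : (1 : ℝ) ≤ (M : ℝ) ^ xA := one_le_pow₀ h1
    have e3 : ((M : ℝ) ^ xs)⁻¹ + 2 * A * 1 ≤ (M : ℝ) ^ (xA + 1) := by
      have : (M : ℝ) ^ (xA + 1) = (M : ℝ) ^ xA * M := pow_succ _ _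
      rw [this]
      nlinarith
    calc ((M : ℝ) ^ xHt xs xA)⁻¹ * (((M : ℝ) ^ xs)⁻¹ + 2 * A * 1)
        ≤ ((M : ℝ) ^ xHt xs xA)⁻¹ * (M : ℝ) ^ (xA + 1) :=
          mul_le_mul_of_nonneg_left e3 (inv_pos.2 (pow_pos h0 _)).le
      _ = ((M : ℝ) ^ xs)⁻¹ := by
          rw [mul_comm, pow_mul_inv_pow hM (by unfold xHt; omega)]
          congr 2
          unfold xHt
          omega
  · have e : (M : ℝ) ^ xHT xs xA cg * ((M : ℝ) ^ cg)⁻¹ = (M : ℝ) ^ (xHt xs xA + 1) := by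
      rw [pow_mul_inv_pow' hM (by unfold xHT; omega)]
      congr 1
      unfold xHT
      omega
    rw [e, mul_comm, pow_mul_inv_pow' hM (by omega)]
    have e2 : xHt xs xA + 1 - xHt xs xA = 1 := by omega
    rw [e2, pow_one]
    linarith
  · have hd : (1 - ((M : ℝ) ^ xHt xs xA)⁻¹) ^ tHub M xs xA cg xt ≤
        ((M : ℝ) ^ (xHT xs xA cg + 1 + xt + xs))⁻¹ := decay hM (le_refl _)
    have e1 : (2 : ℝ) + (M : ℝ) ^ xHT xs xA cg * 1 ≤ (M : ℝ) ^ (xHT xs xA cg + 1) := by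
      have e2 : (1 : ℝ) ≤ (M : ℝ) ^ xHT xs xA cg := one_le_pow₀ h1
      rw [pow_succ]
      nlinarith
    have e3 : (0 : ℝ) ≤ 2 + (M : ℝ) ^ xHT xs xA cg * 1 := by
      have := pow_pos h0 (xHT xs xA cg)
      linarith
    calc (1 - ((M : ℝ) ^ xHt xs xA)⁻¹) ^ tHub M xs xA cg xt * (2 + (M : ℝ) ^ xHT xs xA cg * 1)
        ≤ ((M : ℝ) ^ (xHT xs xA cg + 1 + xt + xs))⁻¹ * (M : ℝ) ^ (xHT xs xA cg + 1) :=
          mul_le_mul hd e1 e3 (inv_pos.2 (pow_pos h0 _)).le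
      _ = ((M : ℝ) ^ xt)⁻¹ * ((M : ℝ) ^ xs)⁻¹ := by
          rw [mul_comm, pow_mul_inv_pow hM (by omega), inv_pow_mul]
          congr 2
          omega

end Pool.Agent.Lib.S3.PL
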