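import Pool.Agent.Lib.S3.Fat.ProbTop
import Pool.Agent.Lib.S3.Fat.Dm
import Pool.Agent.Lib.S3.Fat.GG

/-!
# Main: the fat theorem from the pair lemma

`fatH_main`: `FatH` from the probability of the pair event (`HP`), the genericity of the chart and of
the hub objective (`HG`), and the pair lemma at almost every good `ω` (`HPL`). `gen_hg`: the
genericity. `fatH_two`, `final_two`: `FatH` and the frozen statement from the deterministic pair
lemma (`HD`) and the probability of the pair event (`HP`).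
-/

set_option autoImplicit false

open MeasureTheory ProbabilityTheory Set
open scoped ENNReal NNReal

namespace Pool.Agent.Lib.S3.PL

open Pool.Agent.Lib.SHirsch (Gr GPos dm)
open Pool.Agent.Lib.SHirsch.Thin
open Pool.Agent.Lib.S3.Geo Pool.Agent.Lib.S3.Hop

/-- The deterministic fat theorem with the constants of `PL.Top`. -/
theorem fat_det {m n : ℕ} {σ : ℝ} {Abar : Fin m → Fin n → ℝ} {bbar : Fin m → ℝ}
    (hA : ∑ i, ∑ j, Abar i j ^ 2 ≤ 1) (hb : ∑ i, bbar i ^ 2 ≤ 1) {ω : Om m n}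
    (hbox : ω ∈ BoxS Abar bbar σ) (h : GoodW m n σ ω) (CL : ℕ)
    (hPL : PairAt ω (MM m n σ ^ CL) (nKap n)) :
    dm (SHirsch.Pol (Am ω) (bm ω) ∅ Finset.univ) ≤
      ((MM m n σ ^ (CL + 10960) : ℕ) : ℕ∞) := by
  have hn512 := h.n512
  have hM5 := h.M5
  have hM512 := h.M512
  have hmM := h.mM
  have h1 := fat_dm_om (Abar := Abar) (bbar := bbar) (σ := σ) (by omega) h.nm h.hσ hA hb
    (ω := ω) (fun c => by
      have := hbox c
      rwa [add_zero] at this) h.gp h.gpc xce xtau xwk (nW n) (nHub n) (nNr n) (nKap n)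
    (MM m n σ ^ CL) ((MM m n σ : ℝ) ^ xhub) rfl h.optH h.near (by
      have h2 := h.det
      have h3 : 5 * n + 2 * (2 * n) + 8 = 9 * n + 8 := by ring
      unfold DetS at h2
      rwa [h3] at h2) h.hub h.thick (by unfold xwk nW; omega) (by unfold nW nNr nKap; omega)
    (by unfold nHub nNr nKap; omega) hPL (MM m n σ ^ 10950) (by
      push_cast
      exact le_of_eq rfl)
  refine h1.trans ?_
  have h2 : 2 * ((MM m n σ ^ 10950 + 1) * MM m n σ ^ CL) * (2 * (m + 2) ^ 2) ≤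
      MM m n σ ^ (CL + 10960) := by
    have h3 : MM m n σ ^ 10950 + 1 ≤ MM m n σ ^ 10951 := by
      have h4 : 1 ≤ MM m n σ ^ 10950 := Nat.one_le_pow _ _ (le_trans (by norm_num) hM5)
      calc MM m n σ ^ 10950 + 1 ≤ 2 * MM m n σ ^ 10950 := by
            rw [two_mul]
            exact Nat.add_le_add_left h4 _
        _ ≤ MM m n σ * MM m n σ ^ 10950 := Nat.mul_le_mul_right _ (by omega)
        _ = MM m n σ ^ 10951 := by ring
    have h5 : m + 2 ≤ MM m n σ ^ 2 := by nlinarith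
    calc 2 * ((MM m n σ ^ 10950 + 1) * MM m n σ ^ CL) * (2 * (m + 2) ^ 2)
        ≤ MM m n σ * (MM m n σ ^ 10951 * MM m n σ ^ CL) *
          (MM m n σ * (MM m n σ ^ 2) ^ 2) := by
          gcongr <;> omega
      _ = MM m n σ ^ (CL + 10957) := by ring
      _ ≤ MM m n σ ^ (CL + 10960) := Nat.pow_le_pow_right (by omega) (by omega)
  exact_mod_cast h2

/-- **The fat theorem from its three inputs.** -/
theorem fatH_main (CL : ℕ)
    (HP : ∀ m n : ℕ, 512 ≤ n → n + 1 ≤ m → ∀ σ : ℝ, 0 < σ → σ ≤ 1 →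
      ∀ (Abar : Fin m → Fin n → ℝ) (bbar : Fin m → ℝ),
      ∑ i, ∑ j, Abar i j ^ 2 ≤ 1 → ∑ i, bbar i ^ 2 ≤ 1 →
      law1 Abar bbar σ (PairS m n σ ∩ (BoxS Abar bbar σ ∩ feaO)) ≤
        ENNReal.ofReal ((1 / (MM m n σ : ℝ)) ^ (2 * n)) *
          law1 Abar bbar σ (feaO : Set (Om m n)))
    (HG : ∀ m n : ℕ, 512 ≤ n → n + 1 ≤ m → ∀ σ : ℝ, 0 < σ → σ ≤ 1 →
      ∀ (Abar : Fin m → Fin n → ℝ) (bbar : Fin m → ℝ),
      ∀ᵐ ω ∂(law1 Abar bbar σ), GP (chA (Am ω) (bm ω) (Nf ω)) (chB m) {none} ∧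
        ((∀ r, 0 < ω (.eta r)) → ω ∈ (feaO : Set (Om m n)) →
          ∃ f, Opt (Nf ω) (rho ω) (fnl ω (cfHub ((MM m n σ : ℝ) ^ xhub) ω)) ∅ ∅ f))
    (HPL : ∀ m n : ℕ, 512 ≤ n → n + 1 ≤ m → ∀ σ : ℝ, 0 < σ → σ ≤ 1 →
      ∀ (Abar : Fin m → Fin n → ℝ) (bbar : Fin m → ℝ),
      ∑ i, ∑ j, Abar i j ^ 2 ≤ 1 → ∑ i, bbar i ^ 2 ≤ 1 →
      ∀ᵐ ω ∂(law1 Abar bbar σ), GoodW m n σ ω → PairAt ω (MM m n σ ^ CL) (nKap n)) :
    FatH (CL + 10960) 512 := by
  intro m n hn hnm σ hσ hσ1 Abar bbar hA hb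
  refine ⟨BadTop Abar bbar σ, ?_, ?_⟩
  · filter_upwards [HG m n hn hnm σ hσ hσ1 Abar bbar, HPL m n hn hnm σ hσ hσ1 Abar bbar hA hb,
      gpc_law Abar bbar hσ (cc1 m n) (vv1 m n σ)] with ω hG hPL hgp hf hbad hthick
    obtain ⟨h1, h2, h3, h4, h5, h6, h7⟩ := good_top (by omega) (by omega) hσ hA hb hbad hf
    have hgood : GoodW m n σ ω := by
      refine ⟨hn, hnm, hσ, SHirsch.gpos_of_gpc (by omega) hgp, hG.1, h2, h3, h4, h5, h6,
        hG.2 (fun r => lt_of_lt_of_le one_pos (h2 (.eta r) trivial).1) hf, hthick, h7⟩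
    exact fat_det hA hb h1 hgood CL (hPL hgood)
  · refine (prob_top hn hnm Abar bbar hσ hσ1 hA hb (HP m n hn hnm σ hσ hσ1 Abar bbar hA hb)).trans ?_
    have h1 : (1 : ℝ≥0∞) ≤ ((MM m n σ : ℕ) : ℝ≥0∞) ^ (CL + 10960) := by
      apply one_le_pow₀
      have : 1 ≤ MM m n σ := by unfold MM; omega
      exact_mod_cast this
    calc law1 Abar bbar σ (feaO : Set (Om m n))
        = 1 * law1 Abar bbar σ (feaO : Set (Om m n)) := (one_mul _).symm
      _ ≤ _ := mul_le_mul_left h1 _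

/-- The genericity of the chart and of the hub objective. -/
theorem gen_hg {m n : ℕ} (hn : 1 ≤ n) (hnm : n ≤ m) {σ : ℝ} (hσ : 0 < σ)
    (Abar : Fin m → Fin n → ℝ) (bbar : Fin m → ℝ) :
    ∀ᵐ ω ∂(law1 Abar bbar σ), GG m n σ ω ∧ GP (chA (Am ω) (bm ω) (Nf ω)) (chB m) {none} ∧
      ((∀ r, 0 < ω (.eta r)) → ω ∈ (feaO : Set (Om m n)) →
        ∃ f, Opt (Nf ω) (rho ω) (fnl ω (cfHub ((MM m n σ : ℝ) ^ xhub) ω)) ∅ ∅ f) := by
  filter_upwards [ae_gg hn hnm Abar bbar hσ] with ω hω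
  refine ⟨hω, gg_gp hnm hω, fun heta hf => gg_optH hnm hω heta (fe_of_pol heta ?_)⟩
  obtain ⟨x, hx⟩ := hf
  exact ⟨x, by simp, fun i _ => hx i⟩

/-- **The fat theorem from the pair lemma and the probability of the pair event.** -/
theorem fatH_two (CL : ℕ)
    (HP : ∀ m n : ℕ, 512 ≤ n → n + 1 ≤ m → ∀ σ : ℝ, 0 < σ → σ ≤ 1 →
      ∀ (Abar : Fin m → Fin n → ℝ) (bbar : Fin m → ℝ),
      ∑ i, ∑ j, Abar i j ^ 2 ≤ 1 → ∑ i, bbar i ^ 2 ≤ 1 →
      law1 Abar bbar σ (PairS m n σ ∩ (BoxS Abar bbar σ ∩ feaO)) ≤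
        ENNReal.ofReal ((1 / (MM m n σ : ℝ)) ^ (2 * n)) *
          law1 Abar bbar σ (feaO : Set (Om m n)))
    (HD : ∀ (m n : ℕ) (σ : ℝ) (ω : Om m n), GoodW m n σ ω → GG m n σ ω →
      PairAt ω (MM m n σ ^ CL) (nKap n)) :
    FatH (CL + 10960) 512 := by
  refine fatH_main CL HP ?_ ?_
  · intro m n hn hnm σ hσ _ Abar bbar
    filter_upwards [gen_hg (by omega) (by omega) hσ Abar bbar] with ω hω
    exact hω.2
  · intro m n hn hnm σ hσ _ Abar bbar _ _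
    filter_upwards [gen_hg (by omega) (by omega) hσ Abar bbar] with ω hω hgood
    exact HD m n σ ω hgood hω.1

/-- **The frozen statement from the pair lemma and the probability of the pair event.** -/
theorem final_two (CL : ℕ)
    (HP : ∀ m n : ℕ, 512 ≤ n → n + 1 ≤ m → ∀ σ : ℝ, 0 < σ → σ ≤ 1 →
      ∀ (Abar : Fin m → Fin n → ℝ) (bbar : Fin m → ℝ),
      ∑ i, ∑ j, Abar i j ^ 2 ≤ 1 → ∑ i, bbar i ^ 2 ≤ 1 →
      law1 Abar bbar σ (PairS m n σ ∩ (BoxS Abar bbar σ ∩ feaO)) ≤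
        ENNReal.ofReal ((1 / (MM m n σ : ℝ)) ^ (2 * n)) *
          law1 Abar bbar σ (feaO : Set (Om m n)))
    (HD : ∀ (m n : ℕ) (σ : ℝ) (ω : Om m n), GoodW m n σ ω → GG m n σ ω →
      PairAt ω (MM m n σ ^ CL) (nKap n)) :
    ∃ C : ℝ, ∃ k : ℕ, ∀ m n : ℕ, ∀ σ : ℝ, 0 < σ →
    ∀ Abar : Fin m → Fin n → ℝ, ∀ bbar : Fin m → ℝ,
      ∑ i, ∑ j, Abar i j ^ 2 ≤ 1 → ∑ i, bbar i ^ 2 ≤ 1 →
      ∫⁻ ω : (Fin m → Fin n → ℝ) × (Fin m → ℝ),
          ENat.toENNReal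
            (((SimpleGraph.fromRel (fun u v : Fin n → ℝ =>
                IsExtreme ℝ
                  {x : Fin n → ℝ | ∀ i, ∑ j, (Abar i j + ω.1 i j) * x j ≤ bbar i + ω.2 i}
                  (segment ℝ u v))).induce
              (Set.extremePoints ℝ
                {x : Fin n → ℝ | ∀ i, ∑ j, (Abar i j + ω.1 i j) * x j ≤ bbar i + ω.2 i})).ediam)
        ∂((Measure.pi fun _ : Fin m => Measure.pi fun _ : Fin n =>
              ProbabilityTheory.gaussianReal 0 (σ ^ 2).toNNReal).prod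
            (Measure.pi fun _ : Fin m => ProbabilityTheory.gaussianReal 0 (σ ^ 2).toNNReal))
      ≤ ENNReal.ofReal (C * (1 + (m : ℝ) + (n : ℝ) + 1 / σ) ^ k) *
        ((Measure.pi fun _ : Fin m => Measure.pi fun _ : Fin n =>
              ProbabilityTheory.gaussianReal 0 (σ ^ 2).toNNReal).prod
            (Measure.pi fun _ : Fin m => ProbabilityTheory.gaussianReal 0 (σ ^ 2).toNNReal))
          {ω : (Fin m → Fin n → ℝ) × (Fin m → ℝ) |
            ∃ x : Fin n → ℝ, ∀ i, ∑ j, (Abar i j + ω.1 i j) * x j ≤ bbar i + ω.2 i} :=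
  final_of_fat (CL + 10960) 512 (fatH_two CL HP HD)

end Pool.Agent.Lib.S3.PL
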