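import Pool.Agent.Lib.S3.Fat.Main
import Pool.Agent.Lib.S3.PL.PairLaw

/-!
# The frozen statement from the deterministic pair lemma
-/

set_option autoImplicit false

open MeasureTheory ProbabilityTheory Set
open scoped ENNReal NNReal

namespace Pool.Agent.Lib.S3.PL

/-- The probability of the pair event, with the constants of `PL.Top`. -/
theorem hp_top (m n : ℕ) (hn : 512 ≤ n) (hmn : n + 1 ≤ m) (σ : ℝ) (hσ : 0 < σ) (_hσ1 : σ ≤ 1)
    (Abar : Fin m → Fin n → ℝ) (bbar : Fin m → ℝ)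
    (hA : ∑ i, ∑ j, Abar i j ^ 2 ≤ 1) (hb : ∑ i, bbar i ^ 2 ≤ 1) :
    law1 Abar bbar σ (PairS m n σ ∩ (BoxS Abar bbar σ ∩ feaO)) ≤
      ENNReal.ofReal ((1 / (MM m n σ : ℝ)) ^ (2 * n)) *
        law1 Abar bbar σ (feaO : Set (Om m n)) :=
  pairLaw xC0 xcg xce (by omega) hmn Abar bbar hσ hA hb (nJ n) (2 * nW n)
    (by unfold nJ; omega) (by unfold nJ nW; omega)

/-- **The frozen statement from the deterministic pair lemma.** -/
theorem final_one (CL : ℕ)
    (HD : ∀ (m n : ℕ) (σ : ℝ) (ω : Om m n), GoodW m n σ ω → GG m n σ ω →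
      PairAt ω (MM m n σ ^ CL) (nKap n)) :
    ∃ C : ℝ, ∃ k : ℕ, ∀ m n : ℕ, ∀ σ : ℝ, 0 < σ →
    ∀ Abar : Fin m → Fin n → ℝ, ∀ bbar : Fin m → ℝ,
      ∑ i, ∑ j, Abar i j ^ 2 ≤ 1 → ∑ i, bbar i ^ 2 ≤ 1 →
      ∫⁻ ω : (Fin m → Fin n → ℝ) × (Fin m → ℝ),
          ENat.toENNReal
            (((SimpleGraph.fromRel (fun u v : Fin n → ℝ =>
                IsExtreme ℝ
                  {x : Fin n → ℝ | ∀ i, ∑ j, (Abar i j + ω.1 i j) * x j ≤ bbar i + ω.2 i}
                  (segment ℝ u v))).induce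
              (Set.extremePoints ℝ
                {x : Fin n → ℝ | ∀ i, ∑ j, (Abar i j + ω.1 i j) * x j ≤ bbar i + ω.2 i})).ediam)
        ∂((Measure.pi fun _ : Fin m => Measure.pi fun _ : Fin n =>
              ProbabilityTheory.gaussianReal 0 (σ ^ 2).toNNReal).prod
            (Measure.pi fun _ : Fin m => ProbabilityTheory.gaussianReal 0 (σ ^ 2).toNNReal))
      ≤ ENNReal.ofReal (C * (1 + (m : ℝ) + (n : ℝ) + 1 / σ) ^ k) *
        ((Measure.pi fun _ : Fin m => Measure.pi fun _ : Fin n =>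
              ProbabilityTheory.gaussianReal 0 (σ ^ 2).toNNReal).prod
            (Measure.pi fun _ : Fin m => ProbabilityTheory.gaussianReal 0 (σ ^ 2).toNNReal))
          {ω : (Fin m → Fin n → ℝ) × (Fin m → ℝ) |
            ∃ x : Fin n → ℝ, ∀ i, ∑ j, (Abar i j + ω.1 i j) * x j ≤ bbar i + ω.2 i} :=
  final_two CL hp_top HD

end Pool.Agent.Lib.S3.PL
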