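import Pool.Agent.Lib.S3.PL.PairLaw
import Pool.Agent.Lib.S3.PL.Top

/-!
# Fat / PairProb: the probability of the bad set of the pairs (smoothed Hirsch, MP_4a5c02_co)

`pairS_law` is the input (HP) of `fatH_of`.
-/

set_option autoImplicit false

open MeasureTheory ProbabilityTheory Set
open scoped ENNReal NNReal

namespace Pool.Agent.Lib.S3.PL

/-- **The bad set of the pairs** with the constants of the FAT theorem. -/
theorem pairS_law {m n : ℕ} (hn : 8 ≤ n) (hmn : n + 1 ≤ m) {σ : ℝ} (hσ : 0 < σ)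
    (Abar : Fin m → Fin n → ℝ) (bbar : Fin m → ℝ) (hA : ∑ i, ∑ j, Abar i j ^ 2 ≤ 1)
    (hb : ∑ i, bbar i ^ 2 ≤ 1) :
    law1 Abar bbar σ (PairS m n σ ∩ (Box (ctr Abar bbar (cc1 m n)) (Rb1 m n σ) 0 ∩ feaO)) ≤
      ENNReal.ofReal ((1 / (MM m n σ : ℝ)) ^ (2 * n)) *
        law1 Abar bbar σ (feaO : Set (Om m n)) :=
  pairLaw xC0 xcg xce (by omega) hmn Abar bbar hσ hA hb (nJ n) (2 * nW n)
    (by unfold nJ; omega) (by unfold nJ nW; omega)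

/-- The input (HP) of `fatH_of`. -/
theorem HP (N0 : ℕ) (hN0 : 8 ≤ N0) :
    ∀ m n : ℕ, N0 ≤ n → n + 1 ≤ m → ∀ σ : ℝ, 0 < σ → σ ≤ 1 →
      ∀ (Abar : Fin m → Fin n → ℝ) (bbar : Fin m → ℝ),
      ∑ i, ∑ j, Abar i j ^ 2 ≤ 1 → ∑ i, bbar i ^ 2 ≤ 1 →
      law1 Abar bbar σ (PairS m n σ ∩ (Box (ctr Abar bbar (cc1 m n)) (Rb1 m n σ) 0 ∩ feaO)) ≤
        ENNReal.ofReal ((1 / (MM m n σ : ℝ)) ^ (2 * n)) *
          law1 Abar bbar σ (feaO : Set (Om m n)) :=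
  fun _ _ hn hmn _ hσ _ Abar bbar hA hb => pairS_law (hN0.trans hn) hmn hσ Abar bbar hA hb

end Pool.Agent.Lib.S3.PL
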