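import Pool.Agent.Lib.S3.PL.Top
import Pool.Agent.Lib.S3.Fat.Bad

/-!
# Fat / ProbTop: the probability of the bad event of the fat case

`BadTop`: the bad event with the constants of `PL.Top`; `prob_top`: its probability;
`good_top`: what holds outside.
-/

set_option autoImplicit false

open MeasureTheory ProbabilityTheory Set
open scoped ENNReal NNReal

namespace Pool.Agent.Lib.S3.PL

variable {m n : ℕ}

/-- The box. -/
def BoxS (Abar : Fin m → Fin n → ℝ) (bbar : Fin m → ℝ) (σ : ℝ) : Set (Om m n) :=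
  Box (ctr Abar bbar (cc1 m n)) (Rb1 m n σ) 0

/-- The bad event of the fat case. -/
def BadTop (Abar : Fin m → Fin n → ℝ) (bbar : Fin m → ℝ) (σ : ℝ) : Set (Om m n) :=
  (BoxS Abar bbar σ)ᶜ ∪ NearS m n σ ∪ DetS m n σ ∪ (HubS m n σ ∩ feaO) ∪
    (PairS m n σ ∩ (BoxS Abar bbar σ ∩ feaO))

/-- The union of the five events. -/
theorem badTop_sub (Abar : Fin m → Fin n → ℝ) (bbar : Fin m → ℝ) (σ : ℝ) :
    (BadTop Abar bbar σ : Set (Om m n)) ⊆
      ⋃ i, FatBad Abar bbar σ ((MM m n σ : ℝ) ^ xhub) (nNr n) xce (nHub n + 1) xtau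
        (PairS m n σ ∩ (BoxS Abar bbar σ ∩ feaO)) i := by
  rintro ω ((((h | h) | h) | h) | h)
  · refine Set.mem_iUnion.2 ⟨0, ?_⟩
    change ∃ c, Rb1 m n σ c ≤ |ω c - ctr Abar bbar (cc1 m n) c|
    by_contra hcon
    push Not at hcon
    exact h fun c => by
      rw [add_zero]
      exact (hcon c).le
  · exact Set.mem_iUnion.2 ⟨1, h⟩
  · refine Set.mem_iUnion.2 ⟨2, ?_⟩
    change ω ∈ (DetBad ((1 / (MM m n σ : ℝ)) ^ (9 * n + 8)) : Set (Om m n))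
    have h2 : 5 * n + 2 * (2 * n) + 8 = 9 * n + 8 := by ring
    unfold DetS at h
    rwa [h2] at h
  · exact Set.mem_iUnion.2 ⟨3, h⟩
  · exact Set.mem_iUnion.2 ⟨4, h⟩

/-- **The probability of the bad event of the fat case.** -/
theorem prob_top (hn : 512 ≤ n) (hmn : n + 1 ≤ m) (Abar : Fin m → Fin n → ℝ) (bbar : Fin m → ℝ)
    {σ : ℝ} (hσ : 0 < σ) (hσ1 : σ ≤ 1) (hA : ∑ i, ∑ j, Abar i j ^ 2 ≤ 1)
    (hb : ∑ i, bbar i ^ 2 ≤ 1)
    (HP : law1 Abar bbar σ (PairS m n σ ∩ (BoxS Abar bbar σ ∩ feaO)) ≤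
      ENNReal.ofReal ((1 / (MM m n σ : ℝ)) ^ (2 * n)) *
        law1 Abar bbar σ (feaO : Set (Om m n))) :
    ((MM m n σ : ℕ) : ℝ≥0∞) ^ (Nat.log 2 n + 5) * law1 Abar bbar σ (BadTop Abar bbar σ) ≤
      law1 Abar bbar σ (feaO : Set (Om m n)) := by
  refine (mul_le_mul_right (measure_mono (badTop_sub Abar bbar σ)) _).trans ?_
  refine fat_prob (by omega) hmn Abar bbar hσ hσ1 hA hb _ _ _ _ _ ?_ ?_ _ HP
  · unfold nNr xce
    omega
  · unfold nHub xtau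
    omega

/-- **The facts outside the bad event of the fat case**, at a feasible `ω`. -/
theorem good_top {Abar : Fin m → Fin n → ℝ} {bbar : Fin m → ℝ} {σ : ℝ} (hn : 1 ≤ n) (hm : 1 ≤ m)
    (hσ : 0 < σ) (hA : ∑ i, ∑ j, Abar i j ^ 2 ≤ 1) (hb : ∑ i, bbar i ^ 2 ≤ 1) {ω : Om m n}
    (h : ω ∉ BadTop Abar bbar σ) (hf : ω ∈ (feaO : Set (Om m n))) :
    ω ∈ BoxS Abar bbar σ ∧ CoinOk ω ∧ (∀ r j, |rho ω r j| ≤ (MM m n σ : ℝ) ^ 3 + 1) ∧
    ω ∉ NearS m n σ ∧ ω ∉ DetS m n σ ∧ ω ∉ HubS m n σ ∧ ω ∉ PairS m n σ := by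
  unfold BadTop at h
  simp only [Set.mem_union, not_or] at h
  obtain ⟨⟨⟨⟨h1, h2⟩, h3⟩, h4⟩, h5⟩ := h
  rw [Set.notMem_compl_iff] at h1
  have hM5 : (5 : ℝ) ≤ (MM m n σ : ℝ) := by exact_mod_cast five_le_MM hn hm hσ
  refine ⟨h1, ?_, ?_, h2, h3, fun hc => h4 ⟨hc, hf⟩, fun hc => h5 ⟨hc, h1, hf⟩⟩
  · refine coinOk_of_box (ctr := ctr Abar bbar (cc1 m n)) (Rb := Rb1 m n σ) (b := 0) ?_ ?_ h1
    · intro c hc
      cases c with
      | row r j => exact absurd hc (by simp [IsCoin])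
      | _ => rfl
    · intro c hc
      cases c with
      | row r j => exact absurd hc (by simp [IsCoin])
      | _ => exact le_of_eq (add_zero _)
  · refine abs_rho_le (cc := cc1 m n) (one_le_pow₀ (by linarith)) hA hb ?_
    intro r j
    have h6 := h1 (.row r j)
    rw [add_zero] at h6
    exact h6

end Pool.Agent.Lib.S3.PL
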